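import Pool.Agent.Helper533.StarBox.Form

/-!
The bump `exp (-1/q)`, `q = 1 - |z - z₀|²/R²`, and its Laplacian.
-/

set_option autoImplicit false

open MeasureTheory Set Filter Topology Metric

namespace Pool.Agent.TH340.SH

open Pool.Agent.Helper533.StarBox

noncomputable def E1 (x : ℝ) : ℝ := x⁻¹ ^ 2 * expNegInvGlue x
noncomputable def E2 (x : ℝ) : ℝ := (x⁻¹ ^ 4 - 2 * x⁻¹ ^ 3) * expNegInvGlue x

theorem E_deriv (x : ℝ) : HasDerivAt expNegInvGlue (E1 x) x := by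
  have h := expNegInvGlue.hasDerivAt_polynomial_eval_inv_mul 1 x
  simp only [Polynomial.eval_one, one_mul, Polynomial.derivative_one, sub_zero, mul_one,
    Polynomial.eval_pow, Polynomial.eval_X] at h
  exact h

theorem E1_deriv (x : ℝ) : HasDerivAt E1 (E2 x) x := by
  have h := expNegInvGlue.hasDerivAt_polynomial_eval_inv_mul (Polynomial.X ^ 2) x
  have e1 : (fun x : ℝ => Polynomial.eval x⁻¹ (Polynomial.X ^ 2 : Polynomial ℝ) * expNegInvGlue x) = E1 := by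
    funext y; simp [E1]
  rw [e1] at h
  convert h using 1
  simp [E2, Polynomial.derivative_X_pow]
  left
  ring

/-- `P q = (1 - q) E'' q - E' q` -/
noncomputable def PP (q : ℝ) : ℝ := (1 - q) * E2 q - E1 q

theorem PP_eq {q : ℝ} (hq : q ≠ 0) : PP q = expNegInvGlue q * q⁻¹ ^ 4 * (1 - 3 * q + q ^ 2) := by
  unfold PP E1 E2
  field_simp
  ring

theorem PP_nonpos {q : ℝ} (hq : q ≤ 0) : PP q = 0 := by
  unfold PP E1 E2
  rw [expNegInvGlue.zero_of_nonpos hq]; simp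

theorem PP_nonneg {q : ℝ} (hq : q ≤ 3 / 10) : 0 ≤ PP q := by
  rcases le_or_gt q 0 with h | h
  · rw [PP_nonpos h]
  · rw [PP_eq h.ne']
    have h1 : 0 ≤ 1 - 3 * q + q ^ 2 := by nlinarith
    have h2 := (expNegInvGlue.pos_of_pos h).le
    positivity

theorem PP_lower : ∃ c C : ℝ, 0 < c ∧ 0 < C ∧ (∀ q, 1 / 10 ≤ q → q ≤ 3 / 10 → c ≤ PP q) ∧
    ∀ q, q ≤ 1 → - C ≤ PP q := by
  refine ⟨expNegInvGlue (1 / 10) * (1 / 10), (3 / 10)⁻¹ ^ 4, ?_, by positivity, ?_, ?_⟩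
  · have := expNegInvGlue.pos_of_pos (show (0 : ℝ) < 1 / 10 by norm_num)
    positivity
  · intro q h1 h2
    have h0 : 0 < q := by linarith
    rw [PP_eq h0.ne']
    have h3 : expNegInvGlue (1 / 10) ≤ expNegInvGlue q := expNegInvGlue.monotone h1
    have h4 : 1 ≤ q⁻¹ ^ 4 := by
      apply one_le_pow₀
      rw [one_le_inv₀ h0]; linarith
    have h5 : (1 / 10 : ℝ) ≤ 1 - 3 * q + q ^ 2 := by nlinarith
    have h6 := (expNegInvGlue.pos_of_pos (show (0 : ℝ) < 1 / 10 by norm_num)).le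
    have h7 : expNegInvGlue (1 / 10) ≤ expNegInvGlue q * q⁻¹ ^ 4 := by
      calc expNegInvGlue (1 / 10) = expNegInvGlue (1 / 10) * 1 := (mul_one _).symm
        _ ≤ expNegInvGlue q * q⁻¹ ^ 4 := mul_le_mul h3 h4 zero_le_one (h6.trans h3)
    exact mul_le_mul h7 h5 (by norm_num) (h6.trans h7)
  · intro q hq
    rcases le_or_gt q (3 / 10) with h | h
    · have := PP_nonneg h
      have h2 : (0 : ℝ) < (3 / 10)⁻¹ ^ 4 := by positivity
      linarith
    · have h0 : 0 < q := by linarith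
      rw [PP_eq h0.ne']
      have h1 : expNegInvGlue q ≤ 1 := expNegInvGlue_le_one' q
      have h2 : q⁻¹ ^ 4 ≤ (3 / 10)⁻¹ ^ 4 := by
        apply pow_le_pow_left₀ (by positivity)
        exact inv_anti₀ (by norm_num) h.le
      have h3 : -1 ≤ 1 - 3 * q + q ^ 2 := by nlinarith
      have h4 := (expNegInvGlue.pos_of_pos h0).le
      have h5 : expNegInvGlue q * q⁻¹ ^ 4 ≤ (3 / 10)⁻¹ ^ 4 := by
        calc expNegInvGlue q * q⁻¹ ^ 4 ≤ 1 * (3 / 10)⁻¹ ^ 4 :=
              mul_le_mul h1 h2 (by positivity) zero_le_one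
          _ = _ := one_mul _
      have h6 : 0 ≤ expNegInvGlue q * q⁻¹ ^ 4 := by positivity
      nlinarith
  where
  expNegInvGlue_le_one' (q : ℝ) : expNegInvGlue q ≤ 1 := by
    rcases le_or_gt q 0 with h | h
    · rw [expNegInvGlue.zero_of_nonpos h]; norm_num
    · unfold expNegInvGlue
      rw [if_neg (not_le.mpr h)]
      rw [Real.exp_le_one_iff]
      have : 0 < q⁻¹ := inv_pos.mpr h
      linarith

/-- `q` -/
noncomputable def qq (z0 : ℂ) (R : ℝ) (z : ℂ) : ℝ := 1 - ((z.re - z0.re) ^ 2 + (z.im - z0.im) ^ 2) / R ^ 2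

noncomputable def eta (z0 : ℂ) (R : ℝ) (z : ℂ) : ℝ := expNegInvGlue (qq z0 R z)

theorem qq_eq (z0 : ℂ) (R : ℝ) (z : ℂ) : qq z0 R z = 1 - ‖z - z0‖ ^ 2 / R ^ 2 := by
  unfold qq
  rw [← Complex.normSq_eq_norm_sq, Complex.normSq_apply, Complex.sub_re, Complex.sub_im]
  ring

theorem qq_le_one (z0 : ℂ) (R : ℝ) (z : ℂ) : qq z0 R z ≤ 1 := by
  rw [qq_eq]
  have : 0 ≤ ‖z - z0‖ ^ 2 / R ^ 2 := by positivity
  linarith

theorem qq_smooth (z0 : ℂ) (R : ℝ) : ContDiff ℝ (⊤ : ℕ∞) (qq z0 R) := by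
  unfold qq
  have h1 : ContDiff ℝ (⊤ : ℕ∞) (fun z : ℂ => z.re) := Complex.reCLM.contDiff
  have h2 : ContDiff ℝ (⊤ : ℕ∞) (fun z : ℂ => z.im) := Complex.imCLM.contDiff
  exact contDiff_const.sub ((((h1.sub contDiff_const).pow 2).add ((h2.sub contDiff_const).pow 2)).div_const _)

theorem qq_fderiv (z0 : ℂ) (R : ℝ) (z : ℂ) :
    HasFDerivAt (qq z0 R) (-((R ^ 2)⁻¹ • ((2 * (z.re - z0.re)) • Complex.reCLM + (2 * (z.im - z0.im)) • Complex.imCLM))) z := by
  have h1 : HasFDerivAt (fun z : ℂ => z.re - z0.re) Complex.reCLM z :=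
    (Complex.reCLM.hasFDerivAt).sub_const _
  have h2 : HasFDerivAt (fun z : ℂ => z.im - z0.im) Complex.imCLM z :=
    (Complex.imCLM.hasFDerivAt).sub_const _
  have h3 := ((h1.pow 2).add (h2.pow 2)).const_mul ((R ^ 2)⁻¹)
  have h4 := h3.const_sub 1
  refine (h4.congr_fderiv ?_).congr_of_eventuallyEq (Eventually.of_forall fun w => ?_)
  · ext <;> simp
  · simp only [qq, Pi.add_apply]
    rw [div_eq_inv_mul]

theorem gx_qq (z0 : ℂ) (R : ℝ) (z : ℂ) : gx (qq z0 R) z = -(2 * (z.re - z0.re) / R ^ 2) := by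
  unfold gx; rw [(qq_fderiv z0 R z).fderiv]; simp; ring

theorem gy_qq (z0 : ℂ) (R : ℝ) (z : ℂ) : gy (qq z0 R) z = -(2 * (z.im - z0.im) / R ^ 2) := by
  unfold gy; rw [(qq_fderiv z0 R z).fderiv]; simp; ring

theorem gx_comp'' {u : ℂ → ℝ} {β : ℝ → ℝ} {b : ℝ} {z : ℂ} (hu : DifferentiableAt ℝ u z)
    (hβ : HasDerivAt β b (u z)) : gx (fun z => β (u z)) z = b * gx u z := by
  rw [gx_comp' hu hβ.differentiableAt, hβ.deriv]

theorem gy_comp'' {u : ℂ → ℝ} {β : ℝ → ℝ} {b : ℝ} {z : ℂ} (hu : DifferentiableAt ℝ u z)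
    (hβ : HasDerivAt β b (u z)) : gy (fun z => β (u z)) z = b * gy u z := by
  rw [gy_comp' hu hβ.differentiableAt, hβ.deriv]

theorem gx_eta (z0 : ℂ) (R : ℝ) : gx (eta z0 R) = fun z => E1 (qq z0 R z) * (-(2 * (z.re - z0.re) / R ^ 2)) := by
  funext z
  have := gx_comp'' ((qq_smooth z0 R).differentiable (by simp) z) (E_deriv (qq z0 R z))
  rw [gx_qq] at this
  exact this

theorem gy_eta (z0 : ℂ) (R : ℝ) : gy (eta z0 R) = fun z => E1 (qq z0 R z) * (-(2 * (z.im - z0.im) / R ^ 2)) := by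
  funext z
  have := gy_comp'' ((qq_smooth z0 R).differentiable (by simp) z) (E_deriv (qq z0 R z))
  rw [gy_qq] at this
  exact this

theorem lap_eta (z0 : ℂ) {R : ℝ} (hR : 0 < R) (z : ℂ) : lap (eta z0 R) z = 4 / R ^ 2 * PP (qq z0 R z) := by
  have hq := (qq_smooth z0 R).differentiable (by simp) z
  have hE : DifferentiableAt ℝ (fun z => E1 (qq z0 R z)) z :=
    ((E1_deriv (qq z0 R z)).comp_hasFDerivAt z hq.hasFDerivAt).differentiableAt
  have hx : HasFDerivAt (fun z : ℂ => -(2 * (z.re - z0.re) / R ^ 2)) (-((2 / R ^ 2) • Complex.reCLM)) z := by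
    have h1 : HasFDerivAt (fun z : ℂ => z.re - z0.re) Complex.reCLM z :=
      (Complex.reCLM.hasFDerivAt).sub_const _
    have h2 := (h1.const_mul (2 / R ^ 2)).neg
    refine h2.congr_of_eventuallyEq (Eventually.of_forall fun w => ?_)
    show -(2 * (w.re - z0.re) / R ^ 2) = -(2 / R ^ 2 * (w.re - z0.re))
    ring
  have hy : HasFDerivAt (fun z : ℂ => -(2 * (z.im - z0.im) / R ^ 2)) (-((2 / R ^ 2) • Complex.imCLM)) z := by
    have h1 : HasFDerivAt (fun z : ℂ => z.im - z0.im) Complex.imCLM z :=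
      (Complex.imCLM.hasFDerivAt).sub_const _
    have h2 := (h1.const_mul (2 / R ^ 2)).neg
    refine h2.congr_of_eventuallyEq (Eventually.of_forall fun w => ?_)
    show -(2 * (w.im - z0.im) / R ^ 2) = -(2 / R ^ 2 * (w.im - z0.im))
    ring
  unfold lap
  rw [gx_eta, gy_eta, gx_mul hE hx.differentiableAt, gy_mul hE hy.differentiableAt,
    gx_comp'' hq (E1_deriv _), gy_comp'' hq (E1_deriv _), gx_qq, gy_qq]
  have e1 : gx (fun z : ℂ => -(2 * (z.re - z0.re) / R ^ 2)) z = -(2 / R ^ 2) := by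
    unfold gx; rw [hx.fderiv]; simp
  have e2 : gy (fun z : ℂ => -(2 * (z.im - z0.im) / R ^ 2)) z = -(2 / R ^ 2) := by
    unfold gy; rw [hy.fderiv]; simp
  rw [e1, e2]
  unfold PP
  have e3 : 1 - qq z0 R z = ((z.re - z0.re) ^ 2 + (z.im - z0.im) ^ 2) / R ^ 2 := by
    unfold qq; ring
  rw [e3]
  field_simp
  ring

theorem eta_tf (z0 : ℂ) {R r : ℝ} (hR : 0 < R) (hr : R < r) : TF (ball z0 r) (eta z0 R) := by
  have hs : tsupport (eta z0 R) ⊆ closedBall z0 R := by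
    apply closure_minimal _ isClosed_closedBall
    intro z hz
    rw [Function.mem_support] at hz
    rw [mem_closedBall, dist_eq_norm]
    by_contra hcon
    push Not at hcon
    apply hz
    unfold eta
    apply expNegInvGlue.zero_of_nonpos
    rw [qq_eq]
    have : 1 ≤ ‖z - z0‖ ^ 2 / R ^ 2 := by
      rw [one_le_div (by positivity)]
      exact pow_le_pow_left₀ hR.le hcon.le 2
    linarith
  refine ⟨?_, ?_, hs.trans (closedBall_subset_ball hr)⟩
  · exact expNegInvGlue.contDiff.comp (qq_smooth z0 R)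
  · exact HasCompactSupport.of_support_subset_isCompact (isCompact_closedBall z0 R)
      ((subset_tsupport _).trans hs)

theorem eta_nonneg (z0 : ℂ) (R : ℝ) (z : ℂ) : 0 ≤ eta z0 R z := expNegInvGlue.nonneg _

end Pool.Agent.TH340.SH
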