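import Pool.Agent.TH340.SH.Ga

/-!
The chain argument: a nonzero period forces a kernel.
-/

set_option autoImplicit false

open MeasureTheory Set Filter Topology Metric

namespace Pool.Agent.TH340.SH

open Pool.Agent.Helper533.StarBox

/-- a closed chain of discs along which the local primitives gain `p` -/
structure Chain (Ω : Set ℂ) (d : Dat) (p : ℝ) where
  N : ℕ
  R : ℝ
  r : ℝ
  hr : 0 < r
  hrR : r < R
  z : ℕ → ℂ
  a : ℕ → ℂ → ℝ
  loc : ∀ k, k ≤ N → Loc Ω d (z k) R (a k)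
  step : ∀ k, k < N → Inn (z k) r ⊆ Out (z (k + 1)) r
  agree : ∀ k, k < N → ∀ w ∈ Inn (z k) r, a (k + 1) w = a k w
  close : z N = z 0
  gain : ∀ w ∈ Inn (z 0) r, a N w = a 0 w + p

variable {Ω : Set ℂ} {d : Dat}

theorem chain_contra {p : ℝ} (c : Chain Ω d p) (hp : 0 < p) :
    ∃ M : ℝ, 0 < M ∧ ∀ (g : V Ω) (κ : ℝ), 0 < κ → 0 ≤ D Ω 0 g →
      ¬ (∀ w : V Ω, inner ℝ (T Ω d 0 M g) w = κ * inner ℝ (cls (eta (c.z 0) c.r)) (D Ω 0 w)) := by
  obtain ⟨c0, C0, hc0, hC0, f1, f2⟩ := PP_lower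
  set A := (c0 + C0) / c0 with hA
  have hA1 : 1 ≤ A := by rw [hA, le_div_iff₀ hc0]; linarith
  -- choose M
  obtain ⟨M, hM0, hM⟩ : ∃ M : ℝ, 0 < M ∧ A ^ c.N * Real.exp (-(M * p)) < 1 := by
    have h1 : Tendsto (fun M : ℝ => A ^ c.N * Real.exp (-(M * p))) atTop (𝓝 (A ^ c.N * 0)) := by
      apply Tendsto.const_mul
      apply Real.tendsto_exp_atBot.comp
      apply tendsto_neg_atTop_atBot.comp
      exact tendsto_id.atTop_mul_const hp
    rw [mul_zero] at h1
    obtain ⟨M, h2, h3⟩ := ((h1.eventually (gt_mem_nhds one_pos)).and (eventually_gt_atTop 0)).exists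
    exact ⟨M, h3, h2⟩
  refine ⟨M, hM0, fun g κ hκ hg hw => ?_⟩
  set G0 := D Ω 0 g with hG0
  set m : ℕ → ℝ := fun k => mass G0 M (c.a k) (Inn (c.z k) c.r) with hm
  have hm0 : ∀ k, 0 ≤ m k := fun k => mass_nonneg hg _
  -- positivity of the right hand side
  have rhs : ∀ k, k ≤ c.N → ∀ hL : Loc Ω d (c.z k) c.R (c.a k),
      0 ≤ κ * inner ℝ (cls (eta (c.z 0) c.r)) (cls (W M (c.a k) (eta (c.z k) c.r))) := by
    intro k hk hL
    refine mul_nonneg hκ.le ?_
    have h1 := eta_tf (c.z 0) c.hr c.hrR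
    have h2 := eta_tf (c.z k) c.hr c.hrR
    have h3 := W_tf (μ := M) hL h2
    rw [inner_cls h1.memLp h3.memLp]
    refine integral_nonneg fun w => ?_
    exact mul_nonneg (eta_nonneg _ _ _) (mul_nonneg (Real.exp_nonneg _) (eta_nonneg _ _ _))
  have pair : ∀ k, k ≤ c.N →
      4 / c.r ^ 2 * (∫ z, (G0 : ℂ → ℝ) z * Real.exp (-(M * c.a k z)) * PP (qq (c.z k) c.r z)) =
        - (κ * inner ℝ (cls (eta (c.z 0) c.r)) (cls (W M (c.a k) (eta (c.z k) c.r)))) := by
    intro k hk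
    have hL := c.loc k hk
    have h2 := eta_tf (c.z k) c.hr c.hrR
    have h3 := gauge (μ := M) hL h2 g
    rw [hw, (D_jv _).1, ← hG0, pairing hL c.hr c.hrR] at h3
    linarith
  have har : ∀ k, k ≤ c.N → mass G0 M (c.a k) (Out (c.z k) c.r) ≤ A * m k := by
    intro k hk
    have hL := c.loc k hk
    have h1 := harnack (μ := M) hL c.hr c.hrR hg hc0 hC0 f1 f2
    have h2 := pair k hk
    have h3 := rhs k hk hL
    have h4 : (∫ z, (G0 : ℂ → ℝ) z * Real.exp (-(M * c.a k z)) * PP (qq (c.z k) c.r z)) ≤ 0 := by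
      have h5 : 0 < 4 / c.r ^ 2 := by have := c.hr; positivity
      by_contra hcon
      push Not at hcon
      have := mul_pos h5 hcon
      linarith
    rw [hA, div_mul_eq_mul_div, le_div_iff₀ hc0]
    show mass G0 M (c.a k) (Out (c.z k) c.r) * c0 ≤ (c0 + C0) * mass G0 M (c.a k) (Inn (c.z k) c.r)
    linarith
  have stp : ∀ k, k < c.N → m k ≤ A * m (k + 1) := by
    intro k hk
    refine le_trans ?_ (har (k + 1) hk)
    have hL := c.loc (k + 1) hk
    have e : m k = ∫ w in Inn (c.z k) c.r, (G0 : ℂ → ℝ) w * Real.exp (-(M * c.a (k + 1) w)) := by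
      show mass G0 M (c.a k) (Inn (c.z k) c.r) = _
      unfold mass
      refine setIntegral_congr_fun (Inn_meas _ _) fun w hw' => ?_
      rw [c.agree k hk w hw']
    rw [e]
    unfold mass
    refine setIntegral_mono_set ?_ ?_ (Eventually.of_forall (c.step k hk))
    · exact (mass_int (μ := M) hL c.hrR G0).mono_set (Out_sub c.hr)
    · filter_upwards [ae_restrict_of_ae ((Lp.coeFn_nonneg G0).mpr hg)] with z hz
      exact mul_nonneg hz (Real.exp_nonneg _)
  have all : ∀ k, k ≤ c.N → m 0 ≤ A ^ k * m k := by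
    intro k
    induction k with
    | zero => intro _; simp
    | succ k ih =>
      intro hk
      refine (ih (by omega)).trans ?_
      rw [pow_succ, mul_assoc]
      exact mul_le_mul_of_nonneg_left (stp k hk) (by positivity)
  have eN : m c.N = Real.exp (-(M * p)) * m 0 := by
    show mass G0 M (c.a c.N) (Inn (c.z c.N) c.r) = Real.exp (-(M * p)) * mass G0 M (c.a 0) (Inn (c.z 0) c.r)
    rw [c.close]
    unfold mass
    rw [← integral_const_mul]
    refine setIntegral_congr_fun (Inn_meas _ _) fun w hw' => ?_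
    rw [c.gain w hw', show -(M * (c.a 0 w + p)) = -(M * p) + -(M * c.a 0 w) by ring, Real.exp_add]
    ring
  have z0 : m 0 = 0 := by
    have h1 := all c.N le_rfl
    rw [eN, ← mul_assoc] at h1
    have h2 := hm0 0
    by_contra hne
    have h3 : 0 < m 0 := lt_of_le_of_ne h2 (Ne.symm hne)
    nlinarith
  -- contradiction with the source
  have hL := c.loc 0 (Nat.zero_le _)
  have h1 := pair 0 (Nat.zero_le _)
  have h2 := harnack (μ := M) hL c.hr c.hrR hg hc0 hC0 f1 f2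
  have h3 : mass G0 M (c.a 0) (Inn (c.z 0) c.r) = 0 := z0
  have h4 : 0 ≤ mass G0 M (c.a 0) (Out (c.z 0) c.r) := mass_nonneg hg _
  rw [h3, mul_zero, sub_zero] at h2
  have h5 : 0 ≤ (∫ z, (G0 : ℂ → ℝ) z * Real.exp (-(M * c.a 0 z)) * PP (qq (c.z 0) c.r z)) :=
    (mul_nonneg hc0.le h4).trans h2
  have h6 : 0 < inner ℝ (cls (eta (c.z 0) c.r)) (cls (W M (c.a 0) (eta (c.z 0) c.r))) := by
    have t1 := eta_tf (c.z 0) c.hr c.hrR
    have t3 := W_tf (μ := M) hL t1
    rw [inner_cls t1.memLp t3.memLp]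
    have hcont : Continuous (fun z => eta (c.z 0) c.r z * W M (c.a 0) (eta (c.z 0) c.r) z) :=
      t1.cont.mul t3.cont
    have hnn : 0 ≤ fun z => eta (c.z 0) c.r z * W M (c.a 0) (eta (c.z 0) c.r) z := fun w =>
      mul_nonneg (eta_nonneg _ _ _) (mul_nonneg (Real.exp_nonneg _) (eta_nonneg _ _ _))
    refine hcont.integral_pos_of_hasCompactSupport_nonneg_nonzero (x := c.z 0) ?_ hnn ?_
    · exact t1.comp.mul_right
    · have : 0 < eta (c.z 0) c.r (c.z 0) := by
        unfold eta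
        apply expNegInvGlue.pos_of_pos
        rw [qq_eq]; simp
      unfold W
      positivity
  have h7 : 0 < 4 / c.r ^ 2 := by have := c.hr; positivity
  have h8 := mul_nonneg h7.le h5
  rw [h1] at h8
  have := mul_pos hκ h6
  linarith

/-- **Existence of a kernel.** -/
theorem exists_ker {p R : ℝ} (c : Chain Ω d p) (hp : 0 < p) (hR : 0 < R) (hΩ : Ω ⊆ ball 0 R) :
    ∃ μ : ℝ, 0 < μ ∧ Ker Ω d μ := by
  obtain ⟨M, hM, hcon⟩ := chain_contra c hp
  by_contra hno
  push Not at hno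
  -- no kernel at zero
  have hz : ¬ Ker Ω d 0 := by
    rintro ⟨u, hu, h⟩
    have h1 := h u
    rw [T_inner, real_inner_self_eq_norm_sq, real_inner_self_eq_norm_sq, zero_mul, zero_mul,
      zero_pow two_ne_zero, zero_mul, add_zero, add_zero, sub_zero] at h1
    have h2 := poin hR hΩ u
    rw [h1, mul_zero] at h2
    have h3 := norm_sq u
    have h4 : ‖u‖ ^ 2 ≤ 0 := by linarith
    apply hu
    have : ‖u‖ = 0 := by nlinarith [norm_nonneg u]
    exact norm_eq_zero.mp this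
  have hk : ∀ μ ∈ Icc (0 : ℝ) M, ¬ Ker Ω d μ := by
    intro μ hμ
    rcases eq_or_lt_of_le hμ.1 with h | h
    · rw [← h]; exact hz
    · exact hno μ h
  set κ := 1 + M ^ 2 * d.K ^ 2 with hκ
  have hκ0 : 0 < κ := by positivity
  obtain ⟨R', hR', hP⟩ := pos_all (Ω := Ω) (d := d) hM.le hκ.ge hR hΩ hk
    (fun μ hμ => G_pos (by rw [abs_of_nonneg hμ.1]; exact hμ.2) hκ.ge) M ⟨hM.le, le_rfl⟩
  have hMa : |M| ≤ M := by rw [abs_of_nonneg hM.le]
  set f := cls (eta (c.z 0) c.r) with hf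
  have hf0 : 0 ≤ f := by
    rw [← Lp.coeFn_nonneg]
    filter_upwards [cls_coe (eta_tf (c.z 0) c.hr c.hrR).memLp] with z hz'
    rw [hf, hz']; exact eta_nonneg _ _ _
  set F := R' f with hF
  have hF0 : 0 ≤ F := hP f hf0
  have hFG : F - G Ω d κ M F = f := by
    have := congrArg (fun T : L2 →L[ℝ] L2 => T f) hR'.1
    exact this
  refine hcon (uu Ω d κ M F) κ hκ0 ?_ ?_
  · rw [uu_D]; exact G_pos hMa hκ.ge F hF0
  · intro w
    have h1 := uu_T (Ω := Ω) (d := d) hMa hκ.ge F w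
    rw [T_kappa, uu_D] at h1
    rw [← hFG, inner_sub_left]
    linarith

end Pool.Agent.TH340.SH
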