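import Pool.Agent.TH340.SH.Ch

/-!
From a holomorphic function with a nonzero period (real part) along a closed curve to a kernel.
-/

set_option autoImplicit false

open MeasureTheory Set Filter Topology Metric

namespace Pool.Agent.TH340.SH

open Pool.Agent.Helper533.StarBox

section
open Classical

theorem meas_ind {Ω : Set ℂ} (hΩ : IsOpen Ω) {f : ℂ → ℝ} (hf : ContinuousOn f Ω) :
    Measurable (Ω.indicator f) := by
  rw [← piecewise_eq_indicator]
  exact hf.measurable_piecewise continuousOn_const hΩ.measurableSet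

end

/-- the data of a holomorphic function -/
noncomputable def dat {Ω : Set ℂ} (hΩ : IsOpen Ω) {h1 : ℂ → ℂ} (hd : DifferentiableOn ℂ h1 Ω) {K : ℝ}
    (hK0 : 0 ≤ K) (hK : ∀ z ∈ Ω, ‖h1 z‖ ≤ K) : Dat where
  ax := Ω.indicator fun z => (h1 z).re
  ay := Ω.indicator fun z => -(h1 z).im
  q := fun z => (Ω.indicator (fun z => (h1 z).re) z) ^ 2 + (Ω.indicator (fun z => -(h1 z).im) z) ^ 2
  K := K
  hx := by
    refine ⟨meas_ind hΩ (Complex.continuous_re.comp_continuousOn hd.continuousOn), fun z => ?_⟩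
    by_cases hz : z ∈ Ω
    · rw [indicator_of_mem hz]; exact (Complex.abs_re_le_norm _).trans (hK z hz)
    · rw [indicator_of_notMem hz, abs_zero]; exact hK0
  hy := by
    refine ⟨meas_ind hΩ (Complex.continuous_im.comp_continuousOn hd.continuousOn).neg, fun z => ?_⟩
    by_cases hz : z ∈ Ω
    · rw [indicator_of_mem hz, abs_neg]; exact (Complex.abs_im_le_norm _).trans (hK z hz)
    · rw [indicator_of_notMem hz, abs_zero]; exact hK0
  hq := by
    have m1 := meas_ind hΩ (Complex.continuous_re.comp_continuousOn hd.continuousOn)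
    have m2 := meas_ind hΩ (Complex.continuous_im.comp_continuousOn hd.continuousOn).neg
    refine ⟨(m1.pow_const 2).add (m2.pow_const 2), fun z => ?_⟩
    rw [abs_of_nonneg (by positivity)]
    by_cases hz : z ∈ Ω
    · rw [indicator_of_mem hz, indicator_of_mem hz]
      have h1' : ‖h1 z‖ ^ 2 = (h1 z).re ^ 2 + (-(h1 z).im) ^ 2 := by
        rw [← Complex.normSq_eq_norm_sq, Complex.normSq_apply]; ring
      rw [← h1']
      exact pow_le_pow_left₀ (norm_nonneg _) (hK z hz) 2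
    · rw [indicator_of_notMem hz, indicator_of_notMem hz]
      have : (0 : ℝ) ≤ K ^ 2 := by positivity
      simpa using this

variable {Ω : Set ℂ} {h1 : ℂ → ℂ} {K : ℝ}

theorem fderiv_re {H : ℂ → ℂ} {w z c : ℂ} (hH : HasDerivAt H w z) :
    HasFDerivAt (fun z => (c + H z).re)
      (Complex.reCLM.comp ((ContinuousLinearMap.toSpanSingleton ℂ w : ℂ →L[ℂ] ℂ).restrictScalars ℝ)) z := by
  have h := (hH.const_add c).hasFDerivAt.restrictScalars ℝ
  exact Complex.reCLM.hasFDerivAt.comp z h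

theorem loc_of_prim (hΩ : IsOpen Ω) (hd : DifferentiableOn ℂ h1 Ω) (hK0 : 0 ≤ K)
    (hK : ∀ z ∈ Ω, ‖h1 z‖ ≤ K) {z0 c : ℂ} {R : ℝ} (hs : ball z0 R ⊆ Ω) {H : ℂ → ℂ}
    (hH : ∀ z ∈ ball z0 R, HasDerivAt H (h1 z) z) :
    Loc Ω (dat hΩ hd hK0 hK) z0 R (fun z => (c + H z).re) := by
  refine ⟨hs, ?_, ?_, ?_, ?_⟩
  · intro z hz
    have hdH : DifferentiableOn ℂ H (ball z0 R) := fun w hw => (hH w hw).differentiableAt.differentiableWithinAt
    have ha : AnalyticAt ℂ H z := hdH.analyticAt (isOpen_ball.mem_nhds hz)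
    have hc : ContDiffAt ℝ (⊤ : ℕ∞) H z := ha.contDiffAt.restrict_scalars ℝ
    exact Complex.reCLM.contDiff.contDiffAt.comp z (contDiffAt_const.add hc)
  · intro z hz
    unfold gx
    rw [(fderiv_re (hH z hz)).fderiv]
    show _ = Ω.indicator (fun z => (h1 z).re) z
    rw [indicator_of_mem (hs hz)]
    simp
  · intro z hz
    unfold gy
    rw [(fderiv_re (hH z hz)).fderiv]
    show _ = Ω.indicator (fun z => -(h1 z).im) z
    rw [indicator_of_mem (hs hz)]
    simp
  · intro z _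
    rfl

theorem chain_of_curve (hΩ : IsOpen Ω) (hd : DifferentiableOn ℂ h1 Ω) (hK0 : 0 ≤ K)
    (hK : ∀ z ∈ Ω, ‖h1 z‖ ≤ K) {γ γ' : ℝ → ℂ} (hγ : ∀ t ∈ Icc (0 : ℝ) 1, HasDerivAt γ (γ' t) t)
    (hγ' : ContinuousOn γ' (Icc 0 1)) (hγΩ : ∀ t ∈ Icc (0 : ℝ) 1, γ t ∈ Ω) (hcl : γ 0 = γ 1) :
    Nonempty (Chain Ω (dat hΩ hd hK0 hK) (∫ t in (0 : ℝ)..1, h1 (γ t) * γ' t).re) := by
  have hγc : ContinuousOn γ (Icc 0 1) := fun t ht => (hγ t ht).continuousAt.continuousWithinAt
  have hcomp : IsCompact (γ '' Icc 0 1) := isCompact_Icc.image_of_continuousOn hγc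
  obtain ⟨R, hR, hRΩ⟩ := hcomp.exists_thickening_subset_open hΩ (by
    rintro _ ⟨t, ht, rfl⟩; exact hγΩ t ht)
  have hball : ∀ t ∈ Icc (0 : ℝ) 1, ball (γ t) R ⊆ Ω := fun t ht =>
    (ball_subset_thickening (mem_image_of_mem γ ht) R).trans hRΩ
  set r := R / 2 with hr
  have hr0 : 0 < r := by positivity
  -- primitives
  have hprim : ∀ z0 : ℂ, ∃ H : ℂ → ℂ, ball z0 R ⊆ Ω → ∀ z ∈ ball z0 R, HasDerivAt H (h1 z) z := by
    intro z0
    by_cases hb : ball z0 R ⊆ Ω
    · obtain ⟨H, hH⟩ := (hd.mono hb).isExactOn_ball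
      exact ⟨H, fun _ => hH⟩
    · exact ⟨0, fun h => absurd h hb⟩
  choose H hH using hprim
  -- partition
  have huc := isCompact_Icc.uniformContinuousOn_of_continuous hγc
  rw [Metric.uniformContinuousOn_iff] at huc
  obtain ⟨δ, hδ, hδγ⟩ := huc (r / 10) (by positivity)
  obtain ⟨N, hN⟩ := exists_nat_gt (1 / δ)
  have hN0 : (0 : ℝ) < N := (by positivity : (0 : ℝ) < 1 / δ).trans hN
  have hNδ : 1 / (N : ℝ) < δ := by
    rw [div_lt_iff₀ hN0]
    rw [div_lt_iff₀ hδ] at hN
    linarith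
  set tt : ℕ → ℝ := fun k => k / N with htt
  have htm : ∀ k, k ≤ N → tt k ∈ Icc (0 : ℝ) 1 := by
    intro k hk
    refine ⟨by positivity, ?_⟩
    show (k : ℝ) / N ≤ 1
    rw [div_le_one hN0]; exact_mod_cast hk
  have htd : ∀ k, tt (k + 1) = tt k + 1 / N := by
    intro k
    show ((k + 1 : ℕ) : ℝ) / N = (k : ℝ) / N + 1 / N
    push_cast; ring
  have hclose : ∀ k, k < N → ∀ t ∈ Icc (tt k) (tt (k + 1)), t ∈ Icc (0 : ℝ) 1 ∧ ‖γ t - γ (tt k)‖ < r / 10 := by
    intro k hk t ht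
    have h0 := htm k hk.le
    have h1 := htm (k + 1) hk
    have ht' : t ∈ Icc (0 : ℝ) 1 := ⟨h0.1.trans ht.1, ht.2.trans h1.2⟩
    refine ⟨ht', ?_⟩
    have := hδγ t ht' (tt k) h0 (by
      rw [Real.dist_eq, abs_of_nonneg (by linarith [ht.1])]
      have := ht.2
      rw [htd] at this
      linarith)
    rw [dist_eq_norm] at this
    exact this
  set zz : ℕ → ℂ := fun k => γ (tt k) with hzz
  have hzb : ∀ k, k ≤ N → ball (zz k) R ⊆ Ω := fun k hk => hball _ (htm k hk)
  have hle : ∀ k, tt k ≤ tt (k + 1) := fun k => by rw [htd]; have := (by positivity : 0 < 1 / (N : ℝ)); linarith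
  have hstep : ∀ k, k < N → ‖zz (k + 1) - zz k‖ < r / 10 := fun k hk =>
    (hclose k hk (tt (k + 1)) ⟨hle k, le_rfl⟩).2
  -- increments
  have hinc : ∀ k, k < N → ∫ t in (tt k)..(tt (k + 1)), h1 (γ t) * γ' t = H (zz k) (zz (k + 1)) - H (zz k) (zz k) := by
    intro k hk
    have hu : uIcc (tt k) (tt (k + 1)) = Icc (tt k) (tt (k + 1)) := uIcc_of_le (hle k)
    have hb : ∀ t ∈ Icc (tt k) (tt (k + 1)), γ t ∈ ball (zz k) R := by
      intro t ht
      rw [mem_ball, dist_eq_norm]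
      have := (hclose k hk t ht).2
      have h2 : r / 10 < R := by rw [hr]; linarith
      exact this.trans h2
    refine intervalIntegral.integral_eq_sub_of_hasDerivAt (f := fun t => H (zz k) (γ t)) ?_ ?_
    · intro t ht
      rw [hu] at ht
      have e1 := hH (zz k) (hzb k hk.le) (γ t) (hb t ht)
      exact e1.comp t (hγ t (hclose k hk t ht).1)
    · apply ContinuousOn.intervalIntegrable
      rw [hu]
      have hsub : Icc (tt k) (tt (k + 1)) ⊆ Icc 0 1 := fun t ht => (hclose k hk t ht).1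
      refine ContinuousOn.mul ?_ (hγ'.mono hsub)
      exact hd.continuousOn.comp (hγc.mono hsub) fun t ht => hγΩ t (hsub ht)
  set A : ℕ → ℂ := fun k => ∑ j ∈ Finset.range k, (H (zz j) (zz (j + 1)) - H (zz j) (zz j)) with hA
  have hAN : A N = ∫ t in (0 : ℝ)..1, h1 (γ t) * γ' t := by
    have e1 : A N = ∑ j ∈ Finset.range N, ∫ t in (tt j)..(tt (j + 1)), h1 (γ t) * γ' t := by
      refine Finset.sum_congr rfl fun j hj => ?_
      rw [hinc j (Finset.mem_range.mp hj)]
    rw [e1, intervalIntegral.sum_integral_adjacent_intervals]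
    · have h0 : tt 0 = 0 := by show ((0 : ℕ) : ℝ) / N = 0; simp
      have h1' : tt N = 1 := by show (N : ℝ) / N = 1; exact div_self hN0.ne'
      rw [h0, h1']
    · intro k hk
      apply ContinuousOn.intervalIntegrable
      rw [uIcc_of_le (hle k)]
      have hsub : Icc (tt k) (tt (k + 1)) ⊆ Icc 0 1 := fun t ht => (hclose k hk t ht).1
      refine ContinuousOn.mul ?_ (hγ'.mono hsub)
      exact hd.continuousOn.comp (hγc.mono hsub) fun t ht => hγΩ t (hsub ht)
  have hzN : zz N = zz 0 := by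
    have h0 : tt 0 = 0 := by show ((0 : ℕ) : ℝ) / N = 0; simp
    have h1' : tt N = 1 := by show (N : ℝ) / N = 1; exact div_self hN0.ne'
    show γ (tt N) = γ (tt 0)
    rw [h0, h1', hcl]
  -- small discs
  have hinn : ∀ k, ∀ w ∈ Inn (zz k) r, ‖w - zz k‖ < 84 / 100 * r := by
    intro k w hw
    have h : ‖w - zz k‖ ^ 2 < 7 / 10 * r ^ 2 := hw
    nlinarith [norm_nonneg (w - zz k)]
  have hinn2 : ∀ k, k < N → ∀ w ∈ Inn (zz k) r, ‖w - zz (k + 1)‖ < 94 / 100 * r := by
    intro k hk w hw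
    have e : w - zz (k + 1) = (w - zz k) - (zz (k + 1) - zz k) := by ring
    rw [e]
    have h2 := norm_sub_le (w - zz k) (zz (k + 1) - zz k)
    have h3 := hinn k w hw
    have h4 := hstep k hk
    linarith
  refine ⟨{ N := N, R := R, r := r, hr := hr0, hrR := by rw [hr]; linarith, z := zz
            a := fun k z => ((A k - H (zz k) (zz k)) + H (zz k) z).re
            loc := fun k hk => loc_of_prim hΩ hd hK0 hK (hzb k hk) (hH (zz k) (hzb k hk))
            step := ?_, agree := ?_, close := hzN, gain := ?_ }⟩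
  · intro k hk w hw
    show ‖w - zz (k + 1)‖ ^ 2 ≤ 9 / 10 * r ^ 2
    have := hinn2 k hk w hw
    nlinarith [norm_nonneg (w - zz (k + 1))]
  · intro k hk w hw
    -- both primitives on the intersection
    set I := ball (zz k) R ∩ ball (zz (k + 1)) R with hI
    have hIc : Convex ℝ I := (convex_ball _ _).inter (convex_ball _ _)
    have hIo : IsOpen I := isOpen_ball.inter isOpen_ball
    have hwI : w ∈ I := by
      constructor
      · rw [mem_ball, dist_eq_norm]; have := hinn k w hw; rw [hr] at this; linarith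
      · rw [mem_ball, dist_eq_norm]; have := hinn2 k hk w hw; rw [hr] at this; linarith
    have hzI : zz (k + 1) ∈ I := by
      constructor
      · rw [mem_ball, dist_eq_norm]; have := hstep k hk; rw [hr] at this; linarith
      · exact mem_ball_self hR
    have hdiff : ∀ z ∈ I, HasDerivAt (fun z => H (zz (k + 1)) z - H (zz k) z) 0 z := by
      intro z hz
      have e1 := hH (zz k) (hzb k hk.le) z hz.1
      have e2 := hH (zz (k + 1)) (hzb (k + 1) hk) z hz.2
      have := e2.sub e1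
      rwa [sub_self] at this
    have hconst : H (zz (k + 1)) w - H (zz k) w = H (zz (k + 1)) (zz (k + 1)) - H (zz k) (zz (k + 1)) := by
      refine hIo.is_const_of_deriv_eq_zero hIc.isPreconnected
        (fun z hz => (hdiff z hz).differentiableAt.differentiableWithinAt) (fun z hz => (hdiff z hz).deriv) hwI hzI
    have e : (A (k + 1) - H (zz (k + 1)) (zz (k + 1))) + H (zz (k + 1)) w =
        (A k - H (zz k) (zz k)) + H (zz k) w := by
      have hs : A (k + 1) = A k + (H (zz k) (zz (k + 1)) - H (zz k) (zz k)) := by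
        rw [hA]; exact Finset.sum_range_succ _ _
      rw [hs]
      linear_combination hconst
    show ((A (k + 1) - H (zz (k + 1)) (zz (k + 1))) + H (zz (k + 1)) w).re = _
    rw [e]
  · intro w _
    show ((A N - H (zz N) (zz N)) + H (zz N) w).re = ((A 0 - H (zz 0) (zz 0)) + H (zz 0) w).re + _
    have hA0 : A 0 = 0 := by rw [hA]; simp
    rw [hzN, hAN, hA0]
    simp only [Complex.add_re, Complex.sub_re, Complex.zero_re]
    ring

/-- **A nonzero (real part of a) period gives a kernel.** -/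
theorem ker_of_curve (hΩ : IsOpen Ω) {R : ℝ} (hR : 0 < R) (hΩR : Ω ⊆ ball 0 R)
    (hd : DifferentiableOn ℂ h1 Ω) (hK0 : 0 ≤ K)
    (hK : ∀ z ∈ Ω, ‖h1 z‖ ≤ K) {γ γ' : ℝ → ℂ} (hγ : ∀ t ∈ Icc (0 : ℝ) 1, HasDerivAt γ (γ' t) t)
    (hγ' : ContinuousOn γ' (Icc 0 1)) (hγΩ : ∀ t ∈ Icc (0 : ℝ) 1, γ t ∈ Ω) (hcl : γ 0 = γ 1)
    (hp : 0 < (∫ t in (0 : ℝ)..1, h1 (γ t) * γ' t).re) :
    ∃ μ : ℝ, 0 < μ ∧ Ker Ω (dat hΩ hd hK0 hK) μ := by
  obtain ⟨c⟩ := chain_of_curve hΩ hd hK0 hK hγ hγ' hγΩ hcl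
  exact exists_ker c hp hR hΩR

end Pool.Agent.TH340.SH
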