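import Pool.Agent.TH340.SH.Cu

/-!
Complex test functions; a holomorphic function is orthogonal to `∂̄` of test functions.
-/

set_option autoImplicit false

open MeasureTheory Set Filter Topology Metric

namespace Pool.Agent.TH340.SH

open Pool.Agent.Helper533.StarBox

/-- complex test functions -/
structure CT (Ω : Set ℂ) (χ : ℂ → ℂ) : Prop where
  smooth : ContDiff ℝ (⊤ : ℕ∞) χ
  comp : HasCompactSupport χ
  supp : tsupport χ ⊆ Ω

variable {Ω : Set ℂ} {χ : ℂ → ℂ}

theorem CT.diff (h : CT Ω χ) : Differentiable ℝ χ := h.smooth.differentiable (by simp)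

theorem tsupport_sub_c {f : ℂ → ℝ} (h : ∀ z, χ z = 0 → f z = 0) : tsupport f ⊆ tsupport χ := by
  refine closure_minimal ?_ (isClosed_tsupport _)
  intro z hz
  by_contra hcon
  exact hz (h z (image_eq_zero_of_notMem_tsupport hcon))

theorem CT.re (h : CT Ω χ) : TF Ω (fun z => (χ z).re) := by
  have hs : tsupport (fun z => (χ z).re) ⊆ tsupport χ := tsupport_sub_c fun z hz => by rw [hz]; rfl
  exact ⟨Complex.reCLM.contDiff.comp h.smooth, h.comp.of_isClosed_subset (isClosed_tsupport _) hs,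
    hs.trans h.supp⟩

theorem CT.im (h : CT Ω χ) : TF Ω (fun z => (χ z).im) := by
  have hs : tsupport (fun z => (χ z).im) ⊆ tsupport χ := tsupport_sub_c fun z hz => by rw [hz]; rfl
  exact ⟨Complex.imCLM.contDiff.comp h.smooth, h.comp.of_isClosed_subset (isClosed_tsupport _) hs,
    hs.trans h.supp⟩

theorem fderiv_re' {z : ℂ} (hd : DifferentiableAt ℝ χ z) (v : ℂ) :
    fderiv ℝ (fun z => (χ z).re) z v = (fderiv ℝ χ z v).re := by
  have h := Complex.reCLM.hasFDerivAt.comp z hd.hasFDerivAt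
  have h' : HasFDerivAt (fun z => (χ z).re) (Complex.reCLM.comp (fderiv ℝ χ z)) z := h
  rw [h'.fderiv]; rfl

theorem fderiv_im' {z : ℂ} (hd : DifferentiableAt ℝ χ z) (v : ℂ) :
    fderiv ℝ (fun z => (χ z).im) z v = (fderiv ℝ χ z v).im := by
  have h := Complex.imCLM.hasFDerivAt.comp z hd.hasFDerivAt
  have h' : HasFDerivAt (fun z => (χ z).im) (Complex.imCLM.comp (fderiv ℝ χ z)) z := h
  rw [h'.fderiv]; rfl

theorem cont_mul_supp {F θ : ℂ → ℂ} (hF : ∀ z ∈ Ω, ContinuousAt F z) (hθ : Continuous θ)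
    (hs : tsupport θ ⊆ Ω) : Continuous (fun z => F z * θ z) := by
  rw [continuous_iff_continuousAt]
  intro z
  by_cases hz : z ∈ tsupport θ
  · exact (hF z (hs hz)).mul hθ.continuousAt
  · have h0 : θ =ᶠ[𝓝 z] 0 := notMem_tsupport_iff_eventuallyEq.mp hz
    have h1 : (fun z => F z * θ z) =ᶠ[𝓝 z] fun _ => 0 := by
      filter_upwards [h0] with w hw
      rw [hw]; simp
    exact continuousAt_const.congr h1.symm

theorem int_mul_supp {F θ : ℂ → ℂ} (hF : ∀ z ∈ Ω, ContinuousAt F z) (hθ : Continuous θ)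
    (hc : HasCompactSupport θ) (hs : tsupport θ ⊆ Ω) : Integrable (fun z => F z * θ z) :=
  (cont_mul_supp hF hθ hs).integrable_of_hasCompactSupport (hc.mul_left)

theorem CT.fd (h : CT Ω χ) (v : ℂ) : Continuous (fun z => fderiv ℝ χ z v) ∧
    HasCompactSupport (fun z => fderiv ℝ χ z v) ∧ tsupport (fun z => fderiv ℝ χ z v) ⊆ Ω := by
  refine ⟨(h.smooth.continuous_fderiv (by simp)).clm_apply continuous_const, h.comp.fderiv_apply ℝ v,
    (tsupport_fderiv_apply_subset ℝ v).trans h.supp⟩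

theorem hol_orth (hΩ : IsOpen Ω) {G : ℂ → ℂ} (hG : DifferentiableOn ℂ G Ω) (h : CT Ω χ) :
    ∫ z, G z * (fderiv ℝ χ z 1 + Complex.I * fderiv ℝ χ z Complex.I) = 0 := by
  have hGa : ∀ z ∈ Ω, HasDerivAt G (deriv G z) z := fun z hz =>
    (hG.differentiableAt (hΩ.mem_nhds hz)).hasDerivAt
  have hGc : ∀ z ∈ Ω, ContinuousAt G z := fun z hz => (hGa z hz).continuousAt
  have hG'c : ∀ z ∈ Ω, ContinuousAt (deriv G) z := fun z hz =>
    ((hG.deriv hΩ).differentiableAt (hΩ.mem_nhds hz)).continuousAt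
  have hfd : ∀ z ∈ Ω, ∀ v : ℂ, fderiv ℝ G z v = v * deriv G z := by
    intro z hz v
    have h1 := (hGa z hz).hasFDerivAt.restrictScalars ℝ
    rw [h1.fderiv]
    simp
  have hcχ : Continuous χ := h.smooth.continuous
  have key : ∀ v : ℂ, ∫ z, G z * fderiv ℝ χ z v = - (v * ∫ z, deriv G z * χ z) := by
    intro v
    obtain ⟨c1, c2, c3⟩ := h.fd v
    have e0 : ∀ z, fderiv ℝ G z v * χ z = v * (deriv G z * χ z) := by
      intro z
      by_cases hz : z ∈ tsupport χ
      · rw [hfd z (h.supp hz)]; ring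
      · rw [image_eq_zero_of_notMem_tsupport hz]; ring
    have i1 : Integrable (fun z => fderiv ℝ G z v * χ z) := by
      simp_rw [e0]
      exact (int_mul_supp hG'c hcχ h.comp h.supp).const_mul v
    have := integral_mul_fderiv_eq_neg_fderiv_mul_of_integrable (f := G) (g := χ) (v := v)
      (μ := (volume : Measure ℂ)) i1 (int_mul_supp hGc c1 c2 c3) (int_mul_supp hGc hcχ h.comp h.supp)
      (fun x hx => ((hGa x (h.supp hx)).differentiableAt.restrictScalars ℝ)) (fun x _ => h.diff x)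
    rw [this]
    simp_rw [e0]
    rw [integral_const_mul]
  have i1 : Integrable (fun z => G z * fderiv ℝ χ z 1) :=
    int_mul_supp hGc (h.fd 1).1 (h.fd 1).2.1 (h.fd 1).2.2
  have i2 : Integrable (fun z => G z * fderiv ℝ χ z Complex.I) :=
    int_mul_supp hGc (h.fd Complex.I).1 (h.fd Complex.I).2.1 (h.fd Complex.I).2.2
  have e : ∀ z, G z * (fderiv ℝ χ z 1 + Complex.I * fderiv ℝ χ z Complex.I) =
      G z * fderiv ℝ χ z 1 + Complex.I * (G z * fderiv ℝ χ z Complex.I) := fun z => by ring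
  simp_rw [e]
  rw [integral_add i1 (i2.const_mul _), integral_const_mul, key, key]
  have hI := Complex.I_mul_I
  linear_combination (-(∫ z, deriv G z * χ z)) * hI

/-- real test functions as complex ones -/
theorem CT.of_real {θ : ℂ → ℝ} (h : TF Ω θ) : CT Ω (fun z => (θ z : ℂ)) := by
  have hs : tsupport (fun z => (θ z : ℂ)) ⊆ tsupport θ := by
    refine closure_minimal ?_ (isClosed_tsupport _)
    intro z hz
    by_contra hcon
    apply hz
    show ((θ z : ℝ) : ℂ) = 0
    rw [image_eq_zero_of_notMem_tsupport hcon]; rfl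
  exact ⟨Complex.ofRealCLM.contDiff.comp h.smooth, h.comp.of_isClosed_subset (isClosed_tsupport _) hs,
    hs.trans h.supp⟩

theorem fderiv_ofReal {θ : ℂ → ℝ} {z : ℂ} (hd : DifferentiableAt ℝ θ z) (v : ℂ) :
    fderiv ℝ (fun z => (θ z : ℂ)) z v = ((fderiv ℝ θ z v : ℝ) : ℂ) := by
  have h := Complex.ofRealCLM.hasFDerivAt.comp z hd.hasFDerivAt
  have h' : HasFDerivAt (fun z => (θ z : ℂ)) (Complex.ofRealCLM.comp (fderiv ℝ θ z)) z := h
  rw [h'.fderiv]; rfl

variable {h1 : ℂ → ℂ} {K : ℝ}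

/-- the drift is divergence free and curl free -/
theorem drift (hΩ : IsOpen Ω) (hd : DifferentiableOn ℂ h1 Ω) (hK0 : 0 ≤ K)
    (hK : ∀ z ∈ Ω, ‖h1 z‖ ≤ K) {θ : ℂ → ℝ} (hθ : TF Ω θ) :
    ∫ z, ((dat hΩ hd hK0 hK).ax z * gx θ z + (dat hΩ hd hK0 hK).ay z * gy θ z) = 0 ∧
    ∫ z, ((dat hΩ hd hK0 hK).ay z * gx θ z - (dat hΩ hd hK0 hK).ax z * gy θ z) = 0 := by
  have h := hol_orth hΩ hd (CT.of_real hθ)
  have e : ∀ z, h1 z * (fderiv ℝ (fun z => (θ z : ℂ)) z 1 + Complex.I * fderiv ℝ (fun z => (θ z : ℂ)) z Complex.I)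
      = (((dat hΩ hd hK0 hK).ax z * gx θ z + (dat hΩ hd hK0 hK).ay z * gy θ z : ℝ) : ℂ)
        - Complex.I * (((dat hΩ hd hK0 hK).ay z * gx θ z - (dat hΩ hd hK0 hK).ax z * gy θ z : ℝ) : ℂ) := by
    intro z
    rw [fderiv_ofReal (hθ.diff z), fderiv_ofReal (hθ.diff z)]
    by_cases hz : z ∈ Ω
    · show h1 z * (((gx θ z : ℝ) : ℂ) + Complex.I * ((gy θ z : ℝ) : ℂ)) =
        (((Ω.indicator (fun z => (h1 z).re) z * gx θ z + Ω.indicator (fun z => -(h1 z).im) z * gy θ z : ℝ)) : ℂ)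
        - Complex.I * ((Ω.indicator (fun z => -(h1 z).im) z * gx θ z - Ω.indicator (fun z => (h1 z).re) z * gy θ z : ℝ) : ℂ)
      rw [indicator_of_mem hz, indicator_of_mem hz]
      apply Complex.ext <;> simp <;> ring
    · have hz' : z ∉ tsupport θ := fun h => hz (hθ.supp h)
      have g1 : gx θ z = 0 := TF.gx_zero hz'
      have g2 : gy θ z = 0 := TF.gy_zero hz'
      show h1 z * (((gx θ z : ℝ) : ℂ) + Complex.I * ((gy θ z : ℝ) : ℂ)) = _
      rw [g1, g2]; simp
  simp_rw [e] at h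
  have m1 : Integrable (fun z => (dat hΩ hd hK0 hK).ax z * gx θ z + (dat hΩ hd hK0 hK).ay z * gy θ z) := by
    have a1 : Integrable (gx θ) := hθ.gx_cont.integrable_of_hasCompactSupport hθ.gx_comp
    have a2 : Integrable (gy θ) := hθ.gy_cont.integrable_of_hasCompactSupport hθ.gy_comp
    refine Integrable.add ?_ ?_
    · exact a1.bdd_mul (c := K) (dat hΩ hd hK0 hK).hx.meas.aestronglyMeasurable
        (Eventually.of_forall fun z => (dat hΩ hd hK0 hK).hx.bd z)
    · exact a2.bdd_mul (c := K) (dat hΩ hd hK0 hK).hy.meas.aestronglyMeasurable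
        (Eventually.of_forall fun z => (dat hΩ hd hK0 hK).hy.bd z)
  have m2 : Integrable (fun z => (dat hΩ hd hK0 hK).ay z * gx θ z - (dat hΩ hd hK0 hK).ax z * gy θ z) := by
    have a1 : Integrable (gx θ) := hθ.gx_cont.integrable_of_hasCompactSupport hθ.gx_comp
    have a2 : Integrable (gy θ) := hθ.gy_cont.integrable_of_hasCompactSupport hθ.gy_comp
    refine Integrable.sub ?_ ?_
    · exact a1.bdd_mul (c := K) (dat hΩ hd hK0 hK).hy.meas.aestronglyMeasurable
        (Eventually.of_forall fun z => (dat hΩ hd hK0 hK).hy.bd z)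
    · exact a2.bdd_mul (c := K) (dat hΩ hd hK0 hK).hx.meas.aestronglyMeasurable
        (Eventually.of_forall fun z => (dat hΩ hd hK0 hK).hx.bd z)
  rw [integral_sub m1.ofReal (m2.ofReal.const_mul _), integral_const_mul, integral_complex_ofReal, integral_complex_ofReal] at h
  constructor
  · have := congrArg Complex.re h
    simpa using this
  · have := congrArg Complex.im h
    simpa using this

end Pool.Agent.TH340.SH
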