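import Pool.Agent.TH340.SH.Fi

/-!
The form in factored shape, the vanishing cross term, and consequences for kernel elements.
-/

set_option autoImplicit false

open MeasureTheory Set Filter Topology Metric

namespace Pool.Agent.TH340.SH

open Pool.Agent.Helper533.StarBox

theorem inner_int (f g : L2) : inner ℝ f g = ∫ z, (f : ℂ → ℝ) z * (g : ℂ → ℝ) z := by
  rw [← inner_cls (Lp.memLp f) (Lp.memLp g), cls_self, cls_self]

theorem inner_int' (f : L2) {g : ℂ → ℝ} (hg : MemLp g 2 (volume : Measure ℂ)) :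
    inner ℝ f (cls g) = ∫ z, (f : ℂ → ℝ) z * g z := by
  rw [← inner_cls (Lp.memLp f) hg, cls_self]

theorem mulOp_coe {m : ℂ → ℝ} {K : ℝ} (h : Bd m K) (f : L2) :
    (mulOp h f : ℂ → ℝ) =ᵐ[volume] fun z => m z * (f : ℂ → ℝ) z :=
  cls_coe (h.memLp (Lp.memLp f))

theorem mul_sa {m : ℂ → ℝ} {K : ℝ} (h : Bd m K) (f g : L2) :
    inner ℝ (mulOp h f) g = inner ℝ f (mulOp h g) := by
  rw [inner_int, inner_int]
  apply integral_congr_ae
  filter_upwards [mulOp_coe h f, mulOp_coe h g] with z h1 h2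
  rw [h1, h2]; ring

theorem mul_comm' {m m' : ℂ → ℝ} {K K' : ℝ} (h : Bd m K) (h' : Bd m' K') (f g : L2) :
    inner ℝ (mulOp h f) (mulOp h' g) = inner ℝ (mulOp h' f) (mulOp h g) := by
  rw [inner_int, inner_int]
  apply integral_congr_ae
  filter_upwards [mulOp_coe h f, mulOp_coe h g, mulOp_coe h' f, mulOp_coe h' g] with z h1 h2 h3 h4
  rw [h1, h2, h3, h4]; ring

variable (Ω : Set ℂ) (d : Dat)

noncomputable def Pa (μ : ℝ) : V Ω →L[ℝ] L2 := D Ω 1 - μ • (mulOp d.hx).comp (D Ω 0)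
noncomputable def Pb (μ : ℝ) : V Ω →L[ℝ] L2 := D Ω 2 - μ • (mulOp d.hy).comp (D Ω 0)
noncomputable def Qa (μ : ℝ) : V Ω →L[ℝ] L2 := D Ω 1 + μ • (mulOp d.hx).comp (D Ω 0)
noncomputable def Qb (μ : ℝ) : V Ω →L[ℝ] L2 := D Ω 2 + μ • (mulOp d.hy).comp (D Ω 0)

variable {Ω d}

theorem form_B (hq : ∀ z, d.q z = d.ax z ^ 2 + d.ay z ^ 2) (μ : ℝ) (v w : V Ω) :
    inner ℝ (T Ω d 0 μ v) w = inner ℝ (Pa Ω d μ v) (Qa Ω d μ w) + inner ℝ (Pb Ω d μ v) (Qb Ω d μ w) := by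
  have hs : ∀ (c : ℝ) (x y : L2), inner ℝ (c • x) y = c * inner ℝ x y :=
    fun c x y => real_inner_smul_left x y c
  have hs' : ∀ (c : ℝ) (x y : L2), inner ℝ x (c • y) = c * inner ℝ x y :=
    fun c x y => real_inner_smul_right x y c
  have e1 : Z Ω d v = mulOp d.hx (D Ω 1 v) + mulOp d.hy (D Ω 2 v) := rfl
  have e2 : Z Ω d w = mulOp d.hx (D Ω 1 w) + mulOp d.hy (D Ω 2 w) := rfl
  have e3 : Pa Ω d μ v = D Ω 1 v - μ • mulOp d.hx (D Ω 0 v) := rfl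
  have e4 : Pb Ω d μ v = D Ω 2 v - μ • mulOp d.hy (D Ω 0 v) := rfl
  have e5 : Qa Ω d μ w = D Ω 1 w + μ • mulOp d.hx (D Ω 0 w) := rfl
  have e6 : Qb Ω d μ w = D Ω 2 w + μ • mulOp d.hy (D Ω 0 w) := rfl
  have e7 : inner ℝ (mulOp d.hq (D Ω 0 v)) (D Ω 0 w) =
      inner ℝ (mulOp d.hx (D Ω 0 v)) (mulOp d.hx (D Ω 0 w))
      + inner ℝ (mulOp d.hy (D Ω 0 v)) (mulOp d.hy (D Ω 0 w)) := by
    rw [inner_int, inner_int, inner_int, ← integral_add]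
    · apply integral_congr_ae
      filter_upwards [mulOp_coe d.hq (D Ω 0 v), mulOp_coe d.hx (D Ω 0 v), mulOp_coe d.hx (D Ω 0 w),
        mulOp_coe d.hy (D Ω 0 v), mulOp_coe d.hy (D Ω 0 w)] with z h1 h2 h3 h4 h5
      rw [h1, h2, h3, h4, h5, hq]; ring
    · exact int_mul (Lp.memLp _) (Lp.memLp _)
    · exact int_mul (Lp.memLp _) (Lp.memLp _)
  rw [T_inner, e1, e2, e3, e4, e5, e6, e7]
  simp only [inner_add_left, inner_add_right, inner_sub_left, hs, hs']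
  rw [mul_sa d.hx (D Ω 1 v), mul_sa d.hy (D Ω 2 v), ← mul_sa d.hx (D Ω 0 v) (D Ω 1 w),
    ← mul_sa d.hy (D Ω 0 v) (D Ω 2 w)]
  ring

theorem gx_gy {φ : ℂ → ℝ} (hφ : TF Ω φ) (z : ℂ) : gx (gy φ) z = gy (gx φ) z := by
  have hd : DifferentiableAt ℝ (fderiv ℝ φ) z :=
    ((hφ.smooth.fderiv_right (m := 1) (by norm_cast)).differentiable (by simp)) z
  have hsym : IsSymmSndFDerivAt ℝ φ z :=
    (hφ.smooth.contDiffAt).isSymmSndFDerivAt (by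
      rw [minSmoothness_of_isRCLikeNormedField]; exact WithTop.coe_le_coe.mpr (le_top : (2 : ℕ∞) ≤ ⊤))
  have e1 : gx (gy φ) z = fderiv ℝ (fderiv ℝ φ) z 1 Complex.I := by
    show fderiv ℝ (fun z => fderiv ℝ φ z Complex.I) z 1 = _
    rw [fderiv_clm_apply hd (differentiableAt_const _)]
    simp
  have e2 : gy (gx φ) z = fderiv ℝ (fderiv ℝ φ) z Complex.I 1 := by
    show fderiv ℝ (fun z => fderiv ℝ φ z 1) z Complex.I = _
    rw [fderiv_clm_apply hd (differentiableAt_const _)]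
    simp
  rw [e1, e2]
  exact hsym.eq 1 Complex.I

theorem curl_test {φ ψ : ℂ → ℝ} (hφ : TF Ω φ) (hψ : TF Ω ψ) :
    ∫ z, gx φ z * gy ψ z = ∫ z, gy φ z * gx ψ z := by
  rw [ibpx hφ hψ.gy_tf, ibpy hφ hψ.gx_tf]
  congr 2
  funext z
  rw [gx_gy hψ]

/-- divergence and curl hypotheses on the drift -/
structure Free (Ω : Set ℂ) (d : Dat) : Prop where
  hq : ∀ z, d.q z = d.ax z ^ 2 + d.ay z ^ 2
  dv : ∀ θ : ℂ → ℝ, TF Ω θ → ∫ z, (d.ax z * gx θ z + d.ay z * gy θ z) = 0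
  cu : ∀ θ : ℂ → ℝ, TF Ω θ → ∫ z, (d.ay z * gx θ z - d.ax z * gy θ z) = 0

theorem tf_mul {φ ψ : ℂ → ℝ} (hφ : TF Ω φ) (hψ : TF Ω ψ) : TF Ω (fun z => φ z * ψ z) :=
  hψ.mul_smooth hφ.smooth

theorem cross (hF : Free Ω d) (μ : ℝ) (v w : V Ω) :
    inner ℝ (Pa Ω d μ v) (Qb Ω d μ w) = inner ℝ (Pb Ω d μ v) (Qa Ω d μ w) := by
  refine dense_ind (p := fun v : V Ω => inner ℝ (Pa Ω d μ v) (Qb Ω d μ w) =
    inner ℝ (Pb Ω d μ v) (Qa Ω d μ w)) ?_ ?_ v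
  · exact isClosed_eq (by fun_prop) (by fun_prop)
  intro φ hφ
  refine dense_ind (p := fun w : V Ω => inner ℝ (Pa Ω d μ (jv hφ)) (Qb Ω d μ w) =
    inner ℝ (Pb Ω d μ (jv hφ)) (Qa Ω d μ w)) ?_ ?_ w
  · exact isClosed_eq (by fun_prop) (by fun_prop)
  intro ψ hψ
  have hs : ∀ (c : ℝ) (x y : L2), inner ℝ (c • x) y = c * inner ℝ x y :=
    fun c x y => real_inner_smul_left x y c
  have hs' : ∀ (c : ℝ) (x y : L2), inner ℝ x (c • y) = c * inner ℝ x y :=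
    fun c x y => real_inner_smul_right x y c
  have e3 : Pa Ω d μ (jv hφ) = cls (gx φ) - μ • mulOp d.hx (cls φ) := rfl
  have e4 : Pb Ω d μ (jv hφ) = cls (gy φ) - μ • mulOp d.hy (cls φ) := rfl
  have e5 : Qa Ω d μ (jv hψ) = cls (gx ψ) + μ • mulOp d.hx (cls ψ) := rfl
  have e6 : Qb Ω d μ (jv hψ) = cls (gy ψ) + μ • mulOp d.hy (cls ψ) := rfl
  rw [e3, e4, e5, e6]
  simp only [inner_add_right, inner_sub_left, hs, hs']
  rw [mul_comm' d.hx d.hy (cls φ) (cls ψ), inner_cls hφ.gx_tf.memLp hψ.gy_tf.memLp,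
    inner_cls hφ.gy_tf.memLp hψ.gx_tf.memLp, curl_test hφ hψ]
  have mφ := hφ.memLp
  have mψ := hψ.memLp
  rw [mulOp_cls d.hx mφ, mulOp_cls d.hy mφ, mulOp_cls d.hx mψ, mulOp_cls d.hy mψ,
    inner_cls (d.hx.memLp mφ) hψ.gy_tf.memLp, inner_cls hφ.gx_tf.memLp (d.hy.memLp mψ),
    inner_cls (d.hy.memLp mφ) hψ.gx_tf.memLp, inner_cls hφ.gy_tf.memLp (d.hx.memLp mψ)]
  have h := hF.cu _ (tf_mul hφ hψ)
  have e : ∀ z, d.ay z * gx (fun z => φ z * ψ z) z - d.ax z * gy (fun z => φ z * ψ z) z =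
      ((gx φ z * (d.ay z * ψ z)) + (d.ay z * φ z) * gx ψ z)
        - ((gy φ z * (d.ax z * ψ z)) + (d.ax z * φ z) * gy ψ z) := by
    intro z
    rw [gx_mul (hφ.diff z) (hψ.diff z), gy_mul (hφ.diff z) (hψ.diff z)]
    ring
  simp_rw [e] at h
  have i1 := int_mul hφ.gx_tf.memLp (d.hy.memLp mψ)
  have i2 := int_mul (d.hy.memLp mφ) hψ.gx_tf.memLp
  have i3 := int_mul hφ.gy_tf.memLp (d.hx.memLp mψ)
  have i4 := int_mul (d.hx.memLp mφ) hψ.gy_tf.memLp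
  have i12 : Integrable (fun z => (gx φ z * (d.ay z * ψ z)) + (d.ay z * φ z) * gx ψ z) := i1.add i2
  have i34 : Integrable (fun z => (gy φ z * (d.ax z * ψ z)) + (d.ax z * φ z) * gy ψ z) := i3.add i4
  rw [integral_sub i12 i34, integral_add i1 i2, integral_add i3 i4] at h
  linear_combination μ * h

theorem div_free (hF : Free Ω d) (v : V Ω) : inner ℝ (Z Ω d v) (D Ω 0 v) = 0 := by
  refine dense_ind (p := fun v : V Ω => inner ℝ (Z Ω d v) (D Ω 0 v) = 0) ?_ ?_ v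
  · exact isClosed_eq (by fun_prop) (by fun_prop)
  intro φ hφ
  have mφ := hφ.memLp
  have m3 : MemLp (fun z => d.ax z * gx φ z + d.ay z * gy φ z) 2 (volume : Measure ℂ) :=
    (d.hx.memLp hφ.gx_tf.memLp).add (d.hy.memLp hφ.gy_tf.memLp)
  rw [Z_jv, (D_jv hφ).1, inner_cls m3 mφ]
  have h := hF.dv _ (tf_mul hφ hφ)
  have e : ∀ z, d.ax z * gx (fun z => φ z * φ z) z + d.ay z * gy (fun z => φ z * φ z) z =
      2 * ((d.ax z * gx φ z + d.ay z * gy φ z) * φ z) := by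
    intro z
    rw [gx_mul (hφ.diff z) (hφ.diff z), gy_mul (hφ.diff z) (hφ.diff z)]
    ring
  simp_rw [e] at h
  rw [integral_const_mul] at h
  simpa using h

/-- the kernel element satisfies `∫ P·Q = 0` -/
theorem ker_form (hF : Free Ω d) {μ : ℝ} {g : V Ω} (hg : ∀ w : V Ω, inner ℝ (T Ω d 0 μ g) w = 0) (w : V Ω) :
    inner ℝ (Pa Ω d μ g) (Qa Ω d μ w) + inner ℝ (Pb Ω d μ g) (Qb Ω d μ w) = 0 := by
  rw [← form_B hF.hq]; exact hg w

/-- non degeneracy -/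
theorem ker_nondeg (hF : Free Ω d) {R : ℝ} (hR : 0 < R) (hΩ : Ω ⊆ ball 0 R) {μ : ℝ} {g : V Ω}
    (hg : ∀ w : V Ω, inner ℝ (T Ω d 0 μ g) w = 0)
    (h0 : ∀ᵐ z, (d.ax z * (Pa Ω d μ g : ℂ → ℝ) z = 0 ∧ d.ay z * (Pa Ω d μ g : ℂ → ℝ) z = 0) ∧
      (d.ax z * (Pb Ω d μ g : ℂ → ℝ) z = 0 ∧ d.ay z * (Pb Ω d μ g : ℂ → ℝ) z = 0)) : g = 0 := by
  have hs : ∀ (c : ℝ) (x y : L2), inner ℝ (c • x) y = c * inner ℝ x y :=
    fun c x y => real_inner_smul_left x y c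
  have hs' : ∀ (c : ℝ) (x y : L2), inner ℝ x (c • y) = c * inner ℝ x y :=
    fun c x y => real_inner_smul_right x y c
  set p := Pa Ω d μ g with hp
  set q := Pb Ω d μ g with hq
  have a1 : ∀ f : L2, inner ℝ p (mulOp d.hx f) = 0 := by
    intro f
    rw [inner_int]
    rw [← integral_zero ℂ ℝ (μ := (volume : Measure ℂ))]
    apply integral_congr_ae
    filter_upwards [mulOp_coe d.hx f, h0] with z h1 h2
    rw [h1]
    linear_combination (f : ℂ → ℝ) z * h2.1.1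
  have a2 : ∀ f : L2, inner ℝ q (mulOp d.hy f) = 0 := by
    intro f
    rw [inner_int]
    rw [← integral_zero ℂ ℝ (μ := (volume : Measure ℂ))]
    apply integral_congr_ae
    filter_upwards [mulOp_coe d.hy f, h0] with z h1 h2
    rw [h1]
    linear_combination (f : ℂ → ℝ) z * h2.2.2
  have b := ker_form hF hg g
  have e3 : D Ω 1 g = p + μ • mulOp d.hx (D Ω 0 g) := by
    rw [hp]; show D Ω 1 g = (D Ω 1 g - μ • mulOp d.hx (D Ω 0 g)) + _; abel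
  have e4 : D Ω 2 g = q + μ • mulOp d.hy (D Ω 0 g) := by
    rw [hq]; show D Ω 2 g = (D Ω 2 g - μ • mulOp d.hy (D Ω 0 g)) + _; abel
  have e5 : Qa Ω d μ g = (p + μ • mulOp d.hx (D Ω 0 g)) + μ • mulOp d.hx (D Ω 0 g) := by
    rw [← e3]; rfl
  have e6 : Qb Ω d μ g = (q + μ • mulOp d.hy (D Ω 0 g)) + μ • mulOp d.hy (D Ω 0 g) := by
    rw [← e4]; rfl
  rw [e5, e6, ← hp, ← hq] at b
  simp only [inner_add_right, hs', a1, a2, real_inner_self_eq_norm_sq, mul_zero, add_zero] at b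
  have hp0 : p = 0 := by
    have : ‖p‖ ^ 2 = 0 := by nlinarith [sq_nonneg ‖p‖, sq_nonneg ‖q‖]
    exact norm_eq_zero.mp (pow_eq_zero_iff (two_ne_zero) |>.mp this)
  have hq0 : q = 0 := by
    have : ‖q‖ ^ 2 = 0 := by nlinarith [sq_nonneg ‖p‖, sq_nonneg ‖q‖]
    exact norm_eq_zero.mp (pow_eq_zero_iff (two_ne_zero) |>.mp this)
  rw [hp0, zero_add] at e3
  rw [hq0, zero_add] at e4
  have c := div_free hF g
  have e7 : Z Ω d g = mulOp d.hx (D Ω 1 g) + mulOp d.hy (D Ω 2 g) := rfl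
  have c1 : ‖D Ω 1 g‖ ^ 2 + ‖D Ω 2 g‖ ^ 2 = 0 := by
    have f1 : ‖D Ω 1 g‖ ^ 2 = μ * inner ℝ (mulOp d.hx (D Ω 1 g)) (D Ω 0 g) := by
      rw [← real_inner_self_eq_norm_sq]
      nth_rewrite 2 [e3]
      rw [hs', mul_sa d.hx (D Ω 1 g)]
    have f2 : ‖D Ω 2 g‖ ^ 2 = μ * inner ℝ (mulOp d.hy (D Ω 2 g)) (D Ω 0 g) := by
      rw [← real_inner_self_eq_norm_sq]
      nth_rewrite 2 [e4]
      rw [hs', mul_sa d.hy (D Ω 2 g)]
    rw [f1, f2, ← mul_add, ← inner_add_left, ← e7, c, mul_zero]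
  have c2 := poin hR hΩ g
  rw [c1, mul_zero] at c2
  have c3 := norm_sq g
  have c4 : ‖g‖ ^ 2 = 0 := by nlinarith [sq_nonneg ‖g‖, sq_nonneg ‖D Ω 0 g‖]
  exact norm_eq_zero.mp (pow_eq_zero_iff (two_ne_zero) |>.mp c4)

end Pool.Agent.TH340.SH
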