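import Pool.Agent.TH340.SH.Fj

/-!
From the kernel to the eigenfunction.
-/

set_option autoImplicit false

open MeasureTheory Set Filter Topology Metric

namespace Pool.Agent.TH340.SH

open Pool.Agent.Helper533.StarBox

/-- `b` is a single valued imaginary part of a primitive of `h1` -/
def Prim (Ω : Set ℂ) (h1 : ℂ → ℂ) (b : ℂ → ℝ) : Prop :=
  ∀ z ∈ Ω, DifferentiableAt ℝ b z ∧ ∀ v : ℂ, fderiv ℝ b z v = (h1 z * v).im

variable {Ω : Set ℂ} {h1 : ℂ → ℂ} {K : ℝ} {b : ℂ → ℝ}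

theorem Prim.smooth (hP : Prim Ω h1 b) (hΩ : IsOpen Ω) (hd : DifferentiableOn ℂ h1 Ω) {z0 : ℂ} (hz0 : z0 ∈ Ω) :
    ContDiffAt ℝ (⊤ : ℕ∞) b z0 := by
  obtain ⟨r, hr, hb⟩ := Metric.isOpen_iff.mp hΩ z0 hz0
  obtain ⟨H, hH⟩ := (hd.mono hb).isExactOn_ball
  have h1' : ∀ z ∈ ball z0 r, HasFDerivAt (fun z => (H z).im)
      (Complex.imCLM.comp ((ContinuousLinearMap.toSpanSingleton ℂ (h1 z) : ℂ →L[ℂ] ℂ).restrictScalars ℝ)) z := by
    intro z hz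
    exact Complex.imCLM.hasFDerivAt.comp z ((hH z hz).hasFDerivAt.restrictScalars ℝ)
  have hc : ∀ z ∈ ball z0 r, b z - (H z).im = b z0 - (H z0).im := by
    intro z hz
    refine isOpen_ball.is_const_of_fderiv_eq_zero (𝕜 := ℝ) (f := fun z => b z - (H z).im)
      (convex_ball z0 r).isPreconnected ?_ ?_ hz (mem_ball_self hr)
    · intro w hw
      exact ((hP w (hb hw)).1.sub (h1' w hw).differentiableAt).differentiableWithinAt
    · intro w hw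
      show fderiv ℝ (fun z => b z - (H z).im) w = 0
      rw [fderiv_fun_sub (hP w (hb hw)).1 (h1' w hw).differentiableAt, (h1' w hw).fderiv]
      ext v
      show fderiv ℝ b w v - _ = 0
      rw [(hP w (hb hw)).2]
      simp [mul_comm]
  have ha : AnalyticAt ℂ H z0 := by
    have hdH : DifferentiableOn ℂ H (ball z0 r) := fun w hw => (hH w hw).differentiableAt.differentiableWithinAt
    exact hdH.analyticAt (isOpen_ball.mem_nhds (mem_ball_self hr))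
  have hs : ContDiffAt ℝ (⊤ : ℕ∞) (fun z => (b z0 - (H z0).im) + (H z).im) z0 :=
    contDiffAt_const.add (Complex.imCLM.contDiff.contDiffAt.comp z0 (ha.contDiffAt.restrict_scalars ℝ))
  refine hs.congr_of_eventuallyEq ?_
  filter_upwards [isOpen_ball.mem_nhds (mem_ball_self hr)] with z hz
  have := hc z hz
  linarith

/-- the phase -/
noncomputable def Ee (s : ℝ) (b : ℂ → ℝ) (z : ℂ) : ℂ := Complex.exp (((s * b z : ℝ) : ℂ) * Complex.I)

theorem Ee_norm (s : ℝ) (b : ℂ → ℝ) (z : ℂ) : ‖Ee s b z‖ = 1 := Complex.norm_exp_ofReal_mul_I _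

theorem Ee_conj (s : ℝ) (b : ℂ → ℝ) (z : ℂ) : (starRingEnd ℂ) (Ee (-s) b z) = Ee s b z := by
  unfold Ee
  rw [← Complex.exp_conj]
  congr 1
  simp

theorem Ee_smooth (hP : Prim Ω h1 b) (hΩ : IsOpen Ω) (hd : DifferentiableOn ℂ h1 Ω) (s : ℝ) {z : ℂ} (hz : z ∈ Ω) :
    ContDiffAt ℝ (⊤ : ℕ∞) (Ee s b) z := by
  unfold Ee
  have h := (contDiffAt_const (c := s)).mul (hP.smooth hΩ hd hz)
  have h2 : ContDiffAt ℝ (⊤ : ℕ∞) (fun z => (((s * b z : ℝ) : ℂ) * Complex.I)) z :=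
    (Complex.ofRealCLM.contDiff.contDiffAt.comp z h).mul contDiffAt_const
  exact h2.cexp

theorem Ee_fderiv (hP : Prim Ω h1 b) (s : ℝ) {z : ℂ} (hz : z ∈ Ω) :
    DifferentiableAt ℝ (Ee s b) z ∧ ∀ v : ℂ, fderiv ℝ (Ee s b) z v =
      Ee s b z * (Complex.I * ((s * (h1 z * v).im : ℝ) : ℂ)) := by
  have h0 := (hP z hz).1.hasFDerivAt.const_mul s
  have h1' := (Complex.ofRealCLM.hasFDerivAt.comp z h0).mul_const Complex.I
  have h2 := h1'.cexp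
  have h3 : HasFDerivAt (Ee s b) _ z := h2
  refine ⟨h3.differentiableAt, fun v => ?_⟩
  rw [h3.fderiv]
  show Ee s b z * _ = _
  congr 1
  simp [(hP z hz).2 v]
  ring

theorem contDiff_of_ts {n : WithTop ℕ∞} {f : ℂ → ℂ} (h : ∀ z ∈ tsupport f, ContDiffAt ℝ n f z) :
    ContDiff ℝ n f := by
  rw [contDiff_iff_contDiffAt]
  intro z
  by_cases hz : z ∈ tsupport f
  · exact h z hz
  · exact contDiffAt_const.congr_of_eventuallyEq (notMem_tsupport_iff_eventuallyEq.mp hz)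

theorem CT.phase {χ : ℂ → ℂ} (h : CT Ω χ) (hP : Prim Ω h1 b) (hΩ : IsOpen Ω) (hd : DifferentiableOn ℂ h1 Ω) (s : ℝ) :
    CT Ω (fun z => Ee s b z * χ z) := by
  have hs : tsupport (fun z => Ee s b z * χ z) ⊆ tsupport χ := by
    refine closure_minimal ?_ (isClosed_tsupport _)
    intro z hz
    by_contra hcon
    apply hz
    show Ee s b z * χ z = 0
    rw [image_eq_zero_of_notMem_tsupport hcon, mul_zero]
  refine ⟨contDiff_of_ts fun z hz => ?_, h.comp.of_isClosed_subset (isClosed_tsupport _) hs, hs.trans h.supp⟩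
  exact (Ee_smooth hP hΩ hd s (h.supp (hs hz))).mul h.smooth.contDiffAt

theorem phase_fderiv {χ : ℂ → ℂ} (h : CT Ω χ) (hP : Prim Ω h1 b) (s : ℝ) {z : ℂ} (hz : z ∈ Ω) (v : ℂ) :
    fderiv ℝ (fun z => Ee s b z * χ z) z v =
      Ee s b z * (fderiv ℝ χ z v + Complex.I * ((s * (h1 z * v).im : ℝ) : ℂ) * χ z) := by
  obtain ⟨h1', h2⟩ := Ee_fderiv hP s hz
  have h3 : HasFDerivAt (fun z => Ee s b z * χ z) _ z := h1'.hasFDerivAt.mul (h.diff z).hasFDerivAt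
  rw [h3.fderiv]
  show Ee s b z * fderiv ℝ χ z v + χ z * fderiv ℝ (Ee s b) z v = _
  rw [h2]; ring

theorem meas_ind_c {f : ℂ → ℂ} (hΩ : IsOpen Ω) (hf : ContinuousOn f Ω) : Measurable (Ω.indicator f) := by
  classical
  rw [← piecewise_eq_indicator]
  exact hf.measurable_piecewise continuousOn_const hΩ.measurableSet

theorem cint {F : ℂ → ℂ} {A B : ℂ → ℝ} (hA : Integrable A) (hB : Integrable B)
    (h : ∀ᵐ z, F z = ((A z : ℝ) : ℂ) + Complex.I * ((B z : ℝ) : ℂ)) :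
    ∫ z, F z = ((∫ z, A z : ℝ) : ℂ) + Complex.I * ((∫ z, B z : ℝ) : ℂ) := by
  rw [integral_congr_ae h, integral_add hA.ofReal (hB.ofReal.const_mul _), integral_const_mul,
    integral_complex_ofReal, integral_complex_ofReal]

/-- the function `∂φ` of the kernel element -/
noncomputable def ue (Ω : Set ℂ) (b : ℂ → ℝ) (μ : ℝ) (p q : L2) (z : ℂ) : ℂ :=
  1 / 2 * (Ω.indicator (Ee (-μ) b) z * (((p : ℂ → ℝ) z : ℂ) - Complex.I * (((q : ℂ → ℝ) z : ℝ) : ℂ)))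

theorem ue_memLp (hP : Prim Ω h1 b) (hΩ : IsOpen Ω) (hd : DifferentiableOn ℂ h1 Ω) (μ : ℝ) (p q : L2) :
    MemLp (ue Ω b μ p q) 2 (volume : Measure ℂ) := by
  have m1 : MemLp (fun z => (((p : ℂ → ℝ) z : ℂ) - Complex.I * (((q : ℂ → ℝ) z : ℝ) : ℂ))) 2 (volume : Measure ℂ) :=
    (Lp.memLp p).ofReal.sub ((Lp.memLp q).ofReal.const_mul _)
  have hc : ContinuousOn (Ee (-μ) b) Ω := fun z hz =>
    (Ee_smooth hP hΩ hd (-μ) hz).continuousAt.continuousWithinAt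
  have m2 := meas_ind_c hΩ hc
  refine MemLp.const_mul ?_ _
  refine MemLp.of_le_mul (c := 1) m1 (m2.aestronglyMeasurable.mul m1.1) ?_
  refine Eventually.of_forall fun z => ?_
  rw [norm_mul]
  refine mul_le_mul_of_nonneg_right ?_ (norm_nonneg _)
  by_cases hz : z ∈ Ω
  · rw [indicator_of_mem hz, Ee_norm]
  · rw [indicator_of_notMem hz, norm_zero]; exact zero_le_one

variable (hΩ : IsOpen Ω) (hd : DifferentiableOn ℂ h1 Ω) (hK0 : 0 ≤ K) (hK : ∀ z ∈ Ω, ‖h1 z‖ ≤ K)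

theorem dat_free : Free Ω (dat hΩ hd hK0 hK) :=
  ⟨fun _ => rfl, fun _ hθ => (drift hΩ hd hK0 hK hθ).1, fun _ hθ => (drift hΩ hd hK0 hK hθ).2⟩

theorem dat_ax {z : ℂ} (hz : z ∈ Ω) : (dat hΩ hd hK0 hK).ax z = (h1 z).re :=
  indicator_of_mem hz (fun z => (h1 z).re)

theorem dat_ay {z : ℂ} (hz : z ∈ Ω) : (dat hΩ hd hK0 hK).ay z = -(h1 z).im :=
  indicator_of_mem hz (fun z => -(h1 z).im)

theorem dat_ax0 {z : ℂ} (hz : z ∉ Ω) : (dat hΩ hd hK0 hK).ax z = 0 :=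
  indicator_of_notMem hz (fun z => (h1 z).re)

theorem dat_ay0 {z : ℂ} (hz : z ∉ Ω) : (dat hΩ hd hK0 hK).ay z = 0 :=
  indicator_of_notMem hz (fun z => -(h1 z).im)

theorem int_comb1 {a b c e : ℂ → ℝ} (ha : Integrable a) (hb : Integrable b) (hc : Integrable c)
    (he : Integrable e) : ∫ z, 1 / 2 * ((a z + b z) - (c z - e z)) =
      1 / 2 * (((∫ z, a z) + ∫ z, b z) - ((∫ z, c z) - ∫ z, e z)) := by
  have i1 : Integrable (fun z => a z + b z) := ha.add hb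
  have i2 : Integrable (fun z => c z - e z) := hc.sub he
  rw [integral_const_mul, integral_sub i1 i2, integral_add ha hb, integral_sub hc he]

theorem int_comb2 {a b c e : ℂ → ℝ} (ha : Integrable a) (hb : Integrable b) (hc : Integrable c)
    (he : Integrable e) : ∫ z, 1 / 2 * ((a z + b z) + (c z - e z)) =
      1 / 2 * (((∫ z, a z) + ∫ z, b z) + ((∫ z, c z) - ∫ z, e z)) := by
  have i1 : Integrable (fun z => a z + b z) := ha.add hb
  have i2 : Integrable (fun z => c z - e z) := hc.sub he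
  rw [integral_const_mul, integral_add i1 i2, integral_add ha hb, integral_sub hc he]

theorem Qa_coe {d : Dat} {μ : ℝ} {ψ : ℂ → ℝ} (hψ : TF Ω ψ) :
    (Qa Ω d μ (jv hψ) : ℂ → ℝ) =ᵐ[volume] fun z => gx ψ z + μ * (d.ax z * ψ z) := by
  have e : Qa Ω d μ (jv hψ) = cls (gx ψ) + μ • mulOp d.hx (cls ψ) := rfl
  have m := (d.hx.memLp hψ.memLp).const_mul μ
  rw [e, mulOp_cls d.hx hψ.memLp, ← cls_smul μ (d.hx.memLp hψ.memLp), ← cls_add hψ.gx_tf.memLp m]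
  exact cls_coe (hψ.gx_tf.memLp.add m)

theorem Qb_coe {d : Dat} {μ : ℝ} {ψ : ℂ → ℝ} (hψ : TF Ω ψ) :
    (Qb Ω d μ (jv hψ) : ℂ → ℝ) =ᵐ[volume] fun z => gy ψ z + μ * (d.ay z * ψ z) := by
  have e : Qb Ω d μ (jv hψ) = cls (gy ψ) + μ • mulOp d.hy (cls ψ) := rfl
  have m := (d.hy.memLp hψ.memLp).const_mul μ
  rw [e, mulOp_cls d.hy hψ.memLp, ← cls_smul μ (d.hy.memLp hψ.memLp), ← cls_add hψ.gy_tf.memLp m]
  exact cls_coe (hψ.gy_tf.memLp.add m)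

theorem Pa_coe {d : Dat} {μ : ℝ} {ψ : ℂ → ℝ} (hψ : TF Ω ψ) :
    (Pa Ω d μ (jv hψ) : ℂ → ℝ) =ᵐ[volume] fun z => gx ψ z - μ * (d.ax z * ψ z) := by
  have e : Pa Ω d μ (jv hψ) = cls (gx ψ) - μ • mulOp d.hx (cls ψ) := rfl
  have m := (d.hx.memLp hψ.memLp).const_mul μ
  rw [e, mulOp_cls d.hx hψ.memLp, ← cls_smul μ (d.hx.memLp hψ.memLp), ← cls_sub hψ.gx_tf.memLp m]
  exact cls_coe (hψ.gx_tf.memLp.sub m)

theorem Pb_coe {d : Dat} {μ : ℝ} {ψ : ℂ → ℝ} (hψ : TF Ω ψ) :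
    (Pb Ω d μ (jv hψ) : ℂ → ℝ) =ᵐ[volume] fun z => gy ψ z - μ * (d.ay z * ψ z) := by
  have e : Pb Ω d μ (jv hψ) = cls (gy ψ) - μ • mulOp d.hy (cls ψ) := rfl
  have m := (d.hy.memLp hψ.memLp).const_mul μ
  rw [e, mulOp_cls d.hy hψ.memLp, ← cls_smul μ (d.hy.memLp hψ.memLp), ← cls_sub hψ.gy_tf.memLp m]
  exact cls_coe (hψ.gy_tf.memLp.sub m)

/-- the weak equation -/
theorem weak_eq (hP : Prim Ω h1 b) {μ : ℝ} {g : V Ω}
    (hg : ∀ w : V Ω, inner ℝ (T Ω (dat hΩ hd hK0 hK) 0 μ g) w = 0) {χ : ℂ → ℂ} (hχ : CT Ω χ) :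
    ∫ z, ue Ω b μ (Pa Ω (dat hΩ hd hK0 hK) μ g) (Pb Ω (dat hΩ hd hK0 hK) μ g) z *
      (fderiv ℝ χ z 1 + Complex.I * fderiv ℝ χ z Complex.I + 2 * μ * (starRingEnd ℂ) (h1 z) * χ z) = 0 := by
  set d := dat hΩ hd hK0 hK with hdd
  have hF : Free Ω d := dat_free hΩ hd hK0 hK
  set p := Pa Ω d μ g with hp
  set q := Pb Ω d μ g with hq
  have hψ := hχ.phase hP hΩ hd (-μ)
  set ψ : ℂ → ℂ := fun z => Ee (-μ) b z * χ z with hψd
  have hr := hψ.re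
  have hi := hψ.im
  have kr := ker_form hF hg (jv hr)
  have ki := ker_form hF hg (jv hi)
  have cr := cross hF μ g (jv hr)
  have ci := cross hF μ g (jv hi)
  rw [← hp, ← hq, inner_int, inner_int] at kr ki cr ci
  have I1 : ∀ f g : L2, Integrable (fun z => (f : ℂ → ℝ) z * (g : ℂ → ℝ) z) := fun f g =>
    int_mul (Lp.memLp f) (Lp.memLp g)
  set A : ℂ → ℝ := fun z => 1 / 2 * (((p : ℂ → ℝ) z * (Qa Ω d μ (jv hr) : ℂ → ℝ) z +
      (q : ℂ → ℝ) z * (Qb Ω d μ (jv hr) : ℂ → ℝ) z) -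
      ((p : ℂ → ℝ) z * (Qb Ω d μ (jv hi) : ℂ → ℝ) z - (q : ℂ → ℝ) z * (Qa Ω d μ (jv hi) : ℂ → ℝ) z)) with hA
  set B : ℂ → ℝ := fun z => 1 / 2 * (((p : ℂ → ℝ) z * (Qa Ω d μ (jv hi) : ℂ → ℝ) z +
      (q : ℂ → ℝ) z * (Qb Ω d μ (jv hi) : ℂ → ℝ) z) +
      ((p : ℂ → ℝ) z * (Qb Ω d μ (jv hr) : ℂ → ℝ) z - (q : ℂ → ℝ) z * (Qa Ω d μ (jv hr) : ℂ → ℝ) z)) with hB
  have iA : Integrable A := ((((I1 _ _).add (I1 _ _)).sub ((I1 _ _).sub (I1 _ _))).const_mul _)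
  have iB : Integrable B := ((((I1 _ _).add (I1 _ _)).add ((I1 _ _).sub (I1 _ _))).const_mul _)
  have hA0 : ∫ z, A z = 0 := by
    rw [hA, int_comb1 (I1 _ _) (I1 _ _) (I1 _ _) (I1 _ _)]
    linarith
  have hB0 : ∫ z, B z = 0 := by
    rw [hB, int_comb2 (I1 _ _) (I1 _ _) (I1 _ _) (I1 _ _)]
    linarith
  rw [cint iA iB ?_, hA0, hB0]
  · simp
  filter_upwards [Qa_coe (d := d) (μ := μ) hr, Qa_coe (d := d) (μ := μ) hi, Qb_coe (d := d) (μ := μ) hr,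
    Qb_coe (d := d) (μ := μ) hi] with z e1 e2 e3 e4
  rw [hA, hB]
  simp only [e1, e2, e3, e4]
  have f1 : gx (fun z => (ψ z).re) z = (fderiv ℝ ψ z 1).re := fderiv_re' (hψ.diff z) 1
  have f2 : gx (fun z => (ψ z).im) z = (fderiv ℝ ψ z 1).im := fderiv_im' (hψ.diff z) 1
  have f3 : gy (fun z => (ψ z).re) z = (fderiv ℝ ψ z Complex.I).re := fderiv_re' (hψ.diff z) _
  have f4 : gy (fun z => (ψ z).im) z = (fderiv ℝ ψ z Complex.I).im := fderiv_im' (hψ.diff z) _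
  rw [f1, f2, f3, f4]
  by_cases hz : z ∈ Ω
  · have g1 : fderiv ℝ ψ z 1 = Ee (-μ) b z * (fderiv ℝ χ z 1 + Complex.I * ((-μ * (h1 z * 1).im : ℝ) : ℂ) * χ z) :=
      phase_fderiv hχ hP (-μ) hz 1
    have g2 : fderiv ℝ ψ z Complex.I = Ee (-μ) b z * (fderiv ℝ χ z Complex.I +
        Complex.I * ((-μ * (h1 z * Complex.I).im : ℝ) : ℂ) * χ z) :=
      phase_fderiv hχ hP (-μ) hz Complex.I
    have g3 : Ee (-μ) b z * (fderiv ℝ χ z 1 + Complex.I * fderiv ℝ χ z Complex.I + 2 * μ * (starRingEnd ℂ) (h1 z) * χ z)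
        = (fderiv ℝ ψ z 1 + μ * ((d.ax z : ℝ) : ℂ) * ψ z) +
          Complex.I * (fderiv ℝ ψ z Complex.I + μ * ((d.ay z : ℝ) : ℂ) * ψ z) := by
      have c1 : (starRingEnd ℂ) (h1 z) = ((h1 z).re : ℂ) - Complex.I * ((h1 z).im : ℂ) := by
        apply Complex.ext <;> simp
      rw [g1, g2, hdd, dat_ax hΩ hd hK0 hK hz, dat_ay hΩ hd hK0 hK hz, c1, hψd]
      have c2 : (h1 z * Complex.I).im = (h1 z).re := by simp
      have c3 : (h1 z * 1).im = (h1 z).im := by simp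
      rw [c2, c3]
      push_cast
      linear_combination (Ee (-μ) b z * μ * (h1 z).re * χ z) * Complex.I_mul_I
    unfold ue
    rw [indicator_of_mem hz]
    have g4 : 1 / 2 * (Ee (-μ) b z * (((p : ℂ → ℝ) z : ℂ) - Complex.I * (((q : ℂ → ℝ) z : ℝ) : ℂ))) *
        (fderiv ℝ χ z 1 + Complex.I * fderiv ℝ χ z Complex.I + 2 * μ * (starRingEnd ℂ) (h1 z) * χ z) =
        1 / 2 * (((p : ℂ → ℝ) z : ℂ) - Complex.I * (((q : ℂ → ℝ) z : ℝ) : ℂ)) *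
        (Ee (-μ) b z * (fderiv ℝ χ z 1 + Complex.I * fderiv ℝ χ z Complex.I + 2 * μ * (starRingEnd ℂ) (h1 z) * χ z)) := by
      ring
    rw [g4, g3]
    set X := fderiv ℝ ψ z 1
    set Y := fderiv ℝ ψ z Complex.I
    apply Complex.ext
    · simp
      ring
    · simp
      ring
  · have hz' : z ∉ tsupport ψ := fun h => hz (hψ.supp h)
    have k1 : fderiv ℝ ψ z = 0 := by
      have : z ∉ tsupport (fderiv ℝ ψ) := fun h => hz' (tsupport_fderiv_subset ℝ h)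
      exact image_eq_zero_of_notMem_tsupport this
    have k2 : ψ z = 0 := image_eq_zero_of_notMem_tsupport hz'
    unfold ue
    rw [indicator_of_notMem hz, k1, k2]
    simp

end Pool.Agent.TH340.SH
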