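import Pool.Agent.TH340.SH.Fk

/-!
Orthogonality, non degeneracy, and the eigenfunction.
-/

set_option autoImplicit false

open MeasureTheory Set Filter Topology Metric

namespace Pool.Agent.TH340.SH

open Pool.Agent.Helper533.StarBox

variable {Ω : Set ℂ} {h1 : ℂ → ℂ} {K : ℝ} {b : ℂ → ℝ}
variable (hΩ : IsOpen Ω) (hd : DifferentiableOn ℂ h1 Ω) (hK0 : 0 ≤ K) (hK : ∀ z ∈ Ω, ‖h1 z‖ ≤ K)

theorem orth (hP : Prim Ω h1 b) (μ : ℝ) {G : ℂ → ℂ} (hG : DifferentiableOn ℂ G Ω)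
    (hGm : MemLp G 2 (volume.restrict Ω)) (v : V Ω) :
    ∫ z in Ω, ue Ω b μ (Pa Ω (dat hΩ hd hK0 hK) μ v) (Pb Ω (dat hΩ hd hK0 hK) μ v) z *
      (starRingEnd ℂ) (G z) = 0 := by
  set d := dat hΩ hd hK0 hK with hdd
  set M : ℂ → ℂ := Ω.indicator (fun z => Ee μ b z * G z) with hM
  have hMm : MemLp M 2 (volume : Measure ℂ) := by
    rw [hM, memLp_indicator_iff_restrict hΩ.measurableSet]
    have hc : ContinuousOn (Ee μ b) Ω := fun z hz =>
      (Ee_smooth hP hΩ hd μ hz).continuousAt.continuousWithinAt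
    refine MemLp.of_le_mul (c := 1) hGm ((hc.aestronglyMeasurable hΩ.measurableSet).mul hGm.1) ?_
    refine Eventually.of_forall fun z => ?_
    rw [norm_mul, Ee_norm]
  have hMr : MemLp (fun z => (M z).re) 2 (volume : Measure ℂ) := hMm.re
  have hMi : MemLp (fun z => (M z).im) 2 (volume : Measure ℂ) := hMm.im
  set mr := cls (fun z => (M z).re) with hmr
  set mi := cls (fun z => (M z).im) with hmi
  have I1 : ∀ f g : L2, Integrable (fun z => (f : ℂ → ℝ) z * (g : ℂ → ℝ) z) := fun f g =>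
    int_mul (Lp.memLp f) (Lp.memLp g)
  have key : ∀ v : V Ω, inner ℝ (Pa Ω d μ v) mr - inner ℝ (Pb Ω d μ v) mi = 0 ∧
      inner ℝ (Pb Ω d μ v) mr + inner ℝ (Pa Ω d μ v) mi = 0 := by
    intro v
    refine dense_ind (p := fun v : V Ω => inner ℝ (Pa Ω d μ v) mr - inner ℝ (Pb Ω d μ v) mi = 0 ∧
      inner ℝ (Pb Ω d μ v) mr + inner ℝ (Pa Ω d μ v) mi = 0) ?_ ?_ v
    · exact (isClosed_eq (by fun_prop) (by fun_prop)).inter (isClosed_eq (by fun_prop) (by fun_prop))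
    intro φ hφ
    have hχ := (CT.of_real hφ).phase hP hΩ hd μ
    set χ : ℂ → ℂ := fun z => Ee μ b z * (φ z : ℂ) with hχd
    have h := hol_orth hΩ hG hχ
    set A : ℂ → ℝ := fun z => (Pa Ω d μ (jv hφ) : ℂ → ℝ) z * (mr : ℂ → ℝ) z
      - (Pb Ω d μ (jv hφ) : ℂ → ℝ) z * (mi : ℂ → ℝ) z with hA
    set B : ℂ → ℝ := fun z => (Pb Ω d μ (jv hφ) : ℂ → ℝ) z * (mr : ℂ → ℝ) z
      + (Pa Ω d μ (jv hφ) : ℂ → ℝ) z * (mi : ℂ → ℝ) z with hB
    have iA : Integrable A := (I1 _ _).sub (I1 _ _)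
    have iB : Integrable B := (I1 _ _).add (I1 _ _)
    rw [cint iA iB ?_] at h
    · have hr := congrArg Complex.re h
      have hi := congrArg Complex.im h
      simp only [Complex.add_re, Complex.ofReal_re, Complex.mul_re, Complex.I_re, zero_mul,
        Complex.I_im, Complex.ofReal_im, mul_zero, sub_self, add_zero, Complex.zero_re] at hr
      simp only [Complex.add_im, Complex.ofReal_im, Complex.mul_im, Complex.I_re, zero_mul,
        Complex.I_im, Complex.ofReal_re, one_mul, zero_add, Complex.zero_im] at hi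
      rw [hA, integral_sub (I1 _ _) (I1 _ _)] at hr
      rw [hB, integral_add (I1 _ _) (I1 _ _)] at hi
      rw [inner_int, inner_int, inner_int, inner_int]
      exact ⟨hr, hi⟩
    filter_upwards [Pa_coe (d := d) (μ := μ) hφ, Pb_coe (d := d) (μ := μ) hφ, cls_coe hMr, cls_coe hMi]
      with z e1 e2 e3 e4
    rw [hA, hB]
    simp only [hmr, hmi, e1, e2, e3, e4]
    by_cases hz : z ∈ Ω
    · have g1 : fderiv ℝ χ z 1 = Ee μ b z * (((gx φ z : ℝ) : ℂ) + Complex.I * ((μ * (h1 z * 1).im : ℝ) : ℂ) * (φ z : ℂ)) := by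
        have := phase_fderiv (CT.of_real hφ) hP μ hz 1
        rw [fderiv_ofReal (hφ.diff z)] at this
        exact this
      have g2 : fderiv ℝ χ z Complex.I = Ee μ b z * (((gy φ z : ℝ) : ℂ) +
          Complex.I * ((μ * (h1 z * Complex.I).im : ℝ) : ℂ) * (φ z : ℂ)) := by
        have := phase_fderiv (CT.of_real hφ) hP μ hz Complex.I
        rw [fderiv_ofReal (hφ.diff z)] at this
        exact this
      have g3 : M z = Ee μ b z * G z := indicator_of_mem hz (fun z => Ee μ b z * G z)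
      rw [g1, g2, hdd, dat_ax hΩ hd hK0 hK hz, dat_ay hΩ hd hK0 hK hz]
      have c2 : (h1 z * Complex.I).im = (h1 z).re := by simp
      have c3 : (h1 z * 1).im = (h1 z).im := by simp
      rw [c2, c3]
      have g4 : G z * (Ee μ b z * (((gx φ z : ℝ) : ℂ) + Complex.I * ((μ * (h1 z).im : ℝ) : ℂ) * (φ z : ℂ)) +
          Complex.I * (Ee μ b z * (((gy φ z : ℝ) : ℂ) + Complex.I * ((μ * (h1 z).re : ℝ) : ℂ) * (φ z : ℂ)))) =
          M z * ((((gx φ z : ℝ) : ℂ) + Complex.I * ((μ * (h1 z).im : ℝ) : ℂ) * (φ z : ℂ)) +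
          Complex.I * (((gy φ z : ℝ) : ℂ) + Complex.I * ((μ * (h1 z).re : ℝ) : ℂ) * (φ z : ℂ))) := by
        rw [g3]; ring
      rw [g4]
      apply Complex.ext
      · simp
        ring
      · simp
        ring
    · have hz' : z ∉ tsupport χ := fun h => hz (hχ.supp h)
      have k1 : fderiv ℝ χ z = 0 := by
        have : z ∉ tsupport (fderiv ℝ χ) := fun h => hz' (tsupport_fderiv_subset ℝ h)
        exact image_eq_zero_of_notMem_tsupport this
      have k2 : M z = 0 := indicator_of_notMem hz _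
      rw [k1, k2]
      simp
  obtain ⟨k1, k2⟩ := key v
  set p := Pa Ω d μ v with hp
  set q := Pb Ω d μ v with hq
  rw [inner_int, inner_int] at k1 k2
  rw [setIntegral_eq_integral_of_forall_compl_eq_zero]
  swap
  · intro z hz
    unfold ue
    rw [indicator_of_notMem hz]; simp
  set A : ℂ → ℝ := fun z => 1 / 2 * ((p : ℂ → ℝ) z * (mr : ℂ → ℝ) z - (q : ℂ → ℝ) z * (mi : ℂ → ℝ) z) with hA
  set B : ℂ → ℝ := fun z => -(1 / 2) * ((q : ℂ → ℝ) z * (mr : ℂ → ℝ) z + (p : ℂ → ℝ) z * (mi : ℂ → ℝ) z) with hB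
  have iA : Integrable A := ((I1 _ _).sub (I1 _ _)).const_mul _
  have iB : Integrable B := ((I1 _ _).add (I1 _ _)).const_mul _
  have hA0 : ∫ z, A z = 0 := by
    rw [hA, integral_const_mul, integral_sub (I1 _ _) (I1 _ _), k1, mul_zero]
  have hB0 : ∫ z, B z = 0 := by
    rw [hB, integral_const_mul, integral_add (I1 _ _) (I1 _ _), k2, mul_zero]
  rw [cint iA iB ?_, hA0, hB0]
  · simp
  filter_upwards [cls_coe hMr, cls_coe hMi] with z e3 e4
  rw [hA, hB]
  simp only [hmr, hmi, e3, e4]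
  by_cases hz : z ∈ Ω
  · have g3 : M z = Ee μ b z * G z := indicator_of_mem hz (fun z => Ee μ b z * G z)
    unfold ue
    rw [indicator_of_mem hz]
    have g5 : Ee (-μ) b z * (starRingEnd ℂ) (G z) = (starRingEnd ℂ) (M z) := by
      rw [g3, map_mul]
      congr 1
      rw [← Ee_conj μ b z, Complex.conj_conj]
    have g6 : 1 / 2 * (Ee (-μ) b z * (((p : ℂ → ℝ) z : ℂ) - Complex.I * (((q : ℂ → ℝ) z : ℝ) : ℂ))) *
        (starRingEnd ℂ) (G z) = 1 / 2 * ((starRingEnd ℂ) (M z) *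
          (((p : ℂ → ℝ) z : ℂ) - Complex.I * (((q : ℂ → ℝ) z : ℝ) : ℂ))) := by
      rw [← g5]; ring
    rw [g6]
    apply Complex.ext
    · simp
      ring
    · simp
      ring
  · have k3 : M z = 0 := indicator_of_notMem hz _
    unfold ue
    rw [indicator_of_notMem hz, k3]
    simp

/-- sign and orientation -/
theorem ker_of_curve' {R : ℝ} (hR : 0 < R) (hΩR : Ω ⊆ ball 0 R) (hP : Prim Ω h1 b)
    {γ γ' : ℝ → ℂ} (hγ : ∀ t ∈ Icc (0 : ℝ) 1, HasDerivAt γ (γ' t) t)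
    (hγ' : ContinuousOn γ' (Icc 0 1)) (hγΩ : ∀ t ∈ Icc (0 : ℝ) 1, γ t ∈ Ω) (hcl : γ 0 = γ 1)
    (hp : (∫ t in (0 : ℝ)..1, h1 (γ t) * γ' t) ≠ 0) :
    ∃ μ : ℝ, 0 < μ ∧ Ker Ω (dat hΩ hd hK0 hK) μ := by
  have hγc : ContinuousOn γ (Icc 0 1) := fun t ht => (hγ t ht).continuousAt.continuousWithinAt
  have hcont : ContinuousOn (fun t => h1 (γ t) * γ' t) (Icc 0 1) :=
    (hd.continuousOn.comp hγc hγΩ).mul hγ'
  have hint : IntervalIntegrable (fun t => h1 (γ t) * γ' t) volume 0 1 := by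
    apply ContinuousOn.intervalIntegrable
    rw [uIcc_of_le zero_le_one]; exact hcont
  have him : (∫ t in (0 : ℝ)..1, h1 (γ t) * γ' t).im = 0 := by
    have e1 : (∫ t in (0 : ℝ)..1, h1 (γ t) * γ' t).im = ∫ t in (0 : ℝ)..1, (h1 (γ t) * γ' t).im := by
      have := Complex.imCLM.intervalIntegral_comp_comm hint
      exact this.symm
    rw [e1]
    have hb : ∀ t ∈ uIcc (0 : ℝ) 1, HasDerivAt (fun t => b (γ t)) ((h1 (γ t) * γ' t).im) t := by
      intro t ht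
      rw [uIcc_of_le zero_le_one] at ht
      have h2 := (hP _ (hγΩ t ht)).1.hasFDerivAt.comp_hasDerivAt t (hγ t ht)
      rw [(hP _ (hγΩ t ht)).2] at h2
      exact h2
    rw [intervalIntegral.integral_eq_sub_of_hasDerivAt hb, hcl, sub_self]
    apply ContinuousOn.intervalIntegrable
    rw [uIcc_of_le zero_le_one]
    exact Complex.continuous_im.comp_continuousOn hcont
  rcases lt_trichotomy (∫ t in (0 : ℝ)..1, h1 (γ t) * γ' t).re 0 with h | h | h
  · -- reverse the curve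
    have hm : ∀ t ∈ Icc (0 : ℝ) 1, 1 - t ∈ Icc (0 : ℝ) 1 := fun t ht => ⟨by linarith [ht.2], by linarith [ht.1]⟩
    refine ker_of_curve (γ := fun t => γ (1 - t)) (γ' := fun t => -γ' (1 - t)) hΩ hR hΩR hd hK0 hK
      ?_ ?_ ?_ ?_ ?_
    · intro t ht
      have h2 : HasDerivAt (fun t : ℝ => 1 - t) (-1) t := by
        simpa using (hasDerivAt_id t).const_sub 1
      have h3 := (hγ (1 - t) (hm t ht)).scomp t h2
      rw [neg_one_smul] at h3
      exact h3
    · refine (hγ'.comp (by fun_prop) hm).neg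
    · intro t ht; exact hγΩ _ (hm t ht)
    · show γ (1 - 0) = γ (1 - 1)
      rw [sub_zero, sub_self, hcl]
    · have e : ∫ t in (0 : ℝ)..1, h1 (γ (1 - t)) * -γ' (1 - t) = -∫ t in (0 : ℝ)..1, h1 (γ t) * γ' t := by
        have e2 := intervalIntegral.integral_comp_sub_left (a := (0 : ℝ)) (b := 1)
          (fun t => h1 (γ t) * γ' t) 1
        rw [sub_self, sub_zero] at e2
        rw [← e2, ← intervalIntegral.integral_neg]
        congr 1
        funext t; ring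
      rw [e, Complex.neg_re]; linarith
  · exact absurd (Complex.ext h him) hp
  · exact ker_of_curve hΩ hR hΩR hd hK0 hK hγ hγ' hγΩ hcl h

/-- **The eigenfunction**, with the kernel element it comes from. -/
theorem eigG {R : ℝ} (hR : 0 < R) (hΩR : Ω ⊆ ball 0 R) (hP : Prim Ω h1 b)
    {γ γ' : ℝ → ℂ} (hγ : ∀ t ∈ Icc (0 : ℝ) 1, HasDerivAt γ (γ' t) t)
    (hγ' : ContinuousOn γ' (Icc 0 1)) (hγΩ : ∀ t ∈ Icc (0 : ℝ) 1, γ t ∈ Ω) (hcl : γ 0 = γ 1)
    (hp : (∫ t in (0 : ℝ)..1, h1 (γ t) * γ' t) ≠ 0) :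
    ∃ μ : ℝ, 0 < μ ∧ ∃ u f : ℂ → ℂ, ∃ g : V Ω, (u = ue Ω b μ (Pa Ω (dat hΩ hd hK0 hK) μ g)
        (Pb Ω (dat hΩ hd hK0 hK) μ g)) ∧ MemLp u 2 (volume.restrict Ω) ∧ MemLp f 2 (volume.restrict Ω) ∧
      (¬ f =ᵐ[volume.restrict Ω] 0) ∧
      (∀ χ : ℂ → ℂ, ContDiff ℝ (⊤ : ℕ∞) χ → HasCompactSupport χ → tsupport χ ⊆ Ω →
        ∫ z in Ω, u z * ((fderiv ℝ χ z 1 + Complex.I * fderiv ℝ χ z Complex.I) / 2) = - ∫ z in Ω, f z * χ z) ∧
      (∀ G : ℂ → ℂ, DifferentiableOn ℂ G Ω → MemLp G 2 (volume.restrict Ω) →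
        ∫ z in Ω, u z * (starRingEnd ℂ) (G z) = 0) ∧
      ∀ z, f z = μ * (starRingEnd ℂ) (h1 z) * u z := by
  obtain ⟨μ, hμ, g, hg0, hg⟩ := ker_of_curve' hΩ hd hK0 hK hR hΩR hP hγ hγ' hγΩ hcl hp
  set d := dat hΩ hd hK0 hK with hdd
  set p := Pa Ω d μ g with hpd
  set q := Pb Ω d μ g with hqd
  set u := ue Ω b μ p q with hu
  have hum : MemLp u 2 (volume : Measure ℂ) := ue_memLp hP hΩ hd μ p q
  have hu0 : ∀ z, z ∉ Ω → u z = 0 := by
    intro z hz
    rw [hu]; unfold ue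
    rw [indicator_of_notMem hz]; simp
  have hfm : MemLp (fun z => (μ : ℂ) * (starRingEnd ℂ) (h1 z) * u z) 2 (volume.restrict Ω) := by
    have hc : ContinuousOn (fun z => (μ : ℂ) * (starRingEnd ℂ) (h1 z)) Ω :=
      continuousOn_const.mul (Complex.continuous_conj.comp_continuousOn hd.continuousOn)
    refine MemLp.of_le_mul (c := μ * K) (hum.restrict Ω)
      ((hc.aestronglyMeasurable hΩ.measurableSet).mul (hum.restrict Ω).1) ?_
    refine (ae_restrict_iff' hΩ.measurableSet).mpr (Eventually.of_forall fun z hz => ?_)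
    rw [norm_mul, norm_mul, Complex.norm_real, Real.norm_of_nonneg hμ.le, Complex.norm_conj]
    exact mul_le_mul_of_nonneg_right (mul_le_mul_of_nonneg_left (hK z hz) hμ.le) (norm_nonneg _)
  refine ⟨μ, hμ, u, fun z => (μ : ℂ) * (starRingEnd ℂ) (h1 z) * u z, g, hu, hum.restrict Ω, hfm, ?_, ?_, ?_,
    fun _ => rfl⟩
  · intro h0
    apply hg0
    refine ker_nondeg (dat_free hΩ hd hK0 hK) hR hΩR hg ?_
    have h0' := (ae_restrict_iff' hΩ.measurableSet).mp h0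
    filter_upwards [h0'] with z hz
    show (d.ax z * (p : ℂ → ℝ) z = 0 ∧ d.ay z * (p : ℂ → ℝ) z = 0) ∧
      (d.ax z * (q : ℂ → ℝ) z = 0 ∧ d.ay z * (q : ℂ → ℝ) z = 0)
    by_cases hzΩ : z ∈ Ω
    · have h2 : (μ : ℂ) * (starRingEnd ℂ) (h1 z) * u z = 0 := hz hzΩ
      rcases mul_eq_zero.mp h2 with h3 | h3
      · rcases mul_eq_zero.mp h3 with h4 | h4
        · exact absurd (Complex.ofReal_eq_zero.mp h4) hμ.ne'
        · have h5 : h1 z = 0 := by
            have := congrArg (starRingEnd ℂ) h4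
            rwa [Complex.conj_conj, map_zero] at this
          have a1 : d.ax z = 0 := by rw [hdd, dat_ax hΩ hd hK0 hK hzΩ, h5]; rfl
          have a2 : d.ay z = 0 := by rw [hdd, dat_ay hΩ hd hK0 hK hzΩ, h5]; simp
          rw [a1, a2]; simp
      · have h6 : ((p : ℂ → ℝ) z : ℂ) - Complex.I * (((q : ℂ → ℝ) z : ℝ) : ℂ) = 0 := by
          rw [hu] at h3
          unfold ue at h3
          rw [indicator_of_mem hzΩ] at h3
          have hE : Ee (-μ) b z ≠ 0 := by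
            intro h7
            have := Ee_norm (-μ) b z
            rw [h7, norm_zero] at this
            exact zero_ne_one this
          have h8 := (mul_eq_zero.mp h3).resolve_left (by norm_num)
          exact (mul_eq_zero.mp h8).resolve_left hE
        have h7 : (p : ℂ → ℝ) z = 0 := by simpa using congrArg Complex.re h6
        have h8 : (q : ℂ → ℝ) z = 0 := by simpa using congrArg Complex.im h6
        rw [h7, h8]; simp
    · have a1 : d.ax z = 0 := dat_ax0 hΩ hd hK0 hK hzΩ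
      have a2 : d.ay z = 0 := dat_ay0 hΩ hd hK0 hK hzΩ
      rw [a1, a2]; simp
  · intro χ hχ1 hχ2 hχ3
    have hχ : CT Ω χ := ⟨hχ1, hχ2, hχ3⟩
    have hw := weak_eq hΩ hd hK0 hK hP hg hχ
    have hw' : ∫ z, u z * (fderiv ℝ χ z 1 + Complex.I * fderiv ℝ χ z Complex.I + 2 * μ * (starRingEnd ℂ) (h1 z) * χ z) = 0 := hw
    rw [← setIntegral_eq_integral_of_forall_compl_eq_zero (s := Ω)] at hw'
    swap
    · intro z hz
      rw [hu0 z hz, zero_mul]
    have m1 : MemLp (fun z => (fderiv ℝ χ z 1 + Complex.I * fderiv ℝ χ z Complex.I) / 2) 2 (volume.restrict Ω) := by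
      have c1 : MemLp (fun z => fderiv ℝ χ z 1) 2 (volume : Measure ℂ) :=
        (hχ.fd 1).1.memLp_of_hasCompactSupport (hχ.fd 1).2.1
      have c2 : MemLp (fun z => fderiv ℝ χ z Complex.I) 2 (volume : Measure ℂ) :=
        (hχ.fd Complex.I).1.memLp_of_hasCompactSupport (hχ.fd Complex.I).2.1
      have c3 := ((c1.add (c2.const_mul Complex.I)).const_mul (1 / 2)).restrict Ω
      refine (memLp_congr_ae (Eventually.of_forall fun z => ?_)).mp c3
      show 1 / 2 * (fderiv ℝ χ z 1 + Complex.I * fderiv ℝ χ z Complex.I) = _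
      ring
    have m2 : MemLp χ 2 (volume.restrict Ω) :=
      (hχ1.continuous.memLp_of_hasCompactSupport hχ2).restrict Ω
    have i1 : Integrable (fun z => u z * ((fderiv ℝ χ z 1 + Complex.I * fderiv ℝ χ z Complex.I) / 2)) (volume.restrict Ω) :=
      (hum.restrict Ω).integrable_mul m1
    have i2 : Integrable (fun z => (μ : ℂ) * (starRingEnd ℂ) (h1 z) * u z * χ z) (volume.restrict Ω) :=
      hfm.integrable_mul m2
    have e : ∀ z, u z * (fderiv ℝ χ z 1 + Complex.I * fderiv ℝ χ z Complex.I + 2 * μ * (starRingEnd ℂ) (h1 z) * χ z)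
        = 2 * (u z * ((fderiv ℝ χ z 1 + Complex.I * fderiv ℝ χ z Complex.I) / 2) + (μ : ℂ) * (starRingEnd ℂ) (h1 z) * u z * χ z) := by
      intro z; ring
    simp_rw [e] at hw'
    rw [integral_const_mul, integral_add i1 i2] at hw'
    have h3 := (mul_eq_zero.mp hw').resolve_left two_ne_zero
    exact eq_neg_of_add_eq_zero_left h3
  · intro G hG hGm
    exact orth hΩ hd hK0 hK hP μ hG hGm g

include hΩ hd hK0 hK in
/-- **The eigenfunction.** -/
theorem eig {R : ℝ} (hR : 0 < R) (hΩR : Ω ⊆ ball 0 R) (hP : Prim Ω h1 b)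
    {γ γ' : ℝ → ℂ} (hγ : ∀ t ∈ Icc (0 : ℝ) 1, HasDerivAt γ (γ' t) t)
    (hγ' : ContinuousOn γ' (Icc 0 1)) (hγΩ : ∀ t ∈ Icc (0 : ℝ) 1, γ t ∈ Ω) (hcl : γ 0 = γ 1)
    (hp : (∫ t in (0 : ℝ)..1, h1 (γ t) * γ' t) ≠ 0) :
    ∃ μ : ℝ, 0 < μ ∧ ∃ u f : ℂ → ℂ, MemLp u 2 (volume.restrict Ω) ∧ MemLp f 2 (volume.restrict Ω) ∧
      (¬ f =ᵐ[volume.restrict Ω] 0) ∧
      (∀ χ : ℂ → ℂ, ContDiff ℝ (⊤ : ℕ∞) χ → HasCompactSupport χ → tsupport χ ⊆ Ω →
        ∫ z in Ω, u z * ((fderiv ℝ χ z 1 + Complex.I * fderiv ℝ χ z Complex.I) / 2) = - ∫ z in Ω, f z * χ z) ∧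
      (∀ G : ℂ → ℂ, DifferentiableOn ℂ G Ω → MemLp G 2 (volume.restrict Ω) →
        ∫ z in Ω, u z * (starRingEnd ℂ) (G z) = 0) ∧
      ∀ z, f z = μ * (starRingEnd ℂ) (h1 z) * u z := by
  obtain ⟨μ, hμ, u, f, g, _, h⟩ := eigG hΩ hd hK0 hK hR hΩR hP hγ hγ' hγΩ hcl hp
  exact ⟨μ, hμ, u, f, h⟩

end Pool.Agent.TH340.SH
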