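import Pool.Agent.TH340.SH.Pz
import Pool.Agent.TH340.SH.Bp

/-!
Local gauge and the Harnack type inequality for masses.
-/

set_option autoImplicit false

open MeasureTheory Set Filter Topology Metric

namespace Pool.Agent.TH340.SH

open Pool.Agent.Helper533.StarBox

/-- local primitive `a` of the drift -/
structure Loc (Ω : Set ℂ) (d : Dat) (z0 : ℂ) (R : ℝ) (a : ℂ → ℝ) : Prop where
  sub : ball z0 R ⊆ Ω
  smooth : ∀ z ∈ ball z0 R, ContDiffAt ℝ (⊤ : ℕ∞) a z
  hx : ∀ z ∈ ball z0 R, gx a z = d.ax z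
  hy : ∀ z ∈ ball z0 R, gy a z = d.ay z
  hq : ∀ z ∈ ball z0 R, d.q z = d.ax z ^ 2 + d.ay z ^ 2

noncomputable def W (μ : ℝ) (a θ : ℂ → ℝ) (z : ℂ) : ℝ := Real.exp (-(μ * a z)) * θ z

variable {Ω : Set ℂ} {d : Dat} {z0 : ℂ} {R : ℝ} {a θ η : ℂ → ℝ} {μ : ℝ}

theorem W_zero {z : ℂ} (h : θ z = 0) : W μ a θ z = 0 := by unfold W; rw [h, mul_zero]

theorem W_tf0 (hL : Loc Ω d z0 R a) (hθ : TF (ball z0 R) θ) : TF (ball z0 R) (W μ a θ) := by
  have hs : tsupport (W μ a θ) ⊆ tsupport θ := tsupport_sub_of_zero fun z hz => W_zero hz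
  refine ⟨?_, ?_, hs.trans hθ.supp⟩
  · apply contDiff_of_tsupport
    intro z hz
    have hz' := hθ.supp (hs hz)
    have h1 := hL.smooth z hz'
    unfold W
    exact ((contDiffAt_const.mul h1).neg.exp).mul hθ.smooth.contDiffAt
  · exact hθ.comp.of_isClosed_subset (isClosed_tsupport _) hs

theorem W_tf (hL : Loc Ω d z0 R a) (hθ : TF (ball z0 R) θ) : TF Ω (W μ a θ) :=
  (W_tf0 hL hθ).mono hL.sub

theorem W_fderiv (hL : Loc Ω d z0 R a) (hθ : TF (ball z0 R) θ) {z : ℂ} (hz : z ∈ ball z0 R) (v : ℂ) :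
    fderiv ℝ (W μ a θ) z v = Real.exp (-(μ * a z)) * (fderiv ℝ θ z v - μ * fderiv ℝ a z v * θ z) := by
  have h1 : HasFDerivAt a (fderiv ℝ a z) z :=
    ((hL.smooth z hz).differentiableAt (by simp)).hasFDerivAt
  have h2 : HasFDerivAt θ (fderiv ℝ θ z) z := (hθ.diff z).hasFDerivAt
  have h3 := ((h1.const_mul μ).neg.exp).mul h2
  have h4 : HasFDerivAt (W μ a θ) _ z := h3
  rw [h4.fderiv]
  simp
  ring

theorem gx_W (hL : Loc Ω d z0 R a) (hθ : TF (ball z0 R) θ) (z : ℂ) :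
    gx (W μ a θ) z = Real.exp (-(μ * a z)) * (gx θ z - μ * d.ax z * θ z) := by
  by_cases hz : z ∈ tsupport θ
  · have hz' := hθ.supp hz
    have := W_fderiv (μ := μ) hL hθ hz' 1
    rw [show fderiv ℝ a z 1 = d.ax z from hL.hx z hz'] at this
    exact this
  · have hs : tsupport (W μ a θ) ⊆ tsupport θ := tsupport_sub_of_zero fun z hz => W_zero hz
    rw [TF.gx_zero (fun h => hz (hs h)), TF.gx_zero hz,
      image_eq_zero_of_notMem_tsupport hz]
    simp

theorem gy_W (hL : Loc Ω d z0 R a) (hθ : TF (ball z0 R) θ) (z : ℂ) :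
    gy (W μ a θ) z = Real.exp (-(μ * a z)) * (gy θ z - μ * d.ay z * θ z) := by
  by_cases hz : z ∈ tsupport θ
  · have hz' := hθ.supp hz
    have := W_fderiv (μ := μ) hL hθ hz' Complex.I
    rw [show fderiv ℝ a z Complex.I = d.ay z from hL.hy z hz'] at this
    exact this
  · have hs : tsupport (W μ a θ) ⊆ tsupport θ := tsupport_sub_of_zero fun z hz => W_zero hz
    rw [TF.gy_zero (fun h => hz (hs h)), TF.gy_zero hz,
      image_eq_zero_of_notMem_tsupport hz]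
    simp

theorem ibpx {U V : Set ℂ} {u θ : ℂ → ℝ} (hu : TF U u) (hθ : TF V θ) :
    ∫ z, gx u z * θ z = - ∫ z, u z * gx θ z := by
  have h := integral_mul_fderiv_eq_neg_fderiv_mul_of_integrable (f := u) (g := θ) (v := (1 : ℂ))
    (μ := (volume : Measure ℂ))
    (hu.gx_tf.ip_int hθ.cont) (hu.ip_int hθ.gx_cont) (hu.ip_int hθ.cont)
    (fun x _ => hu.diff x) (fun x _ => hθ.diff x)
  have h' : ∫ z, u z * gx θ z = - ∫ z, gx u z * θ z := h
  rw [h', neg_neg]

theorem ibpy {U V : Set ℂ} {u θ : ℂ → ℝ} (hu : TF U u) (hθ : TF V θ) :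
    ∫ z, gy u z * θ z = - ∫ z, u z * gy θ z := by
  have h := integral_mul_fderiv_eq_neg_fderiv_mul_of_integrable (f := u) (g := θ) (v := Complex.I)
    (μ := (volume : Measure ℂ))
    (hu.gy_tf.ip_int hθ.cont) (hu.ip_int hθ.gy_cont) (hu.ip_int hθ.cont)
    (fun x _ => hu.diff x) (fun x _ => hθ.diff x)
  have h' : ∫ z, u z * gy θ z = - ∫ z, gy u z * θ z := h
  rw [h', neg_neg]

theorem gauge_test (hL : Loc Ω d z0 R a) (hη : TF (ball z0 R) η) {φ : ℂ → ℝ} (hφ : TF Ω φ) :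
    inner ℝ (T Ω d 0 μ (jv hφ)) (jv (W_tf (μ := μ) hL hη)) =
      - inner ℝ (cls φ) (cls (W μ a (lap η))) := by
  have hψ := W_tf (μ := μ) hL hη
  have hηx := hη.gx_tf
  have hηy := hη.gy_tf
  have hWx := W_tf (μ := μ) hL hηx
  have hWy := W_tf (μ := μ) hL hηy
  have hWl := W_tf (μ := μ) hL hη.lap_tf
  rw [T_test, inner_cls hφ.memLp hWl.memLp]
  have e1 : ∀ z, gx φ z * gx (W μ a η) z + gy φ z * gy (W μ a η) z + 0 * (φ z * W μ a η z)
        + μ * ((d.ax z * gx φ z + d.ay z * gy φ z) * W μ a η z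
          - φ z * (d.ax z * gx (W μ a η) z + d.ay z * gy (W μ a η) z))
        - μ ^ 2 * ((d.q z * φ z) * W μ a η z)
      = (gx φ z * W μ a (gx η) z + gy φ z * W μ a (gy η) z)
        - φ z * (μ * (d.ax z * W μ a (gx η) z + d.ay z * W μ a (gy η) z)) := by
    intro z
    rw [gx_W hL hη, gy_W hL hη]
    by_cases hz : z ∈ ball z0 R
    · rw [hL.hq z hz]
      unfold W
      ring
    · have h0 : η z = 0 := image_eq_zero_of_notMem_tsupport fun h => hz (hη.supp h)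
      unfold W
      rw [h0]
      ring
  simp_rw [e1]
  have mWx := hWx.memLp
  have mWy := hWy.memLp
  have mφ := hφ.memLp
  have i1 : Integrable (fun z => gx φ z * W μ a (gx η) z) := int_mul hφ.gx_tf.memLp mWx
  have i2 : Integrable (fun z => gy φ z * W μ a (gy η) z) := int_mul hφ.gy_tf.memLp mWy
  have m3 : MemLp (fun z => d.ax z * W μ a (gx η) z + d.ay z * W μ a (gy η) z) 2 (volume : Measure ℂ) :=
    (d.hx.memLp mWx).add (d.hy.memLp mWy)
  have i3 : Integrable (fun z => φ z * (μ * (d.ax z * W μ a (gx η) z + d.ay z * W μ a (gy η) z))) :=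
    int_mul mφ (m3.const_mul μ)
  have i12 : Integrable (fun z => gx φ z * W μ a (gx η) z + gy φ z * W μ a (gy η) z) := i1.add i2
  rw [integral_sub i12 i3, integral_add i1 i2, ibpx hφ hWx, ibpy hφ hWy]
  have i4 : Integrable (fun z => φ z * gx (W μ a (gx η)) z) := int_mul mφ hWx.gx_tf.memLp
  have i5 : Integrable (fun z => φ z * gy (W μ a (gy η)) z) := int_mul mφ hWy.gy_tf.memLp
  have i45 : Integrable (fun z => φ z * gx (W μ a (gx η)) z + φ z * gy (W μ a (gy η)) z) := i4.add i5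
  have e2 : (∫ z, φ z * gx (W μ a (gx η)) z) + (∫ z, φ z * gy (W μ a (gy η)) z)
      + (∫ z, φ z * (μ * (d.ax z * W μ a (gx η) z + d.ay z * W μ a (gy η) z)))
      = ∫ z, φ z * W μ a (lap η) z := by
    rw [← integral_add i4 i5, ← integral_add i45 i3]
    congr 1
    funext z
    rw [gx_W hL hηx, gy_W hL hηy]
    unfold W lap
    ring
  linarith

theorem gauge (hL : Loc Ω d z0 R a) (hη : TF (ball z0 R) η) (v : V Ω) :
    inner ℝ (T Ω d 0 μ v) (jv (W_tf (μ := μ) hL hη)) =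
      - inner ℝ (D Ω 0 v) (cls (W μ a (lap η))) := by
  refine dense_ind (p := fun v : V Ω => inner ℝ (T Ω d 0 μ v) (jv (W_tf (μ := μ) hL hη)) =
      - inner ℝ (D Ω 0 v) (cls (W μ a (lap η)))) ?_ ?_ v
  · exact isClosed_eq (by fun_prop) (by fun_prop)
  · intro φ hφ
    rw [(D_jv hφ).1]
    exact gauge_test hL hη hφ

def Inn (z0 : ℂ) (r : ℝ) : Set ℂ := {z | ‖z - z0‖ ^ 2 < 7 / 10 * r ^ 2}
def Out (z0 : ℂ) (r : ℝ) : Set ℂ := {z | ‖z - z0‖ ^ 2 ≤ 9 / 10 * r ^ 2}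

theorem Inn_meas (z0 : ℂ) (r : ℝ) : MeasurableSet (Inn z0 r) := by
  apply (isOpen_lt (by fun_prop) continuous_const).measurableSet

theorem Out_meas (z0 : ℂ) (r : ℝ) : MeasurableSet (Out z0 r) := by
  apply (isClosed_le (by fun_prop) continuous_const).measurableSet

theorem Inn_sub_Out (z0 : ℂ) (r : ℝ) : Inn z0 r ⊆ Out z0 r := by
  intro z hz
  have h : ‖z - z0‖ ^ 2 < 7 / 10 * r ^ 2 := hz
  show ‖z - z0‖ ^ 2 ≤ 9 / 10 * r ^ 2
  nlinarith [sq_nonneg r]

theorem Out_sub {r : ℝ} (hr : 0 < r) : Out z0 r ⊆ closedBall z0 r := by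
  intro z hz
  have h : ‖z - z0‖ ^ 2 ≤ 9 / 10 * r ^ 2 := hz
  rw [mem_closedBall, dist_eq_norm]
  nlinarith [norm_nonneg (z - z0)]

/-- mass of `g` in the local gauge -/
noncomputable def mass (g : L2) (μ : ℝ) (a : ℂ → ℝ) (X : Set ℂ) : ℝ :=
  ∫ z in X, (g : ℂ → ℝ) z * Real.exp (-(μ * a z))

theorem mass_int (hL : Loc Ω d z0 R a) {r : ℝ} (hr : r < R) (g : L2) :
    IntegrableOn (fun z => (g : ℂ → ℝ) z * Real.exp (-(μ * a z))) (closedBall z0 r) := by
  have hc : ContinuousOn (fun z => Real.exp (-(μ * a z))) (closedBall z0 r) := by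
    intro z hz
    have h1 := (hL.smooth z (closedBall_subset_ball hr hz)).continuousAt
    exact ((continuousAt_const.mul h1).neg.rexp).continuousWithinAt
  haveI : IsFiniteMeasure (volume.restrict (closedBall z0 r)) :=
    ⟨by rw [Measure.restrict_apply_univ]; exact (isCompact_closedBall z0 r).measure_lt_top⟩
  have hg : IntegrableOn (fun z => (g : ℂ → ℝ) z) (closedBall z0 r) :=
    ((Lp.memLp g).restrict (closedBall z0 r)).integrable one_le_two
  exact hg.mul_continuousOn hc (isCompact_closedBall z0 r)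

theorem qq_Inn {r : ℝ} (hr : 0 < r) {z : ℂ} : z ∈ Inn z0 r ↔ 3 / 10 < qq z0 r z := by
  rw [qq_eq]
  show ‖z - z0‖ ^ 2 < 7 / 10 * r ^ 2 ↔ _
  rw [← div_lt_iff₀ (by positivity)]
  constructor <;> intro h <;> linarith

theorem qq_Out {r : ℝ} (hr : 0 < r) {z : ℂ} : z ∈ Out z0 r ↔ 1 / 10 ≤ qq z0 r z := by
  rw [qq_eq]
  show ‖z - z0‖ ^ 2 ≤ 9 / 10 * r ^ 2 ↔ _
  rw [← div_le_iff₀ (by positivity)]
  constructor <;> intro h <;> linarith

/-- the pairing of `g` with the Laplacian of the bump -/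
theorem pairing (hL : Loc Ω d z0 R a) {r : ℝ} (hr0 : 0 < r) (hr : r < R) (g : L2) :
    inner ℝ g (cls (W μ a (lap (eta z0 r)))) =
      4 / r ^ 2 * ∫ z, (g : ℂ → ℝ) z * Real.exp (-(μ * a z)) * PP (qq z0 r z) := by
  have hη := eta_tf z0 hr0 hr
  have hWl := W_tf (μ := μ) hL hη.lap_tf
  have e : inner ℝ g (cls (W μ a (lap (eta z0 r)))) =
      ∫ z, (g : ℂ → ℝ) z * W μ a (lap (eta z0 r)) z := by
    rw [← inner_cls (Lp.memLp g) hWl.memLp, cls_self]
  rw [e, ← integral_const_mul]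
  congr 1
  funext z
  unfold W
  rw [lap_eta z0 hr0]
  ring

theorem PP_int (hL : Loc Ω d z0 R a) {r : ℝ} (hr0 : 0 < r) (hr : r < R) (g : L2) :
    Integrable (fun z => (g : ℂ → ℝ) z * Real.exp (-(μ * a z)) * PP (qq z0 r z)) := by
  have hη := eta_tf z0 hr0 hr
  have hWl := W_tf (μ := μ) hL hη.lap_tf
  have h := (int_mul (Lp.memLp g) hWl.memLp).const_mul (r ^ 2 / 4)
  refine h.congr (Eventually.of_forall fun z => ?_)
  show r ^ 2 / 4 * ((g : ℂ → ℝ) z * W μ a (lap (eta z0 r)) z) = _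
  unfold W
  rw [lap_eta z0 hr0]
  field_simp

theorem harnack (hL : Loc Ω d z0 R a) {r : ℝ} (hr0 : 0 < r) (hr : r < R) {g : L2} (hg : 0 ≤ g)
    {c C : ℝ} (hc : 0 < c) (hC : 0 < C) (h1 : ∀ q, 1 / 10 ≤ q → q ≤ 3 / 10 → c ≤ PP q)
    (h2 : ∀ q, q ≤ 1 → - C ≤ PP q) :
    c * mass g μ a (Out z0 r) - (c + C) * mass g μ a (Inn z0 r) ≤
      ∫ z, (g : ℂ → ℝ) z * Real.exp (-(μ * a z)) * PP (qq z0 r z) := by
  have hI := mass_int (μ := μ) hL hr g
  have hIo : IntegrableOn (fun z => (g : ℂ → ℝ) z * Real.exp (-(μ * a z))) (Out z0 r) :=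
    hI.mono_set (Out_sub hr0)
  have hIi : IntegrableOn (fun z => (g : ℂ → ℝ) z * Real.exp (-(μ * a z))) (Inn z0 r) :=
    hIo.mono_set (Inn_sub_Out z0 r)
  have j1 : Integrable ((Out z0 r).indicator fun z => (g : ℂ → ℝ) z * Real.exp (-(μ * a z))) :=
    (integrable_indicator_iff (Out_meas z0 r)).mpr hIo
  have j2 : Integrable ((Inn z0 r).indicator fun z => (g : ℂ → ℝ) z * Real.exp (-(μ * a z))) :=
    (integrable_indicator_iff (Inn_meas z0 r)).mpr hIi
  unfold mass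
  rw [← integral_indicator (Out_meas z0 r), ← integral_indicator (Inn_meas z0 r),
    ← integral_const_mul, ← integral_const_mul, ← integral_sub (j1.const_mul c) (j2.const_mul (c + C))]
  refine integral_mono_ae ((j1.const_mul c).sub (j2.const_mul (c + C))) (PP_int hL hr0 hr g) ?_
  filter_upwards [(Lp.coeFn_nonneg g).mpr hg] with z hz
  have hF : 0 ≤ (g : ℂ → ℝ) z * Real.exp (-(μ * a z)) := mul_nonneg hz (Real.exp_nonneg _)
  set F := (g : ℂ → ℝ) z * Real.exp (-(μ * a z)) with hFd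
  by_cases ho : z ∈ Out z0 r
  · by_cases hi : z ∈ Inn z0 r
    · rw [indicator_of_mem ho, indicator_of_mem hi]
      have := h2 _ (qq_le_one z0 r z)
      simp only [← hFd]
      nlinarith
    · rw [indicator_of_mem ho, indicator_of_notMem hi]
      rw [qq_Inn hr0] at hi
      rw [qq_Out hr0] at ho
      have := h1 _ ho (not_lt.mp hi)
      simp only [← hFd]
      nlinarith
  · have hi : z ∉ Inn z0 r := fun h => ho (Inn_sub_Out z0 r h)
    rw [indicator_of_notMem ho, indicator_of_notMem hi]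
    rw [qq_Out hr0] at ho
    have := PP_nonneg (q := qq z0 r z) (by linarith [not_le.mp ho])
    have h3 := mul_nonneg hF this
    linarith

theorem mass_nonneg {g : L2} (hg : 0 ≤ g) (X : Set ℂ) : 0 ≤ mass g μ a X := by
  unfold mass
  refine integral_nonneg_of_ae ?_
  filter_upwards [ae_restrict_of_ae ((Lp.coeFn_nonneg g).mpr hg)] with z hz
  exact mul_nonneg hz (Real.exp_nonneg _)

end Pool.Agent.TH340.SH
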