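import Pool.Agent.TH340.SH.Sp

/-!
The resolvent type operators `G μ`, their compactness and dependence on `μ`, and the positivity of
`(1 - G μ)⁻¹` along the path when no eigenvalue occurs.
-/

set_option autoImplicit false

open MeasureTheory Set Filter Topology Metric

namespace Pool.Agent.TH340.SH

open Pool.Agent.Helper533.StarBox

theorem dense_ind {Ω : Set ℂ} {p : V Ω → Prop} (hc : IsClosed {v | p v})
    (h : ∀ φ (hφ : TF Ω φ), p (jv hφ)) (v : V Ω) : p v := by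
  have : v ∈ closure {v | p v} := by
    rw [Metric.mem_closure_iff]
    intro ε hε
    obtain ⟨φ, hφ, hd⟩ := approx v hε
    exact ⟨jv hφ, h φ hφ, by rw [dist_comm, dist_eq_norm]; exact hd⟩
  rw [hc.closure_eq] at this
  exact this

variable (Ω : Set ℂ) (d : Dat)

open Classical in
noncomputable def S (κ μ : ℝ) : V Ω →L[ℝ] V Ω :=
  if h : ∀ v : V Ω, ‖v‖ ^ 2 ≤ inner ℝ (T Ω d κ μ v) v then Classical.choose (exists_inv _ h) else 0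

variable {Ω d}

theorem S_spec {κ μ M : ℝ} (hμ : |μ| ≤ M) (hκ : 1 + M ^ 2 * d.K ^ 2 ≤ κ) :
    (∀ v, T Ω d κ μ (S Ω d κ μ v) = v) ∧ (∀ v, S Ω d κ μ (T Ω d κ μ v) = v) ∧
      ∀ v, ‖S Ω d κ μ v‖ ≤ ‖v‖ := by
  have h : ∀ v : V Ω, ‖v‖ ^ 2 ≤ inner ℝ (T Ω d κ μ v) v := T_coercive Ω d hμ hκ
  unfold S
  rw [dif_pos h]
  exact Classical.choose_spec (exists_inv _ h)

variable (Ω d)

noncomputable def G (κ μ : ℝ) : L2 →L[ℝ] L2 :=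
  κ • (D Ω 0).comp ((S Ω d κ μ).comp (ContinuousLinearMap.adjoint (D Ω 0)))

noncomputable def uu (κ μ : ℝ) (f : L2) : V Ω :=
  κ • S Ω d κ μ (ContinuousLinearMap.adjoint (D Ω 0) f)

variable {Ω d}

theorem uu_D (κ μ : ℝ) (f : L2) : D Ω 0 (uu Ω d κ μ f) = G Ω d κ μ f := by
  unfold uu G
  rw [map_smul]; rfl

theorem uu_T {κ μ M : ℝ} (hμ : |μ| ≤ M) (hκ : 1 + M ^ 2 * d.K ^ 2 ≤ κ) (f : L2) (w : V Ω) :
    inner ℝ (T Ω d κ μ (uu Ω d κ μ f)) w = κ * inner ℝ f (D Ω 0 w) := by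
  have hs : ∀ (c : ℝ) (x y : V Ω), inner ℝ (c • x) y = c * inner ℝ x y :=
    fun c x y => real_inner_smul_left x y c
  unfold uu
  rw [map_smul, (S_spec hμ hκ).1, hs, ContinuousLinearMap.adjoint_inner_left]

theorem norm_D0_le : ‖D Ω 0‖ ≤ 1 :=
  ContinuousLinearMap.opNorm_le_bound _ zero_le_one fun v => by
    rw [one_mul]; exact norm_D_le v 0

theorem G_lip {κ M : ℝ} (hM : 0 ≤ M) (hκ : 1 + M ^ 2 * d.K ^ 2 ≤ κ) :
    ∃ L : ℝ, 0 < L ∧ ∀ μ ∈ Icc (0 : ℝ) M, ∀ ν ∈ Icc (0 : ℝ) M,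
      ‖G Ω d κ μ - G Ω d κ ν‖ ≤ L * |μ - ν| := by
  have hκ0 : 0 < κ := by
    have : 0 ≤ M ^ 2 * d.K ^ 2 := by positivity
    linarith
  refine ⟨κ * (‖P1 Ω d‖ + 2 * M * ‖P2 Ω d‖ + 1), by positivity, ?_⟩
  intro μ hμ ν hν
  have hμ' : |μ| ≤ M := by rw [abs_of_nonneg hμ.1]; exact hμ.2
  have hν' : |ν| ≤ M := by rw [abs_of_nonneg hν.1]; exact hν.2
  obtain ⟨a1, a2, a3⟩ := S_spec (Ω := Ω) (d := d) hμ' hκ
  obtain ⟨b1, b2, b3⟩ := S_spec (Ω := Ω) (d := d) hν' hκ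
  refine ContinuousLinearMap.opNorm_le_bound _ (by positivity) fun f => ?_
  set x := ContinuousLinearMap.adjoint (D Ω 0) f with hx
  have hxn : ‖x‖ ≤ ‖f‖ := by
    refine ((ContinuousLinearMap.adjoint (D Ω 0)).le_opNorm f).trans ?_
    rw [LinearIsometryEquiv.norm_map]
    calc ‖D Ω 0‖ * ‖f‖ ≤ 1 * ‖f‖ := mul_le_mul_of_nonneg_right norm_D0_le (norm_nonneg _)
      _ = ‖f‖ := one_mul _
  have e1 : (G Ω d κ μ - G Ω d κ ν) f = κ • D Ω 0 (S Ω d κ μ x - S Ω d κ ν x) := by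
    rw [map_sub, smul_sub]; rfl
  have e2 : S Ω d κ μ x - S Ω d κ ν x =
      S Ω d κ μ (T Ω d κ ν (S Ω d κ ν x) - T Ω d κ μ (S Ω d κ ν x)) := by
    rw [map_sub, b1, a2]
  have e3 : T Ω d κ ν (S Ω d κ ν x) - T Ω d κ μ (S Ω d κ ν x) =
      (ν - μ) • P1 Ω d (S Ω d κ ν x) - ((ν - μ) * (ν + μ)) • P2 Ω d (S Ω d κ ν x) := by
    show (P0 Ω κ (S Ω d κ ν x) + ν • P1 Ω d (S Ω d κ ν x) - ν ^ 2 • P2 Ω d (S Ω d κ ν x))
      - (P0 Ω κ (S Ω d κ ν x) + μ • P1 Ω d (S Ω d κ ν x) - μ ^ 2 • P2 Ω d (S Ω d κ ν x)) = _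
    module
  set y := S Ω d κ ν x with hy
  have hyn : ‖y‖ ≤ ‖f‖ := (b3 x).trans hxn
  have e4 : ‖(ν - μ) • P1 Ω d y - ((ν - μ) * (ν + μ)) • P2 Ω d y‖ ≤
      |μ - ν| * ((‖P1 Ω d‖ + 2 * M * ‖P2 Ω d‖ + 1) * ‖f‖) := by
    refine (norm_sub_le _ _).trans ?_
    rw [norm_smul, norm_smul, Real.norm_eq_abs, Real.norm_eq_abs, abs_mul, abs_sub_comm ν μ]
    have h1 : ‖P1 Ω d y‖ ≤ ‖P1 Ω d‖ * ‖f‖ :=
      ((P1 Ω d).le_opNorm y).trans (mul_le_mul_of_nonneg_left hyn (ContinuousLinearMap.opNorm_nonneg _))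
    have h2 : ‖P2 Ω d y‖ ≤ ‖P2 Ω d‖ * ‖f‖ :=
      ((P2 Ω d).le_opNorm y).trans (mul_le_mul_of_nonneg_left hyn (ContinuousLinearMap.opNorm_nonneg _))
    have h3 : |ν + μ| ≤ 2 * M := by
      rw [abs_of_nonneg (add_nonneg hν.1 hμ.1)]; linarith [hν.2, hμ.2]
    have h4 : |ν + μ| * ‖P2 Ω d y‖ ≤ 2 * M * (‖P2 Ω d‖ * ‖f‖) :=
      mul_le_mul h3 h2 (norm_nonneg _) (by positivity)
    calc |μ - ν| * ‖P1 Ω d y‖ + |μ - ν| * |ν + μ| * ‖P2 Ω d y‖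
        = |μ - ν| * (‖P1 Ω d y‖ + |ν + μ| * ‖P2 Ω d y‖) := by ring
      _ ≤ |μ - ν| * (‖P1 Ω d‖ * ‖f‖ + 2 * M * (‖P2 Ω d‖ * ‖f‖) + ‖f‖) := by
          refine mul_le_mul_of_nonneg_left ?_ (abs_nonneg _)
          have := norm_nonneg f
          linarith
      _ = _ := by ring
  rw [e1, norm_smul, Real.norm_of_nonneg hκ0.le, e2, e3]
  calc κ * ‖D Ω 0 (S Ω d κ μ ((ν - μ) • P1 Ω d y - ((ν - μ) * (ν + μ)) • P2 Ω d y))‖
      ≤ κ * ‖(ν - μ) • P1 Ω d y - ((ν - μ) * (ν + μ)) • P2 Ω d y‖ := by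
        refine mul_le_mul_of_nonneg_left ?_ hκ0.le
        exact (norm_D_le _ 0).trans (a3 _)
    _ ≤ κ * (|μ - ν| * ((‖P1 Ω d‖ + 2 * M * ‖P2 Ω d‖ + 1) * ‖f‖)) :=
        mul_le_mul_of_nonneg_left e4 hκ0.le
    _ = _ := by ring

theorem D0_compact {R : ℝ} (hR : 0 < R) (hΩ : Ω ⊆ ball 0 R) : IsCompactOperator (D Ω 0) := by
  have hc : IsCompact (closure (bddSet R 2)) :=
    (totallyBounded_bddSet R 2 hR).closure.isCompact_of_isClosed isClosed_closure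
  refine ⟨closure (bddSet R 2), hc, ?_⟩
  refine Filter.mem_of_superset (Metric.ball_mem_nhds (0 : V Ω) zero_lt_one) ?_
  intro v hv
  rw [mem_ball_zero_iff] at hv
  rw [mem_preimage, Metric.mem_closure_iff]
  intro ε hε
  obtain ⟨φ, hφ, hd⟩ := approx v (ε := min ε (1 / 4)) (by positivity)
  have h1 := hd.trans_le (min_le_left _ _)
  have h2 := hd.trans_le (min_le_right _ _)
  refine ⟨cls φ, ⟨φ, hφ.mono hΩ, ?_, rfl⟩, ?_⟩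
  · have h3 : ‖jv hφ‖ ≤ 5 / 4 := by
      calc ‖jv hφ‖ = ‖(jv hφ - v) + v‖ := by rw [sub_add_cancel]
        _ ≤ ‖jv hφ - v‖ + ‖v‖ := norm_add_le _ _
        _ ≤ 5 / 4 := by linarith
    have h4 := norm_sq (jv hφ)
    rw [(D_jv hφ).1, (D_jv hφ).2.1, (D_jv hφ).2.2, norm_cls_sq hφ, norm_cls_sq hφ.gx_tf,
      norm_cls_sq hφ.gy_tf] at h4
    have h5 : En φ φ = Ip (gx φ) (gx φ) + Ip (gy φ) (gy φ) := by
      rw [En_self, Ip_self, Ip_self, ← integral_add hφ.gx_tf.sq_int hφ.gy_tf.sq_int]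
    have h6 := Ip_nonneg φ
    have h7 : ‖jv hφ‖ ^ 2 ≤ (5 / 4) ^ 2 := pow_le_pow_left₀ (norm_nonneg _) h3 2
    rw [h5]; nlinarith
  · rw [dist_comm, dist_eq_norm]
    have := norm_D_le (jv hφ - v) 0
    rw [map_sub] at this
    exact this.trans_lt h1

theorem G_compact {R : ℝ} (hR : 0 < R) (hΩ : Ω ⊆ ball 0 R) (κ μ : ℝ) :
    IsCompactOperator (G Ω d κ μ) := by
  have h1 := (D0_compact hR hΩ).comp_clm ((S Ω d κ μ).comp (ContinuousLinearMap.adjoint (D Ω 0)))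
  exact h1.smul κ

theorem poin {R : ℝ} (hR : 0 < R) (hΩ : Ω ⊆ ball 0 R) (v : V Ω) :
    ‖D Ω 0 v‖ ^ 2 ≤ 4 * R ^ 2 * (‖D Ω 1 v‖ ^ 2 + ‖D Ω 2 v‖ ^ 2) := by
  refine dense_ind (p := fun v : V Ω =>
    ‖D Ω 0 v‖ ^ 2 ≤ 4 * R ^ 2 * (‖D Ω 1 v‖ ^ 2 + ‖D Ω 2 v‖ ^ 2)) ?_ ?_ v
  · exact isClosed_le (by fun_prop) (by fun_prop)
  · intro φ hφ
    rw [(D_jv hφ).1, (D_jv hφ).2.1, (D_jv hφ).2.2, norm_cls_sq hφ, norm_cls_sq hφ.gx_tf,
      norm_cls_sq hφ.gy_tf]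
    have h5 : En φ φ = Ip (gx φ) (gx φ) + Ip (gy φ) (gy φ) := by
      rw [En_self, Ip_self, Ip_self, ← integral_add hφ.gx_tf.sq_int hφ.gy_tf.sq_int]
    rw [← h5]
    exact poincare_ball hφ R hR.le hΩ

theorem G_zero {κ R : ℝ} (hκ : 1 ≤ κ) (hR : 0 < R) (hΩ : Ω ⊆ ball 0 R) :
    ‖G Ω d κ 0‖ ≤ κ / (κ + 1 / (4 * R ^ 2)) := by
  have hκ0 : 0 < κ := by linarith
  refine ContinuousLinearMap.opNorm_le_bound _ (by positivity) fun f => ?_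
  set u := uu Ω d κ 0 f with hu
  have h1 := uu_T (Ω := Ω) (d := d) (κ := κ) (μ := 0) (M := 0) (by simp) (by simpa using hκ) f u
  rw [T_inner, real_inner_self_eq_norm_sq, real_inner_self_eq_norm_sq, real_inner_self_eq_norm_sq,
    zero_mul, zero_pow two_ne_zero, zero_mul, add_zero, sub_zero] at h1
  have h2 := poin hR hΩ u
  have h3 : inner ℝ f (D Ω 0 u) ≤ ‖f‖ * ‖D Ω 0 u‖ := real_inner_le_norm _ _
  rw [← uu_D]
  have h4 : ‖D Ω 0 u‖ ^ 2 / (4 * R ^ 2) ≤ ‖D Ω 1 u‖ ^ 2 + ‖D Ω 2 u‖ ^ 2 := by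
    rw [div_le_iff₀ (by positivity)]; linarith
  have h5 : (κ + 1 / (4 * R ^ 2)) * ‖D Ω 0 u‖ ^ 2 ≤ κ * (‖f‖ * ‖D Ω 0 u‖) := by
    have : κ * inner ℝ f (D Ω 0 u) ≤ κ * (‖f‖ * ‖D Ω 0 u‖) := mul_le_mul_of_nonneg_left h3 hκ0.le
    have e : (κ + 1 / (4 * R ^ 2)) * ‖D Ω 0 u‖ ^ 2 = κ * ‖D Ω 0 u‖ ^ 2 + ‖D Ω 0 u‖ ^ 2 / (4 * R ^ 2) := by
      ring
    rw [e]; linarith
  rcases eq_or_lt_of_le (norm_nonneg (D Ω 0 u)) with h6 | h6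
  · rw [← h6]; positivity
  · have h7 : (κ + 1 / (4 * R ^ 2)) * ‖D Ω 0 u‖ ≤ κ * ‖f‖ := by
      have : ((κ + 1 / (4 * R ^ 2)) * ‖D Ω 0 u‖) * ‖D Ω 0 u‖ ≤ (κ * ‖f‖) * ‖D Ω 0 u‖ := by
        nlinarith
      exact le_of_mul_le_mul_right this h6
    rw [div_mul_eq_mul_div, le_div_iff₀ (by positivity)]
    linarith

/-- a nonzero element of the kernel of the form `B_μ` -/
def Ker (Ω : Set ℂ) (d : Dat) (μ : ℝ) : Prop :=
  ∃ u : V Ω, u ≠ 0 ∧ ∀ w : V Ω, inner ℝ (T Ω d 0 μ u) w = 0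

theorem T_kappa (κ μ : ℝ) (v w : V Ω) :
    inner ℝ (T Ω d κ μ v) w = inner ℝ (T Ω d 0 μ v) w + κ * inner ℝ (D Ω 0 v) (D Ω 0 w) := by
  rw [T_inner, T_inner]; ring

theorem fredholm {κ μ M R : ℝ} (hμ : |μ| ≤ M) (hκ : 1 + M ^ 2 * d.K ^ 2 ≤ κ) (hR : 0 < R)
    (hΩ : Ω ⊆ ball 0 R) (hk : ¬ Ker Ω d μ) : ∃ R', Inv (1 - G Ω d κ μ) R' := by
  rcases (G_compact (d := d) hR hΩ κ μ).hasEigenvalue_or_mem_resolventSet one_ne_zero with h | h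
  · exfalso
    obtain ⟨f, hf⟩ := h.exists_hasEigenvector
    have hf0 : f ≠ 0 := hf.2
    have hf1 : G Ω d κ μ f = f := by
      have := hf.apply_eq_smul
      rw [one_smul] at this
      exact this
    apply hk
    refine ⟨uu Ω d κ μ f, ?_, ?_⟩
    · intro h0
      have h1 := uu_D (Ω := Ω) (d := d) κ μ f
      rw [h0, map_zero, hf1] at h1
      exact hf0 h1.symm
    · intro w
      have h1 := uu_T hμ hκ f w
      rw [T_kappa, uu_D, hf1] at h1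
      linarith
  · rw [spectrum.mem_resolventSet_iff] at h
    rw [map_one] at h
    obtain ⟨U, hU⟩ := h
    refine ⟨((U⁻¹ : (L2 →L[ℝ] L2)ˣ) : L2 →L[ℝ] L2), ?_, ?_⟩
    · rw [← hU]; exact U.mul_inv
    · rw [← hU]; exact U.inv_mul

theorem inv_neumann {A : L2 →L[ℝ] L2} {θ : ℝ} (hA : ‖A‖ ≤ θ) (hθ : θ < 1) :
    ∃ R, Inv (1 - A) R ∧ ‖R‖ ≤ 1 / (1 - θ) := by
  have hu : ‖A‖ < 1 := by linarith
  set U := Units.oneSub A hu with hU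
  set X : L2 →L[ℝ] L2 := ((U⁻¹ : (L2 →L[ℝ] L2)ˣ) : L2 →L[ℝ] L2) with hX
  have hX1 : (1 - A) * X = 1 := by
    have := U.mul_inv
    rwa [hU, Units.val_oneSub] at this
  have hX2 : X * (1 - A) = 1 := by
    have := U.inv_mul
    rwa [hU, Units.val_oneSub] at this
  refine ⟨X, ⟨hX1, hX2⟩, ?_⟩
  have e : X = 1 + A * X := by
    have : X - A * X = 1 := by rw [← hX1, sub_mul, one_mul]
    rw [← this]; abel
  have h1 : ‖X‖ ≤ 1 + θ * ‖X‖ := by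
    calc ‖X‖ = ‖1 + A * X‖ := by rw [← e]
      _ ≤ ‖(1 : L2 →L[ℝ] L2)‖ + ‖A * X‖ := norm_add_le _ _
      _ ≤ 1 + θ * ‖X‖ := by
        refine add_le_add ContinuousLinearMap.norm_id_le ?_
        exact (norm_mul_le _ _).trans (mul_le_mul_of_nonneg_right hA (norm_nonneg _))
  rw [le_div_iff₀ (by linarith)]
  linarith

/-- **Positivity of the resolvent along the path when there is no kernel.** -/
theorem pos_all {κ M R : ℝ} (hM : 0 ≤ M) (hκ : 1 + M ^ 2 * d.K ^ 2 ≤ κ) (hR : 0 < R)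
    (hΩ : Ω ⊆ ball 0 R) (hk : ∀ μ ∈ Icc (0 : ℝ) M, ¬ Ker Ω d μ)
    (hP : ∀ μ ∈ Icc (0 : ℝ) M, Pos (G Ω d κ μ)) :
    ∀ μ ∈ Icc (0 : ℝ) M, ∃ R', Inv (1 - G Ω d κ μ) R' ∧ Pos R' := by
  have hκ1 : 1 ≤ κ := by
    have : 0 ≤ M ^ 2 * d.K ^ 2 := by positivity
    linarith
  have hinv : ∀ μ ∈ Icc (0 : ℝ) M, ∃ R', Inv (1 - G Ω d κ μ) R' := fun μ hμ =>
    fredholm (by rw [abs_of_nonneg hμ.1]; exact hμ.2) hκ hR hΩ (hk μ hμ)
  obtain ⟨L, hL, hLip⟩ := G_lip (Ω := Ω) (d := d) hM hκ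
  -- uniform bound
  have hcont : ContinuousOn (fun μ => Ring.inverse (1 - G Ω d κ μ)) (Icc 0 M) := by
    intro μ hμ
    obtain ⟨R', h1, h2⟩ := hinv μ hμ
    set U : (L2 →L[ℝ] L2)ˣ := ⟨1 - G Ω d κ μ, R', h1, h2⟩ with hU
    have hc := NormedRing.inverse_continuousAt U
    have hcG : ContinuousWithinAt (fun μ => 1 - G Ω d κ μ) (Icc 0 M) μ := by
      refine ContinuousWithinAt.sub continuousWithinAt_const ?_
      rw [Metric.continuousWithinAt_iff]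
      intro ε hε
      refine ⟨ε / L, by positivity, fun {ν} hν hd => ?_⟩
      rw [dist_eq_norm]
      refine (hLip ν hν μ hμ).trans_lt ?_
      rw [Real.dist_eq, lt_div_iff₀ hL] at hd
      linarith
    exact ContinuousAt.comp_continuousWithinAt (g := Ring.inverse) (f := fun μ => 1 - G Ω d κ μ)
      (x := μ) hc hcG
  obtain ⟨C0, hC0⟩ := isCompact_Icc.exists_bound_of_continuousOn hcont
  set θ := κ / (κ + 1 / (4 * R ^ 2)) with hθ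
  have hκ0 : 0 < κ := by linarith
  have hθ1 : θ < 1 := by
    rw [hθ, div_lt_one (by positivity)]
    have : 0 < 1 / (4 * R ^ 2) := by positivity
    linarith
  set C := |C0| + 1 + 1 / (1 - θ) with hC
  have hCpos : 0 < C := by
    have : 0 < 1 / (1 - θ) := div_pos one_pos (by linarith)
    have := abs_nonneg C0
    linarith
  have h1 : ∀ μ ∈ Icc (0 : ℝ) M, ∃ R', Inv (1 - G Ω d κ μ) R' ∧ ‖R'‖ ≤ C := by
    intro μ hμ
    obtain ⟨R', h1, h2⟩ := hinv μ hμ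
    refine ⟨R', ⟨h1, h2⟩, ?_⟩
    set U : (L2 →L[ℝ] L2)ˣ := ⟨1 - G Ω d κ μ, R', h1, h2⟩ with hU
    have e : Ring.inverse (1 - G Ω d κ μ) = R' := Ring.inverse_unit U
    have h3 := hC0 μ hμ
    rw [e] at h3
    have : 0 < 1 / (1 - θ) := div_pos one_pos (by linarith)
    have := le_abs_self C0
    linarith
  have h0 : ∀ s ∈ Icc (0 : ℝ) 1, ∃ R', Inv (1 - s • G Ω d κ 0) R' ∧ ‖R'‖ ≤ 2 * C := by
    intro s hs
    have hA : ‖s • G Ω d κ 0‖ ≤ θ := by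
      rw [norm_smul, Real.norm_of_nonneg hs.1]
      calc s * ‖G Ω d κ 0‖ ≤ 1 * θ :=
            mul_le_mul hs.2 (G_zero hκ1 hR hΩ) (norm_nonneg _) zero_le_one
        _ = θ := one_mul _
    obtain ⟨R', h2, h3⟩ := inv_neumann hA hθ1
    refine ⟨R', h2, h3.trans ?_⟩
    have : 0 < 1 / (1 - θ) := div_pos one_pos (by linarith)
    have := abs_nonneg C0
    linarith
  have key := path_pos hCpos hL hP hLip h0 h1
  intro μ hμ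
  obtain ⟨R', h2⟩ := hinv μ hμ
  exact ⟨R', h2, key μ hμ R' h2⟩

end Pool.Agent.TH340.SH
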