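import Pool.Agent.Helper533.StarBox.Form

/-!
Positivity of `(1 - s G)⁻¹` along a path of positive operators of `L²`.
-/

set_option autoImplicit false

open MeasureTheory Set Filter Topology

namespace Pool.Agent.TH340.SH

open Pool.Agent.Helper533.StarBox

/-- positive operator of `L²` -/
def Pos (T : L2 →L[ℝ] L2) : Prop := ∀ f : L2, 0 ≤ f → 0 ≤ T f

theorem Pos.comp {S T : L2 →L[ℝ] L2} (hS : Pos S) (hT : Pos T) : Pos (S * T) := fun f hf =>
  hS _ (hT f hf)

theorem lp_smul_nonneg {c : ℝ} (hc : 0 ≤ c) {f : L2} (hf : 0 ≤ f) : 0 ≤ c • f := by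
  rw [← Lp.coeFn_nonneg] at hf ⊢
  filter_upwards [hf, Lp.coeFn_smul c f] with z h1 h2
  rw [h2]
  exact mul_nonneg hc h1

theorem Pos.smul {T : L2 →L[ℝ] L2} {c : ℝ} (hc : 0 ≤ c) (hT : Pos T) : Pos (c • T) := fun f hf =>
  lp_smul_nonneg hc (hT f hf)

theorem pow_apply_norm_le (A : L2 →L[ℝ] L2) (N : ℕ) (x : L2) : ‖(A ^ N) x‖ ≤ ‖A‖ ^ N * ‖x‖ := by
  induction N with
  | zero => simp
  | succ N ih =>
    rw [pow_succ', pow_succ']
    calc ‖A ((A ^ N) x)‖ ≤ ‖A‖ * ‖(A ^ N) x‖ := A.le_opNorm _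
      _ ≤ ‖A‖ * (‖A‖ ^ N * ‖x‖) := mul_le_mul_of_nonneg_left ih (norm_nonneg _)
      _ = ‖A‖ * ‖A‖ ^ N * ‖x‖ := by ring

/-- Neumann series -/
theorem pos_neumann {A X : L2 →L[ℝ] L2} (hA : Pos A) (hn : ‖A‖ < 1) (hX : (1 - A) * X = 1) : Pos X := by
  have hX' : X = 1 + A * X := by
    have : X - A * X = 1 := by rw [← hX, sub_mul, one_mul]
    rw [← this]; abel
  have hN : ∀ N : ℕ, X = (∑ n ∈ Finset.range N, A ^ n) + A ^ N * X := by
    intro N
    induction N with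
    | zero => simp
    | succ N ih =>
      rw [Finset.sum_range_succ, pow_succ, add_assoc]
      conv_lhs => rw [ih]
      congr 1
      conv_lhs => rw [hX']
      rw [mul_add, mul_one, mul_assoc]
  intro f hf
  have hpow : ∀ n : ℕ, 0 ≤ (A ^ n) f := by
    intro n
    induction n with
    | zero => simpa using hf
    | succ n ih => rw [pow_succ']; exact hA _ ih
  have hsum : ∀ N : ℕ, 0 ≤ (∑ n ∈ Finset.range N, A ^ n) f := by
    intro N
    rw [ContinuousLinearMap.sum_apply]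
    exact Finset.sum_nonneg fun n _ => hpow n
  have hlim : Tendsto (fun N : ℕ => (∑ n ∈ Finset.range N, A ^ n) f) atTop (𝓝 (X f)) := by
    have h1 : ∀ N : ℕ, (∑ n ∈ Finset.range N, A ^ n) f = X f - (A ^ N * X) f := by
      intro N
      have := congrArg (fun T : L2 →L[ℝ] L2 => T f) (hN N)
      simp only [ContinuousLinearMap.add_apply] at this
      rw [this]; abel
    have h2 : Tendsto (fun N : ℕ => (A ^ N * X) f) atTop (𝓝 0) := by
      rw [tendsto_zero_iff_norm_tendsto_zero]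
      have h3 : Tendsto (fun N : ℕ => ‖A‖ ^ N * ‖X f‖) atTop (𝓝 0) := by
        have := (tendsto_pow_atTop_nhds_zero_of_lt_one (norm_nonneg A) hn).mul_const ‖X f‖
        simpa using this
      refine squeeze_zero (fun _ => norm_nonneg _) (fun N => ?_) h3
      calc ‖(A ^ N * X) f‖ = ‖(A ^ N) (X f)‖ := rfl
        _ ≤ ‖A‖ ^ N * ‖X f‖ := pow_apply_norm_le A N _
    have h4 := h2.const_sub (X f)
    rw [sub_zero] at h4
    exact h4.congr fun N => (h1 N).symm
  exact ge_of_tendsto' hlim hsum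

/-- two-sided inverse -/
def Inv (T R : L2 →L[ℝ] L2) : Prop := T * R = 1 ∧ R * T = 1

theorem Inv.unique {T R R' : L2 →L[ℝ] L2} (h : Inv T R) (h' : Inv T R') : R = R' := by
  calc R = R * (T * R') := by rw [h'.1, mul_one]
    _ = R' := by rw [← mul_assoc, h.2, one_mul]

theorem pos_chain {G : L2 →L[ℝ] L2} {C : ℝ} (hG : Pos G) (R : ℝ → L2 →L[ℝ] L2)
    (hR : ∀ s ∈ Icc (0 : ℝ) 1, Inv (1 - s • G) (R s)) (hC : ∀ s ∈ Icc (0 : ℝ) 1, ‖R s‖ ≤ C) :
    ∀ s ∈ Icc (0 : ℝ) 1, Pos (R s) := by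
  have hC0 : 0 ≤ C := (norm_nonneg _).trans (hC 0 (by simp))
  set ε : ℝ := 1 / (2 * (‖G‖ * C + 1)) with hε
  have hGC : 0 ≤ ‖G‖ * C := mul_nonneg (norm_nonneg _) hC0
  have hε0 : 0 < ε := by positivity
  have hεG : ε * (‖G‖ * C) < 1 := by
    rw [hε, div_mul_eq_mul_div, div_lt_one (by positivity)]
    linarith
  have key : ∀ n : ℕ, ∀ s ∈ Icc (0 : ℝ) 1, s ≤ n * ε → Pos (R s) := by
    intro n
    induction n with
    | zero =>
      intro s hs hs0
      have hs' : s = 0 := le_antisymm (by simpa using hs0) hs.1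
      have h1 := (hR s hs).1
      rw [hs'] at h1 ⊢
      rw [zero_smul, sub_zero, one_mul] at h1
      rw [h1]
      intro f hf; simpa using hf
    | succ n ih =>
      intro s hs hsn
      by_cases hsε : s ≤ n * ε
      · exact ih s hs hsε
      set s' := max (s - ε) 0 with hs'
      have hs'0 : 0 ≤ s' := le_max_right _ _
      have hs's : s' ≤ s := max_le (by linarith) hs.1
      have hs'm : s' ∈ Icc (0 : ℝ) 1 := ⟨hs'0, hs's.trans hs.2⟩
      have hd : s - s' ≤ ε := by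
        have := le_max_left (s - ε) 0
        rw [← hs'] at this; linarith
      have hP : Pos (R s') := by
        refine ih s' hs'm ?_
        refine max_le ?_ (by positivity)
        push_cast at hsn; linarith
      set A : L2 →L[ℝ] L2 := (s - s') • (G * R s') with hA
      have hAP : Pos A := (hG.comp hP).smul (by linarith)
      have hAn : ‖A‖ < 1 := by
        calc ‖A‖ = (s - s') * ‖G * R s'‖ := by
              rw [hA, norm_smul, Real.norm_of_nonneg (by linarith)]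
          _ ≤ ε * (‖G‖ * C) := by
              refine mul_le_mul hd ?_ (norm_nonneg _) hε0.le
              exact (norm_mul_le _ _).trans (mul_le_mul_of_nonneg_left (hC s' hs'm) (norm_nonneg _))
          _ < 1 := hεG
      set X : L2 →L[ℝ] L2 := (1 - s' • G) * R s with hX
      have hX1 : (1 - A) * X = 1 := by
        have e : A * (1 - s' • G) = (s - s') • G := by
          rw [hA, smul_mul_assoc, mul_assoc, (hR s' hs'm).2, mul_one]
        rw [hX, ← mul_assoc, sub_mul, one_mul, e]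
        have : (1 - s' • G - (s - s') • G : L2 →L[ℝ] L2) = 1 - s • G := by
          rw [sub_smul]; abel
        rw [this, (hR s hs).1]
      have hXP := pos_neumann hAP hAn hX1
      have hRs : R s = R s' * X := by
        rw [hX, ← mul_assoc, (hR s' hs'm).2, one_mul]
      rw [hRs]
      exact hP.comp hXP
  intro s hs
  obtain ⟨n, hn⟩ := exists_nat_gt (s / ε)
  exact key n s hs (by rw [div_lt_iff₀ hε0] at hn; exact hn.le)

theorem norm_le_of_pos {S T : L2 →L[ℝ] L2} (hS : Pos S) (hST : Pos (T - S)) : ‖S‖ ≤ ‖T‖ := by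
  refine ContinuousLinearMap.opNorm_le_bound _ (norm_nonneg _) fun f => ?_
  have h1 : |S f| ≤ S |f| := by
    rw [abs_le']
    constructor
    · have := hS (|f| - f) (sub_nonneg.mpr (le_abs_self f))
      rw [map_sub] at this
      exact sub_nonneg.mp this
    · have := hS (|f| - (-f)) (sub_nonneg.mpr (neg_le_abs f))
      rw [map_sub, map_neg] at this
      exact sub_nonneg.mp this
  have h2 : S |f| ≤ T |f| := by
    have := hST |f| (abs_nonneg f)
    rw [ContinuousLinearMap.sub_apply] at this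
    exact sub_nonneg.mp this
  have h3 : ‖S f‖ ≤ ‖T |f|‖ := by
    apply norm_le_norm_of_abs_le_abs
    exact (h1.trans h2).trans (le_abs_self _)
  refine h3.trans ((T.le_opNorm _).trans (le_of_eq ?_))
  rw [norm_abs_eq_norm]

theorem norm_le_end {G : L2 →L[ℝ] L2} (hG : Pos G) (R : ℝ → L2 →L[ℝ] L2)
    (hR : ∀ s ∈ Icc (0 : ℝ) 1, Inv (1 - s • G) (R s)) (hP : ∀ s ∈ Icc (0 : ℝ) 1, Pos (R s)) :
    ∀ s ∈ Icc (0 : ℝ) 1, ‖R s‖ ≤ ‖R 1‖ := by
  intro s hs
  have h1 : (1 : ℝ) ∈ Icc (0 : ℝ) 1 := by simp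
  refine norm_le_of_pos (hP s hs) ?_
  have e : R 1 - R s = (1 - s) • (R 1 * (G * R s)) := by
    have e1 : R 1 - R s = R 1 * ((1 - s • G) * R s) - (R 1 * (1 - (1 : ℝ) • G)) * R s := by
      rw [(hR s hs).1, (hR 1 h1).2, mul_one, one_mul]
    rw [e1, mul_assoc (R 1) (1 - (1 : ℝ) • G) (R s), ← mul_sub, ← sub_mul]
    have : ((1 - s • G) - (1 - (1 : ℝ) • G) : L2 →L[ℝ] L2) = (1 - s) • G := by
      rw [sub_smul]; abel
    rw [this, smul_mul_assoc, mul_smul_comm]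
  rw [e]
  exact ((hP 1 h1).comp (hG.comp (hP s hs))).smul (by linarith [hs.2])

/-- **Positivity along a path.** -/
theorem path_pos {G : ℝ → L2 →L[ℝ] L2} {M C L : ℝ} (hC : 0 < C) (hL : 0 < L)
    (hG : ∀ μ ∈ Icc (0 : ℝ) M, Pos (G μ))
    (hLip : ∀ μ ∈ Icc (0 : ℝ) M, ∀ ν ∈ Icc (0 : ℝ) M, ‖G μ - G ν‖ ≤ L * |μ - ν|)
    (h0 : ∀ s ∈ Icc (0 : ℝ) 1, ∃ R, Inv (1 - s • G 0) R ∧ ‖R‖ ≤ 2 * C)
    (h1 : ∀ μ ∈ Icc (0 : ℝ) M, ∃ R, Inv (1 - G μ) R ∧ ‖R‖ ≤ C) :
    ∀ μ ∈ Icc (0 : ℝ) M, ∀ R, Inv (1 - G μ) R → Pos R := by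
  set δ : ℝ := 1 / (2 * C * L) with hδ
  have hδ0 : 0 < δ := by positivity
  -- the property
  have good : ∀ μ ∈ Icc (0 : ℝ) M, (∀ s ∈ Icc (0 : ℝ) 1, ∃ R, Inv (1 - s • G μ) R ∧ ‖R‖ ≤ 2 * C) →
      ∀ s ∈ Icc (0 : ℝ) 1, ∃ R, Inv (1 - s • G μ) R ∧ ‖R‖ ≤ C ∧ Pos R := by
    intro μ hμ h
    choose! R hR hRn using h
    have hP := pos_chain (hG μ hμ) R hR hRn
    have hN := norm_le_end (hG μ hμ) R hR hP
    intro s hs
    refine ⟨R s, hR s hs, (hN s hs).trans ?_, hP s hs⟩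
    obtain ⟨R', hR', hR'n⟩ := h1 μ hμ
    have h1' : (1 : ℝ) ∈ Icc (0 : ℝ) 1 := by simp
    have := hR 1 h1'
    rw [one_smul] at this
    rw [this.unique hR']
    exact hR'n
  have step : ∀ μ ∈ Icc (0 : ℝ) M, ∀ ν ∈ Icc (0 : ℝ) M, |μ - ν| ≤ δ →
      (∀ s ∈ Icc (0 : ℝ) 1, ∃ R, Inv (1 - s • G μ) R ∧ ‖R‖ ≤ C) →
      ∀ s ∈ Icc (0 : ℝ) 1, ∃ R, Inv (1 - s • G ν) R ∧ ‖R‖ ≤ 2 * C := by
    intro μ hμ ν hν hd h s hs
    obtain ⟨R, hR, hRn⟩ := h s hs
    set A : L2 →L[ℝ] L2 := R * (s • (G ν - G μ)) with hA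
    have hAn : ‖A‖ ≤ 1 / 2 := by
      calc ‖A‖ ≤ ‖R‖ * ‖s • (G ν - G μ)‖ := norm_mul_le _ _
        _ ≤ C * (1 * (L * δ)) := by
            refine mul_le_mul hRn ?_ (norm_nonneg _) hC.le
            rw [norm_smul, Real.norm_of_nonneg hs.1]
            refine mul_le_mul hs.2 ?_ (norm_nonneg _) zero_le_one
            refine (hLip ν hν μ hμ).trans ?_
            rw [abs_sub_comm]
            exact mul_le_mul_of_nonneg_left hd hL.le
        _ = 1 / 2 := by rw [hδ]; field_simp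
    have hu : ‖A‖ < 1 := by linarith
    set U := Units.oneSub A hu with hU
    set X : L2 →L[ℝ] L2 := ((U⁻¹ : (L2 →L[ℝ] L2)ˣ) : L2 →L[ℝ] L2) with hX
    have hX1 : (1 - A) * X = 1 := by
      have := U.mul_inv
      rwa [hU, Units.val_oneSub] at this
    have hX2 : X * (1 - A) = 1 := by
      have := U.inv_mul
      rwa [hU, Units.val_oneSub] at this
    have hXn : ‖X‖ ≤ 2 := by
      have e : X = 1 + A * X := by
        have : X - A * X = 1 := by rw [← hX1, sub_mul, one_mul]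
        rw [← this]; abel
      have h1 : ‖X‖ ≤ 1 + 1 / 2 * ‖X‖ := by
        calc ‖X‖ = ‖1 + A * X‖ := by rw [← e]
          _ ≤ ‖(1 : L2 →L[ℝ] L2)‖ + ‖A * X‖ := norm_add_le _ _
          _ ≤ 1 + 1 / 2 * ‖X‖ := by
            refine add_le_add ContinuousLinearMap.norm_id_le ?_
            exact (norm_mul_le _ _).trans (mul_le_mul_of_nonneg_right hAn (norm_nonneg _))
      linarith
    have eT : (1 - s • G ν : L2 →L[ℝ] L2) = (1 - s • G μ) * (1 - A) := by
      rw [mul_sub, mul_one, hA, ← mul_assoc, hR.1, one_mul, smul_sub]; abel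
    refine ⟨X * R, ⟨?_, ?_⟩, ?_⟩
    · rw [eT, mul_assoc, ← mul_assoc (1 - A) X R, hX1, one_mul, hR.1]
    · rw [eT, mul_assoc, ← mul_assoc R (1 - s • G μ) (1 - A), hR.2, one_mul, hX2]
    · exact (norm_mul_le _ _).trans (mul_le_mul hXn hRn (norm_nonneg _) (by norm_num))
  have main : ∀ n : ℕ, ∀ μ ∈ Icc (0 : ℝ) M, μ ≤ n * δ →
      ∀ s ∈ Icc (0 : ℝ) 1, ∃ R, Inv (1 - s • G μ) R ∧ ‖R‖ ≤ C ∧ Pos R := by
    intro n
    induction n with
    | zero =>
      intro μ hμ hμ0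
      have : μ = 0 := le_antisymm (by simpa using hμ0) hμ.1
      subst this
      exact good 0 hμ h0
    | succ n ih =>
      intro μ hμ hμn
      set ν := max (μ - δ) 0 with hν
      have hνm : ν ∈ Icc (0 : ℝ) M := ⟨le_max_right _ _, (max_le (by linarith) hμ.1).trans hμ.2⟩
      have hd : |ν - μ| ≤ δ := by
        have h1 : ν ≤ μ := max_le (by linarith) hμ.1
        have h2 : μ - δ ≤ ν := le_max_left _ _
        rw [abs_sub_comm, abs_of_nonneg (by linarith)]; linarith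
      have hνn : ν ≤ n * δ := max_le (by push_cast at hμn; linarith) (by positivity)
      have h := ih ν hνm hνn
      exact good μ hμ (step ν hνm μ hμ hd fun s hs => by
        obtain ⟨R, h1, h2, _⟩ := h s hs
        exact ⟨R, h1, h2⟩)
  intro μ hμ R hR
  obtain ⟨n, hn⟩ := exists_nat_gt (μ / δ)
  obtain ⟨R', hR', _, hP⟩ := main n μ hμ (by rw [div_lt_iff₀ hδ0] at hn; exact hn.le) 1 (by simp)
  rw [one_smul] at hR'
  rw [hR.unique hR']
  exact hP

end Pool.Agent.TH340.SH
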