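import Pool.Agent.TH340.SH.Gr

/-!
Positivity of `G μ` (truncation).
-/

set_option autoImplicit false

open MeasureTheory Set Filter Topology Metric

namespace Pool.Agent.TH340.SH

open Pool.Agent.Helper533.StarBox

theorem int_mul {f g : ℂ → ℝ} (hf : MemLp f 2 (volume : Measure ℂ)) (hg : MemLp g 2 (volume : Measure ℂ)) :
    Integrable (fun z => f z * g z) := hf.integrable_mul hg

variable {Ω : Set ℂ} {d : Dat}

theorem Z_jv {φ : ℂ → ℝ} (h : TF Ω φ) :
    Z Ω d (jv h) = cls (fun z => d.ax z * gx φ z + d.ay z * gy φ z) := by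
  show mulOp d.hx (D Ω 1 (jv h)) + mulOp d.hy (D Ω 2 (jv h)) = _
  rw [(D_jv h).2.1, (D_jv h).2.2, mulOp_cls d.hx h.gx_tf.memLp, mulOp_cls d.hy h.gy_tf.memLp,
    cls_add (d.hx.memLp h.gx_tf.memLp) (d.hy.memLp h.gy_tf.memLp)]

theorem T_test {κ μ : ℝ} {φ ψ : ℂ → ℝ} (hφ : TF Ω φ) (hψ : TF Ω ψ) :
    inner ℝ (T Ω d κ μ (jv hφ)) (jv hψ) =
      ∫ z, (gx φ z * gx ψ z + gy φ z * gy ψ z + κ * (φ z * ψ z)
        + μ * ((d.ax z * gx φ z + d.ay z * gy φ z) * ψ z - φ z * (d.ax z * gx ψ z + d.ay z * gy ψ z))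
        - μ ^ 2 * ((d.q z * φ z) * ψ z)) := by
  have mφ := hφ.memLp
  have mψ := hψ.memLp
  have mφx := hφ.gx_tf.memLp
  have mφy := hφ.gy_tf.memLp
  have mψx := hψ.gx_tf.memLp
  have mψy := hψ.gy_tf.memLp
  have mZφ : MemLp (fun z => d.ax z * gx φ z + d.ay z * gy φ z) 2 (volume : Measure ℂ) :=
    (d.hx.memLp mφx).add (d.hy.memLp mφy)
  have mZψ : MemLp (fun z => d.ax z * gx ψ z + d.ay z * gy ψ z) 2 (volume : Measure ℂ) :=
    (d.hx.memLp mψx).add (d.hy.memLp mψy)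
  have mq := d.hq.memLp mφ
  rw [T_inner, Z_jv, Z_jv, (D_jv hφ).1, (D_jv hφ).2.1, (D_jv hφ).2.2, (D_jv hψ).1, (D_jv hψ).2.1,
    (D_jv hψ).2.2, mulOp_cls d.hq mφ, inner_cls mφx mψx, inner_cls mφy mψy, inner_cls mφ mψ,
    inner_cls mZφ mψ, inner_cls mφ mZψ, inner_cls mq mψ]
  have i1 := int_mul mφx mψx
  have i2 := int_mul mφy mψy
  have i3 := int_mul mφ mψ
  have i4 := int_mul mZφ mψ
  have i5 := int_mul mφ mZψ
  have i6 := int_mul mq mψ
  have j1 : Integrable (fun z => gx φ z * gx ψ z + gy φ z * gy ψ z) := i1.add i2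
  have j2 : Integrable (fun z => gx φ z * gx ψ z + gy φ z * gy ψ z + κ * (φ z * ψ z)) :=
    j1.add (i3.const_mul κ)
  have j3 : Integrable (fun z => μ * ((d.ax z * gx φ z + d.ay z * gy φ z) * ψ z
      - φ z * (d.ax z * gx ψ z + d.ay z * gy ψ z))) := (i4.sub i5).const_mul μ
  have j4 : Integrable (fun z => gx φ z * gx ψ z + gy φ z * gy ψ z + κ * (φ z * ψ z)
      + μ * ((d.ax z * gx φ z + d.ay z * gy φ z) * ψ z
      - φ z * (d.ax z * gx ψ z + d.ay z * gy ψ z))) := j2.add j3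
  rw [← integral_const_mul, ← integral_const_mul, ← integral_sub i4 i5, ← integral_const_mul,
    ← integral_add i1 i2, ← integral_add j1 (i3.const_mul κ), ← integral_add j2 j3,
    ← integral_sub j4 (i6.const_mul (μ ^ 2))]

/-- smooth version of `min t 0` -/
noncomputable def bm (δ t : ℝ) : ℝ := (t - bet δ t) / 2

theorem bm_smooth {δ : ℝ} (hδ : 0 < δ) : ContDiff ℝ (⊤ : ℕ∞) (bm δ) := by
  unfold bm
  exact (contDiff_id.sub (bet_smooth hδ)).div_const 2

theorem bm_zero {δ : ℝ} (hδ : 0 < δ) : bm δ 0 = 0 := by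
  unfold bm; rw [bet_zero hδ]; simp

theorem bm_deriv {δ : ℝ} (hδ : 0 < δ) (t : ℝ) :
    HasDerivAt (bm δ) ((1 - t / √(t ^ 2 + δ ^ 2)) / 2) t :=
  ((hasDerivAt_id t).sub (bet_deriv hδ t)).div_const 2

theorem root_facts {δ : ℝ} (hδ : 0 < δ) (t : ℝ) :
    |t| ≤ √(t ^ 2 + δ ^ 2) ∧ δ ≤ √(t ^ 2 + δ ^ 2) ∧ √(t ^ 2 + δ ^ 2) ^ 2 = t ^ 2 + δ ^ 2 ∧
      √(t ^ 2 + δ ^ 2) ≤ |t| + δ := by
  have h1 : |t| ≤ √(t ^ 2 + δ ^ 2) := by
    apply Real.abs_le_sqrt; nlinarith [sq_nonneg δ]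
  have h2 : δ ≤ √(t ^ 2 + δ ^ 2) := by
    rw [Real.le_sqrt hδ.le (by positivity)]; nlinarith [sq_nonneg t]
  have h3 : √(t ^ 2 + δ ^ 2) ^ 2 = t ^ 2 + δ ^ 2 := Real.sq_sqrt (by positivity)
  refine ⟨h1, h2, h3, ?_⟩
  rw [Real.sqrt_le_left (by positivity)]
  nlinarith [abs_nonneg t, sq_abs t]

/-- pointwise facts: `0 ≤ β' ≤ 1`, `|β - tβ'| ≤ δ`, `β ≤ δ`, `(min t 0)² - δ|t| ≤ tβ`, `0 ≤ tβ`, `|β| ≤ |t|` -/
theorem bm_facts {δ : ℝ} (hδ : 0 < δ) (t : ℝ) :
    0 ≤ deriv (bm δ) t ∧ deriv (bm δ) t ≤ 1 ∧ |bm δ t - t * deriv (bm δ) t| ≤ δ ∧ bm δ t ≤ δ ∧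
      (min t 0) ^ 2 - δ * |t| ≤ t * bm δ t ∧ 0 ≤ t * bm δ t ∧ |bm δ t| ≤ |t| := by
  obtain ⟨h1, h2, h3, h4⟩ := root_facts hδ t
  rw [(bm_deriv hδ t).deriv]
  set r := √(t ^ 2 + δ ^ 2) with hr
  have hr0 : 0 < r := hδ.trans_le h2
  have hb : bm δ t = (t - r + δ) / 2 := by unfold bm bet; rw [← hr]; ring
  rw [hb]
  have ha := abs_le.mp h1
  have q1 : t / r ≤ 1 := by rw [div_le_one hr0]; exact ha.2
  have q2 : -1 ≤ t / r := by rw [le_div_iff₀ hr0]; linarith [ha.1]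
  have q3 : t * (t / r) = r - δ ^ 2 / r := by
    have : t ^ 2 = r ^ 2 - δ ^ 2 := by linarith
    field_simp
    linarith
  have q4 : 0 ≤ δ ^ 2 / r := by positivity
  have q5 : δ ^ 2 / r ≤ δ := by rw [div_le_iff₀ hr0]; nlinarith
  refine ⟨by linarith, by linarith, ?_, ?_, ?_, ?_, ?_⟩
  · have e : (t - r + δ) / 2 - t * ((1 - t / r) / 2) = (δ - δ ^ 2 / r) / 2 := by
      have : t * ((1 - t / r) / 2) = (t - t * (t / r)) / 2 := by ring
      rw [this, q3]; ring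
    rw [e, abs_le]; constructor <;> linarith
  · linarith [ha.2]
  · rcases le_total t 0 with h | h
    · rw [min_eq_left h, abs_of_nonpos h]
      rw [abs_of_nonpos h] at h1 h4
      nlinarith
    · rw [min_eq_right h, abs_of_nonneg h]
      rw [abs_of_nonneg h] at h1 h4
      nlinarith
  · rcases le_total t 0 with h | h
    · rw [abs_of_nonpos h] at h1 h4
      nlinarith
    · rw [abs_of_nonneg h] at h1 h4
      nlinarith
  · rcases le_total t 0 with h | h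
    · rw [abs_of_nonpos h] at h1 h4 ⊢
      rw [abs_le]; constructor <;> linarith
    · rw [abs_of_nonneg h] at h1 h4 ⊢
      rw [abs_le]; constructor <;> linarith

theorem gx_bm {φ : ℂ → ℝ} (hφ : TF Ω φ) {δ : ℝ} (hδ : 0 < δ) (z : ℂ) :
    gx (fun z => bm δ (φ z)) z = deriv (bm δ) (φ z) * gx φ z := by
  have hd : DifferentiableAt ℝ (bm δ) (φ z) := ((bm_smooth hδ).differentiable (by simp)) _
  rw [gx_comp' (hφ.diff z) hd]

theorem gy_bm {φ : ℂ → ℝ} (hφ : TF Ω φ) {δ : ℝ} (hδ : 0 < δ) (z : ℂ) :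
    gy (fun z => bm δ (φ z)) z = deriv (bm δ) (φ z) * gy φ z := by
  have hd : DifferentiableAt ℝ (bm δ) (φ z) := ((bm_smooth hδ).differentiable (by simp)) _
  rw [gy_comp' (hφ.diff z) hd]

theorem norm_cls_le' {f g : ℂ → ℝ} (hf : MemLp f 2 (volume : Measure ℂ)) (hg : MemLp g 2 (volume : Measure ℂ))
    (h : ∀ z, |f z| ≤ |g z|) : ‖cls f‖ ^ 2 ≤ ‖cls g‖ ^ 2 :=
  pow_le_pow_left₀ (norm_nonneg _) (norm_cls_le hf hg (Eventually.of_forall h)) 2

theorem norm_bm_le {φ : ℂ → ℝ} (hφ : TF Ω φ) {δ : ℝ} (hδ : 0 < δ) :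
    ‖jv (hφ.comp_smooth (bm_smooth hδ) (bm_zero hδ))‖ ≤ ‖jv hφ‖ := by
  have hψ := hφ.comp_smooth (bm_smooth hδ) (bm_zero hδ)
  refine abs_le_of_sq_le_sq' ?_ (norm_nonneg _) |>.2
  rw [norm_sq, norm_sq, (D_jv _).1, (D_jv _).2.1, (D_jv _).2.2, (D_jv hφ).1, (D_jv hφ).2.1, (D_jv hφ).2.2]
  refine add_le_add (add_le_add ?_ ?_) ?_
  · exact norm_cls_le' hψ.memLp hφ.memLp fun z => (bm_facts hδ (φ z)).2.2.2.2.2.2
  · refine norm_cls_le' hψ.gx_tf.memLp hφ.gx_tf.memLp fun z => ?_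
    rw [gx_bm hφ hδ, abs_mul, abs_of_nonneg (bm_facts hδ (φ z)).1]
    exact mul_le_of_le_one_left (abs_nonneg _) (bm_facts hδ (φ z)).2.1
  · refine norm_cls_le' hψ.gy_tf.memLp hφ.gy_tf.memLp fun z => ?_
    rw [gy_bm hφ hδ, abs_mul, abs_of_nonneg (bm_facts hδ (φ z)).1]
    exact mul_le_of_le_one_left (abs_nonneg _) (bm_facts hδ (φ z)).2.1

/-- the form tested with `bm δ φ` -/
theorem form_ge {κ μ M : ℝ} (hμ : |μ| ≤ M) (hκ : 1 + M ^ 2 * d.K ^ 2 ≤ κ) {φ : ℂ → ℝ} (hφ : TF Ω φ)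
    {δ : ℝ} (hδ : 0 < δ) :
    (∫ z, (min (φ z) 0) ^ 2) - δ * (∫ z, (|φ z| + M * d.K * (|gx φ z| + |gy φ z|))) ≤
      inner ℝ (T Ω d κ μ (jv hφ)) (jv (hφ.comp_smooth (bm_smooth hδ) (bm_zero hδ))) := by
  have hψ := hφ.comp_smooth (bm_smooth hδ) (bm_zero hδ)
  rw [T_test]
  have mφ := hφ.memLp
  have mψ := hψ.memLp
  have mφx := hφ.gx_tf.memLp
  have mφy := hφ.gy_tf.memLp
  have mψx := hψ.gx_tf.memLp
  have mψy := hψ.gy_tf.memLp
  have mZφ := (d.hx.memLp mφx).add (d.hy.memLp mφy)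
  have mZψ := (d.hx.memLp mψx).add (d.hy.memLp mψy)
  have mq := d.hq.memLp mφ
  have iR : Integrable (fun z => gx φ z * gx (fun z => bm δ (φ z)) z + gy φ z * gy (fun z => bm δ (φ z)) z
        + κ * (φ z * bm δ (φ z))
        + μ * ((d.ax z * gx φ z + d.ay z * gy φ z) * bm δ (φ z)
          - φ z * (d.ax z * gx (fun z => bm δ (φ z)) z + d.ay z * gy (fun z => bm δ (φ z)) z))
        - μ ^ 2 * ((d.q z * φ z) * bm δ (φ z))) :=
    ((((int_mul mφx mψx).add (int_mul mφy mψy)).add ((int_mul mφ mψ).const_mul κ)).add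
      (((int_mul mZφ mψ).sub (int_mul mφ mZψ)).const_mul μ)).sub ((int_mul mq mψ).const_mul (μ ^ 2))
  have c1 : Integrable (fun z => |φ z|) := (hφ.cont.integrable_of_hasCompactSupport hφ.comp).abs
  have c2 : Integrable (fun z => |gx φ z|) :=
    (hφ.gx_cont.integrable_of_hasCompactSupport hφ.gx_comp).abs
  have c3 : Integrable (fun z => |gy φ z|) :=
    (hφ.gy_cont.integrable_of_hasCompactSupport hφ.gy_comp).abs
  have c4 : Integrable (fun z => |φ z| + M * d.K * (|gx φ z| + |gy φ z|)) :=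
    c1.add ((c2.add c3).const_mul _)
  have c5 : Integrable (fun z => (min (φ z) 0) ^ 2) := by
    have hc : Continuous (fun z => (min (φ z) 0) ^ 2) := (hφ.cont.min continuous_const).pow 2
    refine hc.integrable_of_hasCompactSupport ?_
    refine hφ.comp.mono ?_
    intro z hz
    rw [Function.mem_support] at hz ⊢
    intro h0; apply hz; rw [h0]; simp
  rw [← integral_const_mul, ← integral_sub c5 (c4.const_mul δ)]
  refine integral_mono (c5.sub (c4.const_mul δ)) iR fun z => ?_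
  simp only [Pi.sub_apply]
  obtain ⟨f1, f2, f3, f4, f5, f6, f7⟩ := bm_facts hδ (φ z)
  rw [gx_bm hφ hδ, gy_bm hφ hδ]
  set b := bm δ (φ z)
  set b' := deriv (bm δ) (φ z)
  set p := gx φ z
  set r := gy φ z
  set t := φ z
  have hM : 0 ≤ M := (abs_nonneg μ).trans hμ
  have hK := d.hx.nonneg
  have g1 : |d.ax z * p + d.ay z * r| ≤ d.K * (|p| + |r|) := by
    refine (abs_add_le _ _).trans ?_
    rw [abs_mul, abs_mul, mul_add]
    exact add_le_add (mul_le_mul_of_nonneg_right (d.hx.bd z) (abs_nonneg _))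
      (mul_le_mul_of_nonneg_right (d.hy.bd z) (abs_nonneg _))
  have g2 : |μ * ((d.ax z * p + d.ay z * r) * (b - t * b'))| ≤ M * (d.K * (|p| + |r|) * δ) := by
    rw [abs_mul, abs_mul]
    refine mul_le_mul hμ ?_ (by positivity) hM
    exact mul_le_mul g1 f3 (abs_nonneg _) (mul_nonneg hK (by positivity))
  have g3 : 0 ≤ b' * (p ^ 2 + r ^ 2) := by positivity
  have g4 : μ ^ 2 * d.q z ≤ M ^ 2 * d.K ^ 2 := by
    have h1 : μ ^ 2 ≤ M ^ 2 := by
      have := abs_nonneg μ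
      rw [← sq_abs μ]; nlinarith
    have h2 : d.q z ≤ d.K ^ 2 := (le_abs_self _).trans (d.hq.bd z)
    calc μ ^ 2 * d.q z ≤ μ ^ 2 * d.K ^ 2 := mul_le_mul_of_nonneg_left h2 (sq_nonneg _)
      _ ≤ M ^ 2 * d.K ^ 2 := mul_le_mul_of_nonneg_right h1 (sq_nonneg _)
  have g5 : t * b ≤ (κ - μ ^ 2 * d.q z) * (t * b) := by
    have : 1 ≤ κ - μ ^ 2 * d.q z := by linarith
    nlinarith
  have g6 := (abs_le.mp g2).1
  have e : p * (b' * p) + r * (b' * r) + κ * (t * b)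
      + μ * ((d.ax z * p + d.ay z * r) * b - t * (d.ax z * (b' * p) + d.ay z * (b' * r)))
      - μ ^ 2 * (d.q z * t * b) = b' * (p ^ 2 + r ^ 2) + (κ - μ ^ 2 * d.q z) * (t * b)
        + μ * ((d.ax z * p + d.ay z * r) * (b - t * b')) := by ring
  rw [e]
  have e2 : δ * (|t| + M * d.K * (|p| + |r|)) = δ * |t| + M * (d.K * (|p| + |r|) * δ) := by ring
  rw [e2]
  linarith

/-- **Positivity of `G`.** -/
theorem G_pos {κ μ M : ℝ} (hμ : |μ| ≤ M) (hκ : 1 + M ^ 2 * d.K ^ 2 ≤ κ) : Pos (G Ω d κ μ) := by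
  intro f hf
  have hκ0 : 0 < κ := by
    have : 0 ≤ M ^ 2 * d.K ^ 2 := by positivity
    linarith
  set u := uu Ω d κ μ f with hu
  rw [← uu_D]
  have hT : 0 ≤ ‖T Ω d κ μ‖ := ContinuousLinearMap.opNorm_nonneg _
  set C := ‖T Ω d κ μ‖ * (‖u‖ + 1) + 1 with hC
  have hC0 : 0 ≤ C := by positivity
  have hclosed : IsClosed {g : L2 | 0 ≤ g} := isClosed_Ici
  have hmem : D Ω 0 u ∈ closure {g : L2 | 0 ≤ g} := by
    rw [Metric.mem_closure_iff]
    intro η hη
    obtain ⟨ε, hε0, hε1, hε⟩ : ∃ ε : ℝ, 0 < ε ∧ ε ≤ 1 ∧ ε + √(C * ε) < η := by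
      have hc : Continuous (fun ε : ℝ => ε + √(C * ε)) := by fun_prop
      have h0 : Tendsto (fun ε : ℝ => ε + √(C * ε)) (𝓝[>] 0) (𝓝 0) := by
        have := hc.tendsto 0
        simp only [mul_zero, Real.sqrt_zero, add_zero] at this
        exact this.mono_left nhdsWithin_le_nhds
      have h1 := (h0.eventually (gt_mem_nhds hη)).and
        ((Ioc_mem_nhdsGT (zero_lt_one' ℝ)) : ∀ᶠ ε in 𝓝[>] (0 : ℝ), ε ∈ Ioc (0 : ℝ) 1)
      obtain ⟨ε, h2, h3⟩ := h1.exists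
      exact ⟨ε, h3.1, h3.2, h2⟩
    obtain ⟨φ, hφ, hd⟩ := approx u hε0
    set I := ∫ z in tsupport φ, (f : ℂ → ℝ) z with hI
    set J := ∫ z, (|φ z| + M * d.K * (|gx φ z| + |gy φ z|)) with hJ
    obtain ⟨δ, hδp, hδ⟩ : ∃ δ : ℝ, 0 < δ ∧ δ * (κ * |I| + |J|) ≤ ε := by
      refine ⟨ε / (κ * |I| + |J| + 1), by positivity, ?_⟩
      rw [div_mul_eq_mul_div, div_le_iff₀ (by positivity)]
      nlinarith [mul_nonneg hκ0.le (abs_nonneg I), abs_nonneg J]
    have hψ := hφ.comp_smooth (bm_smooth hδp) (bm_zero hδp)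
    have h1 := form_ge (d := d) hμ hκ hφ hδp
    have h2 := uu_T (Ω := Ω) hμ hκ f (jv hψ)
    rw [← hu, (D_jv hψ).1] at h2
    have h4 : inner ℝ f (cls fun z => bm δ (φ z)) ≤ δ * |I| := by
      have e : inner ℝ f (cls fun z => bm δ (φ z)) = ∫ z, (f : ℂ → ℝ) z * bm δ (φ z) := by
        rw [← inner_cls (Lp.memLp f) hψ.memLp, cls_self]
      rw [e]
      haveI : IsFiniteMeasure (volume.restrict (tsupport φ)) :=
        ⟨by rw [Measure.restrict_apply_univ]; exact hφ.comp.measure_lt_top⟩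
      have hms : MeasurableSet (tsupport φ) := (isClosed_tsupport φ).measurableSet
      have hfi : IntegrableOn (fun z => (f : ℂ → ℝ) z) (tsupport φ) :=
        ((Lp.memLp f).restrict (tsupport φ)).integrable one_le_two
      have hle : ∫ z, (f : ℂ → ℝ) z * bm δ (φ z) ≤
          ∫ z, (tsupport φ).indicator (fun z => δ * (f : ℂ → ℝ) z) z := by
        refine integral_mono_ae (int_mul (Lp.memLp f) hψ.memLp)
          ((integrable_indicator_iff hms).mpr (hfi.const_mul δ)) ?_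
        filter_upwards [(Lp.coeFn_nonneg f).mpr hf] with z hz
        by_cases hzs : z ∈ tsupport φ
        · rw [indicator_of_mem hzs, mul_comm δ]
          exact mul_le_mul_of_nonneg_left (bm_facts hδp (φ z)).2.2.2.1 hz
        · rw [indicator_of_notMem hzs, image_eq_zero_of_notMem_tsupport hzs, bm_zero hδp, mul_zero]
      refine hle.trans ?_
      rw [integral_indicator hms, integral_const_mul]
      exact mul_le_mul_of_nonneg_left (le_abs_self _) hδp.le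
    have h5 : inner ℝ (T Ω d κ μ (jv hφ)) (jv hψ) ≤ κ * (δ * |I|) + ‖T Ω d κ μ‖ * ε * (‖u‖ + 1) := by
      have e : T Ω d κ μ (jv hφ) = T Ω d κ μ u + T Ω d κ μ (jv hφ - u) := by
        rw [map_sub]; abel
      rw [e, inner_add_left, h2]
      refine add_le_add (mul_le_mul_of_nonneg_left h4 hκ0.le) ?_
      refine (real_inner_le_norm _ _).trans ?_
      refine mul_le_mul ?_ ?_ (norm_nonneg _) (by positivity)
      · exact ((T Ω d κ μ).le_opNorm _).trans (mul_le_mul_of_nonneg_left hd.le hT)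
      · refine (norm_bm_le hφ hδp).trans ?_
        calc ‖jv hφ‖ = ‖(jv hφ - u) + u‖ := by rw [sub_add_cancel]
          _ ≤ ‖jv hφ - u‖ + ‖u‖ := norm_add_le _ _
          _ ≤ ‖u‖ + 1 := by linarith
    have h6 : ∫ z, (min (φ z) 0) ^ 2 ≤ C * ε := by
      have h7 : δ * J ≤ δ * |J| := mul_le_mul_of_nonneg_left (le_abs_self _) hδp.le
      have h8 : (∫ z, (min (φ z) 0) ^ 2) ≤ δ * J + (κ * (δ * |I|) + ‖T Ω d κ μ‖ * ε * (‖u‖ + 1)) := by
        linarith
      have e : C * ε = ‖T Ω d κ μ‖ * ε * (‖u‖ + 1) + ε := by rw [hC]; ring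
      rw [e]
      nlinarith
    -- the positive part
    have cp : Continuous (fun z => max (φ z) 0) := hφ.cont.max continuous_const
    have cm : Continuous (fun z => min (φ z) 0) := hφ.cont.min continuous_const
    have sp : HasCompactSupport (fun z => max (φ z) 0) := hφ.comp.mono (by
      intro z hz
      rw [Function.mem_support] at hz ⊢
      intro h0; apply hz; rw [h0]; simp)
    have sm : HasCompactSupport (fun z => min (φ z) 0) := hφ.comp.mono (by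
      intro z hz
      rw [Function.mem_support] at hz ⊢
      intro h0; apply hz; rw [h0]; simp)
    have mp : MemLp (fun z => max (φ z) 0) 2 (volume : Measure ℂ) := cp.memLp_of_hasCompactSupport sp
    have mm : MemLp (fun z => min (φ z) 0) 2 (volume : Measure ℂ) := cm.memLp_of_hasCompactSupport sm
    refine ⟨cls fun z => max (φ z) 0, ?_, ?_⟩
    · show 0 ≤ cls fun z => max (φ z) 0
      rw [← Lp.coeFn_nonneg]
      filter_upwards [cls_coe mp] with z hz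
      rw [hz]; exact le_max_right _ _
    · have e1 : cls φ - (cls fun z => max (φ z) 0) = cls fun z => min (φ z) 0 := by
        rw [← cls_sub hφ.memLp mp]
        congr 1
        funext z
        rcases le_total (φ z) 0 with h | h
        · rw [max_eq_right h, min_eq_left h, sub_zero]
        · rw [max_eq_left h, min_eq_right h, sub_self]
      have e2 : ‖cls fun z => min (φ z) 0‖ ≤ √(C * ε) := by
        apply Real.le_sqrt_of_sq_le
        rw [← real_inner_self_eq_norm_sq, inner_cls mm mm]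
        refine le_trans (le_of_eq ?_) h6
        congr 1
        funext z; ring
      have e3 : ‖D Ω 0 u - cls φ‖ ≤ ε := by
        have := norm_D_le (jv hφ - u) 0
        rw [map_sub, (D_jv hφ).1, norm_sub_rev] at this
        exact this.trans hd.le
      rw [dist_eq_norm]
      calc ‖D Ω 0 u - cls fun z => max (φ z) 0‖
          = ‖(D Ω 0 u - cls φ) + (cls φ - (cls fun z => max (φ z) 0))‖ := by rw [sub_add_sub_cancel]
        _ ≤ ‖D Ω 0 u - cls φ‖ + ‖cls φ - (cls fun z => max (φ z) 0)‖ := norm_add_le _ _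
        _ ≤ ε + √(C * ε) := by rw [e1]; exact add_le_add e3 e2
        _ < η := hε
  rw [hclosed.closure_eq] at hmem
  exact hmem

end Pool.Agent.TH340.SH
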