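import Pool.Agent.TH340.SH.Op

/-!
The space `H₀¹` of a bounded plane open set (real functions) as a closed space of jets, bounded
multiplication operators, and the operator of the form
`B_μ(u, v) = ∫ ∇u∇v + μ ∫ (v A·∇u - u A·∇v) - μ² ∫ Q u v + κ ∫ u v`.
-/

set_option autoImplicit false

open MeasureTheory Set Filter Topology Metric

namespace Pool.Agent.TH340.SH

open Pool.Agent.Helper533.StarBox

noncomputable abbrev E3 := PiLp 2 (fun _ : Fin 3 => L2)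

/-- the jet of a test function -/
noncomputable def jet (φ : ℂ → ℝ) : E3 := WithLp.toLp 2 ![cls φ, cls (gx φ), cls (gy φ)]

theorem jet_zero (φ : ℂ → ℝ) : (jet φ).ofLp 0 = cls φ := rfl
theorem jet_one (φ : ℂ → ℝ) : (jet φ).ofLp 1 = cls (gx φ) := rfl
theorem jet_two (φ : ℂ → ℝ) : (jet φ).ofLp 2 = cls (gy φ) := rfl

theorem jet_add {Ω : Set ℂ} {u v : ℂ → ℝ} (hu : TF Ω u) (hv : TF Ω v) :
    jet (fun z => u z + v z) = jet u + jet v := by
  have e1 : gx (fun z => u z + v z) = fun z => gx u z + gx v z :=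
    funext fun z => gx_add (hu.diff z) (hv.diff z)
  have e2 : gy (fun z => u z + v z) = fun z => gy u z + gy v z :=
    funext fun z => gy_add (hu.diff z) (hv.diff z)
  apply PiLp.ext
  intro i
  fin_cases i
  · show cls (fun z => u z + v z) = cls u + cls v
    exact cls_add hu.memLp hv.memLp
  · show cls (gx fun z => u z + v z) = cls (gx u) + cls (gx v)
    rw [e1, cls_add hu.gx_tf.memLp hv.gx_tf.memLp]
  · show cls (gy fun z => u z + v z) = cls (gy u) + cls (gy v)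
    rw [e2, cls_add hu.gy_tf.memLp hv.gy_tf.memLp]

theorem jet_smul {Ω : Set ℂ} {u : ℂ → ℝ} (c : ℝ) (hu : TF Ω u) :
    jet (fun z => c * u z) = c • jet u := by
  have e1 : gx (fun z => c * u z) = fun z => c * gx u z :=
    funext fun z => gx_smul c (hu.diff z)
  have e2 : gy (fun z => c * u z) = fun z => c * gy u z :=
    funext fun z => gy_smul c (hu.diff z)
  apply PiLp.ext
  intro i
  fin_cases i
  · show cls (fun z => c * u z) = c • cls u
    exact cls_smul c hu.memLp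
  · show cls (gx fun z => c * u z) = c • cls (gx u)
    rw [e1, cls_smul c hu.gx_tf.memLp]
  · show cls (gy fun z => c * u z) = c • cls (gy u)
    rw [e2, cls_smul c hu.gy_tf.memLp]

/-- jets of test functions -/
noncomputable def S0 (Ω : Set ℂ) : Submodule ℝ E3 where
  carrier := {v | ∃ φ, TF Ω φ ∧ v = jet φ}
  add_mem' := by
    rintro _ _ ⟨u, hu, rfl⟩ ⟨v, hv, rfl⟩
    exact ⟨_, hu.add hv, (jet_add hu hv).symm⟩
  zero_mem' := by
    refine ⟨fun _ => 0, TF.zero Ω, ?_⟩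
    have h := jet_smul 0 (TF.zero Ω)
    simp only [zero_mul, zero_smul] at h
    exact h.symm
  smul_mem' := by
    rintro c _ ⟨u, hu, rfl⟩
    exact ⟨_, hu.smul c, (jet_smul c hu).symm⟩

/-- `H₀¹` -/
noncomputable def VS (Ω : Set ℂ) : Submodule ℝ E3 := (S0 Ω).topologicalClosure

noncomputable abbrev V (Ω : Set ℂ) := ↥(VS Ω)

instance (Ω : Set ℂ) : CompleteSpace (V Ω) :=
  (Submodule.isClosed_topologicalClosure (S0 Ω)).completeSpace_coe

/-- the jet of a test function as an element of `H₀¹` -/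
noncomputable def jv {Ω : Set ℂ} {φ : ℂ → ℝ} (h : TF Ω φ) : V Ω :=
  ⟨jet φ, (S0 Ω).le_topologicalClosure ⟨φ, h, rfl⟩⟩

theorem approx {Ω : Set ℂ} (v : V Ω) {ε : ℝ} (hε : 0 < ε) :
    ∃ φ, ∃ h : TF Ω φ, ‖jv h - v‖ < ε := by
  have hv : (v : E3) ∈ closure ((S0 Ω : Submodule ℝ E3) : Set E3) := v.2
  rw [Metric.mem_closure_iff] at hv
  obtain ⟨w, ⟨φ, hφ, rfl⟩, hd⟩ := hv ε hε
  refine ⟨φ, hφ, ?_⟩
  rw [dist_comm, dist_eq_norm] at hd
  exact hd

/-- components -/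
noncomputable def D (Ω : Set ℂ) (i : Fin 3) : V Ω →L[ℝ] L2 :=
  (PiLp.proj 2 (fun _ : Fin 3 => L2) i).comp (VS Ω).subtypeL

theorem D_jv {Ω : Set ℂ} {φ : ℂ → ℝ} (h : TF Ω φ) :
    D Ω 0 (jv h) = cls φ ∧ D Ω 1 (jv h) = cls (gx φ) ∧ D Ω 2 (jv h) = cls (gy φ) := ⟨rfl, rfl, rfl⟩

theorem norm_sq {Ω : Set ℂ} (v : V Ω) :
    ‖v‖ ^ 2 = ‖D Ω 0 v‖ ^ 2 + ‖D Ω 1 v‖ ^ 2 + ‖D Ω 2 v‖ ^ 2 := by
  have h := PiLp.norm_sq_eq_of_L2 (fun _ : Fin 3 => L2) (v : E3)
  rw [Fin.sum_univ_three] at h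
  exact h

theorem norm_D_le {Ω : Set ℂ} (v : V Ω) (i : Fin 3) : ‖D Ω i v‖ ≤ ‖v‖ := by
  have h := norm_sq v
  refine abs_le_of_sq_le_sq' ?_ (norm_nonneg _) |>.2
  rw [h]
  fin_cases i <;> simp only [Fin.zero_eta, Fin.mk_one, Fin.reduceFinMk] <;>
    nlinarith [sq_nonneg ‖D Ω 0 v‖, sq_nonneg ‖D Ω 1 v‖, sq_nonneg ‖D Ω 2 v‖]

/-- bounded multiplier -/
structure Bd (m : ℂ → ℝ) (K : ℝ) : Prop where
  meas : Measurable m
  bd : ∀ z, |m z| ≤ K

theorem Bd.nonneg {m : ℂ → ℝ} {K : ℝ} (h : Bd m K) : 0 ≤ K := (abs_nonneg _).trans (h.bd 0)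

theorem Bd.memLp {m : ℂ → ℝ} {K : ℝ} (h : Bd m K) {f : ℂ → ℝ} (hf : MemLp f 2 (volume : Measure ℂ)) :
    MemLp (fun z => m z * f z) 2 (volume : Measure ℂ) := by
  refine MemLp.of_le_mul (c := K) hf (h.meas.aestronglyMeasurable.mul hf.1) ?_
  refine Eventually.of_forall fun z => ?_
  rw [norm_mul]
  exact mul_le_mul_of_nonneg_right (h.bd z) (norm_nonneg _)

/-- multiplication operator -/
noncomputable def mulOp {m : ℂ → ℝ} {K : ℝ} (h : Bd m K) : L2 →L[ℝ] L2 :=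
  LinearMap.mkContinuous
    { toFun := fun f => cls (fun z => m z * (f : ℂ → ℝ) z)
      map_add' := by
        intro f g
        rw [← cls_add (h.memLp (Lp.memLp f)) (h.memLp (Lp.memLp g))]
        symm
        apply cls_eq_of_ae
        refine (cls_coe ((h.memLp (Lp.memLp f)).add (h.memLp (Lp.memLp g)))).trans ?_
        filter_upwards [Lp.coeFn_add f g] with z hz
        rw [hz]; simp only [Pi.add_apply]; ring
      map_smul' := by
        intro c f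
        rw [RingHom.id_apply, ← cls_smul c (h.memLp (Lp.memLp f))]
        symm
        apply cls_eq_of_ae
        refine (cls_coe ((h.memLp (Lp.memLp f)).const_mul c)).trans ?_
        filter_upwards [Lp.coeFn_smul c f] with z hz
        rw [hz]; simp only [Pi.smul_apply, smul_eq_mul]; ring } K (by
      intro f
      show ‖cls (fun z => m z * (f : ℂ → ℝ) z)‖ ≤ K * ‖f‖
      have h1 : ‖cls (fun z => m z * (f : ℂ → ℝ) z)‖ ≤ ‖cls (fun z => K * (f : ℂ → ℝ) z)‖ := by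
        apply norm_cls_le (h.memLp (Lp.memLp f)) ((Lp.memLp f).const_mul K)
        refine Eventually.of_forall fun z => ?_
        rw [abs_mul, abs_mul, abs_of_nonneg h.nonneg]
        exact mul_le_mul_of_nonneg_right (h.bd z) (abs_nonneg _)
      rw [cls_smul K (Lp.memLp f), cls_self, norm_smul, Real.norm_of_nonneg h.nonneg] at h1
      exact h1)

theorem mulOp_cls {m : ℂ → ℝ} {K : ℝ} (h : Bd m K) {f : ℂ → ℝ} (hf : MemLp f 2 (volume : Measure ℂ)) :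
    mulOp h (cls f) = cls (fun z => m z * f z) := by
  show cls (fun z => m z * (cls f : ℂ → ℝ) z) = _
  apply cls_eq_of_ae
  refine (cls_coe (h.memLp (Lp.memLp _))).trans ?_
  filter_upwards [cls_coe hf] with z hz
  rw [hz]

theorem mulOp_norm {m : ℂ → ℝ} {K : ℝ} (h : Bd m K) (f : L2) : ‖mulOp h f‖ ≤ K * ‖f‖ :=
  ((mulOp h).le_opNorm f).trans
    (mul_le_mul_of_nonneg_right (LinearMap.mkContinuous_norm_le _ h.nonneg _) (norm_nonneg _))

/-- the data: multipliers `ax`, `ay`, `q` -/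
structure Dat where
  ax : ℂ → ℝ
  ay : ℂ → ℝ
  q : ℂ → ℝ
  K : ℝ
  hx : Bd ax K
  hy : Bd ay K
  hq : Bd q (K ^ 2)

variable (Ω : Set ℂ) (d : Dat)

noncomputable def Z : V Ω →L[ℝ] L2 := (mulOp d.hx).comp (D Ω 1) + (mulOp d.hy).comp (D Ω 2)

open ContinuousLinearMap in
noncomputable def P0 (κ : ℝ) : V Ω →L[ℝ] V Ω :=
  (adjoint (D Ω 1)).comp (D Ω 1) + (adjoint (D Ω 2)).comp (D Ω 2) + κ • (adjoint (D Ω 0)).comp (D Ω 0)

open ContinuousLinearMap in
noncomputable def P1 : V Ω →L[ℝ] V Ω :=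
  (adjoint (D Ω 0)).comp (Z Ω d) - (adjoint (Z Ω d)).comp (D Ω 0)

open ContinuousLinearMap in
noncomputable def P2 : V Ω →L[ℝ] V Ω :=
  (adjoint (D Ω 0)).comp ((mulOp d.hq).comp (D Ω 0))

noncomputable def T (κ μ : ℝ) : V Ω →L[ℝ] V Ω := P0 Ω κ + μ • P1 Ω d - μ ^ 2 • P2 Ω d

theorem T_inner (κ μ : ℝ) (v w : V Ω) :
    inner ℝ (T Ω d κ μ v) w = inner ℝ (D Ω 1 v) (D Ω 1 w) + inner ℝ (D Ω 2 v) (D Ω 2 w)
      + κ * inner ℝ (D Ω 0 v) (D Ω 0 w)
      + μ * (inner ℝ (Z Ω d v) (D Ω 0 w) - inner ℝ (D Ω 0 v) (Z Ω d w))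
      - μ ^ 2 * inner ℝ (mulOp d.hq (D Ω 0 v)) (D Ω 0 w) := by
  have hs : ∀ (c : ℝ) (x y : V Ω), inner ℝ (c • x) y = c * inner ℝ x y :=
    fun c x y => real_inner_smul_left x y c
  have e : T Ω d κ μ v = ContinuousLinearMap.adjoint (D Ω 1) (D Ω 1 v)
      + ContinuousLinearMap.adjoint (D Ω 2) (D Ω 2 v)
      + κ • ContinuousLinearMap.adjoint (D Ω 0) (D Ω 0 v)
      + μ • (ContinuousLinearMap.adjoint (D Ω 0) (Z Ω d v) - ContinuousLinearMap.adjoint (Z Ω d) (D Ω 0 v))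
      - μ ^ 2 • ContinuousLinearMap.adjoint (D Ω 0) (mulOp d.hq (D Ω 0 v)) := rfl
  rw [e, inner_sub_left, inner_add_left, inner_add_left, inner_add_left, hs, hs, hs, inner_sub_left,
    ContinuousLinearMap.adjoint_inner_left, ContinuousLinearMap.adjoint_inner_left,
    ContinuousLinearMap.adjoint_inner_left, ContinuousLinearMap.adjoint_inner_left,
    ContinuousLinearMap.adjoint_inner_left, ContinuousLinearMap.adjoint_inner_left]

theorem T_coercive {κ μ M : ℝ} (hμ : |μ| ≤ M) (hκ : 1 + M ^ 2 * d.K ^ 2 ≤ κ) (v : V Ω) :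
    ‖v‖ ^ 2 ≤ inner ℝ (T Ω d κ μ v) v := by
  rw [T_inner, real_inner_self_eq_norm_sq, real_inner_self_eq_norm_sq, real_inner_self_eq_norm_sq,
    norm_sq v, real_inner_comm (D Ω 0 v) (Z Ω d v), sub_self, mul_zero, add_zero]
  have h1 : inner ℝ (mulOp d.hq (D Ω 0 v)) (D Ω 0 v) ≤ d.K ^ 2 * ‖D Ω 0 v‖ ^ 2 := by
    refine (real_inner_le_norm _ _).trans ?_
    calc _ ≤ (d.K ^ 2 * ‖D Ω 0 v‖) * ‖D Ω 0 v‖ :=
          mul_le_mul_of_nonneg_right (mulOp_norm d.hq _) (norm_nonneg _)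
      _ = _ := by ring
  have h2 : μ ^ 2 ≤ M ^ 2 := by
    have := abs_nonneg μ
    rw [← sq_abs μ]; nlinarith
  have h3 : μ ^ 2 * inner ℝ (mulOp d.hq (D Ω 0 v)) (D Ω 0 v) ≤ M ^ 2 * (d.K ^ 2 * ‖D Ω 0 v‖ ^ 2) :=
    (mul_le_mul_of_nonneg_left h1 (sq_nonneg μ)).trans
      (mul_le_mul_of_nonneg_right h2 (by positivity))
  have h4 : (1 + M ^ 2 * d.K ^ 2) * ‖D Ω 0 v‖ ^ 2 ≤ κ * ‖D Ω 0 v‖ ^ 2 :=
    mul_le_mul_of_nonneg_right hκ (sq_nonneg _)
  nlinarith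

/-- Lax–Milgram -/
theorem exists_inv {W : Type*} [NormedAddCommGroup W] [InnerProductSpace ℝ W] [CompleteSpace W]
    (A : W →L[ℝ] W) (h : ∀ v, ‖v‖ ^ 2 ≤ inner ℝ (A v) v) :
    ∃ S : W →L[ℝ] W, (∀ v, A (S v) = v) ∧ (∀ v, S (A v) = v) ∧ ∀ v, ‖S v‖ ≤ ‖v‖ := by
  set B : W →L[ℝ] W →L[ℝ] ℝ := (innerSL ℝ).comp A with hB
  have hc : IsCoercive B := by
    refine ⟨1, zero_lt_one, fun u => ?_⟩
    have := h u
    show 1 * ‖u‖ * ‖u‖ ≤ inner ℝ (A u) u
    nlinarith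
  set e := hc.continuousLinearEquivOfBilin with he
  have heA : ∀ v, e v = A v := by
    intro v
    refine ext_inner_right ℝ fun w => ?_
    rw [he, hc.continuousLinearEquivOfBilin_apply]
    rfl
  have h1 : ∀ v, A (e.symm v) = v := fun v => by rw [← heA, e.apply_symm_apply]
  refine ⟨(e.symm : W →L[ℝ] W), h1, fun v => ?_, fun v => ?_⟩
  · show e.symm (A v) = v
    rw [← heA, e.symm_apply_apply]
  · show ‖e.symm v‖ ≤ ‖v‖
    have h2 := h (e.symm v)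
    rw [h1] at h2
    have h3 := real_inner_le_norm v (e.symm v)
    rcases eq_or_lt_of_le (norm_nonneg (e.symm v)) with h4 | h4
    · rw [← h4]; exact norm_nonneg _
    · nlinarith

end Pool.Agent.TH340.SH
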