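import Mathlib

/-!
For a pencil `S₀ + w S₁` of compact operators such that `S₀` has a nonzero eigenvalue, almost every
operator of the pencil has a nonzero eigenvalue (Jensen's formula).
-/

set_option autoImplicit false

open MeasureTheory Set Filter Topology Metric

namespace Pool.Agent.TH340.SH

theorem jensen_ge {q : ℂ → ℂ} (hq : Differentiable ℂ q) (h0 : q 0 ≠ 0) {ρ : ℝ} (hρ : 0 < ρ) :
    Real.log ‖q 0‖ ≤ Real.circleAverage (fun x => Real.log ‖q x‖) 0 ρ := by
  have ha : AnalyticOnNhd ℂ q (closedBall 0 |ρ|) := fun z _ => hq.analyticAt z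
  rw [ha.circleAverage_log_norm hρ.ne' h0]
  have : 0 ≤ ∑ᶠ (u : ℂ), ((MeromorphicOn.divisor q (closedBall 0 |ρ|)) u : ℝ) * Real.log (ρ * ‖0 - u‖⁻¹) := by
    apply finsum_nonneg
    intro u
    by_cases hu : u ∈ closedBall (0 : ℂ) |ρ|
    · have h1 : (0 : ℤ) ≤ (MeromorphicOn.divisor q (closedBall 0 |ρ|)) u :=
        MeromorphicOn.AnalyticOnNhd.divisor_nonneg ha u
      by_cases hu0 : u = 0
      · rw [hu0]; simp
      · refine mul_nonneg (by exact_mod_cast h1) (Real.log_nonneg ?_)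
        rw [mem_closedBall, dist_zero_right, abs_of_pos hρ] at hu
        rw [zero_sub, norm_neg]
        have hu1 : 0 < ‖u‖ := norm_pos_iff.mpr hu0
        rw [← div_eq_mul_inv, le_div_iff₀ hu1, one_mul]
        exact hu
    · have : (MeromorphicOn.divisor q (closedBall 0 |ρ|)) u = 0 :=
        Function.locallyFinsuppWithin.apply_eq_zero_of_notMem _ hu
      rw [this]; simp
  linarith

theorem ae_ne_zero {q : ℂ → ℂ} (hq : Differentiable ℂ q) (h0 : q 0 ≠ 0) {ρ : ℝ} (hρ : 0 < ρ) :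
    ∀ᵐ θ : ℝ, q (circleMap 0 ρ θ) ≠ 0 := by
  have ha : AnalyticOnNhd ℂ q univ := fun z _ => hq.analyticAt z
  have h1 : q ⁻¹' {0}ᶜ ∈ codiscrete ℂ := ha.preimage_zero_mem_codiscrete (x := 0) h0
  have h2 : q ⁻¹' {0}ᶜ ∈ codiscreteWithin (sphere (0 : ℂ) |ρ|) := codiscreteWithin_mono (subset_univ _) h1
  have h3 := circleMap_preimage_codiscrete (c := (0 : ℂ)) hρ.ne' h2
  have h4 := ae_restrict_le_codiscreteWithin (μ := (volume : Measure ℝ)) MeasurableSet.univ h3
  rw [Measure.restrict_univ] at h4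
  exact h4

variable {H : Type*} [NormedAddCommGroup H] [InnerProductSpace ℂ H] [CompleteSpace H]

/-- super-exponential decay of the powers -/
def Bad (S0 S1 : H →L[ℂ] H) : Set ℂ :=
  {w | ∀ A : ℕ, ∃ n0 : ℕ, ∀ n ≥ n0, ‖(S0 + w • S1) ^ n‖ ≤ Real.exp (-(A * n))}

theorem cont_pow (S0 S1 : H →L[ℂ] H) (n : ℕ) : Continuous fun w : ℂ => ‖(S0 + w • S1) ^ n‖ := by
  fun_prop

theorem Bad_meas (S0 S1 : H →L[ℂ] H) : MeasurableSet (Bad S0 S1) := by
  have : Bad S0 S1 = ⋂ A : ℕ, ⋃ n0 : ℕ, ⋂ n ∈ Ici n0,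
      {w | ‖(S0 + w • S1) ^ n‖ ≤ Real.exp (-(A * n))} := by
    ext w; simp [Bad]
  rw [this]
  refine MeasurableSet.iInter fun A => MeasurableSet.iUnion fun n0 => ?_
  refine MeasurableSet.biInter (to_countable _) fun n _ => ?_
  exact (isClosed_le (cont_pow S0 S1 n) continuous_const).measurableSet

theorem null_circle {S0 S1 : H →L[ℂ] H} {lam : ℂ} (hl : lam ≠ 0) {f : H} (hf : ‖f‖ = 1)
    (he : S0 f = lam • f) {ρ : ℝ} (hρ : 0 < ρ) :
    volume {θ : ℝ | θ ∈ Ioc 0 (2 * Real.pi) ∧ circleMap 0 ρ θ ∈ Bad S0 S1} = 0 := by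
  by_contra hne
  set B := {θ : ℝ | θ ∈ Ioc 0 (2 * Real.pi) ∧ circleMap 0 ρ θ ∈ Bad S0 S1} with hB
  have hfin : volume B ≠ ⊤ := by
    refine ne_top_of_le_ne_top ?_ (measure_mono (fun θ h => h.1 : B ⊆ Ioc 0 (2 * Real.pi)))
    rw [Real.volume_Ioc]; exact ENNReal.ofReal_ne_top
  set δ := (volume B).toReal with hδ
  have hδ0 : 0 < δ := ENNReal.toReal_pos hne hfin
  set C := ‖S0‖ + ρ * ‖S1‖ + 1 with hC
  have hC1 : 1 ≤ C := by
    have := norm_nonneg S0
    have := mul_nonneg hρ.le (norm_nonneg S1)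
    linarith
  have hpi := Real.pi_pos
  obtain ⟨A, hA⟩ := exists_nat_gt (2 * (2 * Real.pi * (Real.log C - Real.log ‖lam‖)) / δ)
  -- the sets
  set F : ℕ → Set ℝ := fun n0 => {θ : ℝ | θ ∈ Ioc 0 (2 * Real.pi) ∧
    ∀ n ≥ n0, ‖(S0 + circleMap 0 ρ θ • S1) ^ n‖ ≤ Real.exp (-(A * n))} with hF
  have hFm : ∀ n0, MeasurableSet (F n0) := by
    intro n0
    have : F n0 = Ioc 0 (2 * Real.pi) ∩ ⋂ n ∈ Ici n0,
        {θ : ℝ | ‖(S0 + circleMap 0 ρ θ • S1) ^ n‖ ≤ Real.exp (-(A * n))} := by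
      ext θ; simp [hF]
    rw [this]
    refine measurableSet_Ioc.inter (MeasurableSet.biInter (to_countable _) fun n _ => ?_)
    have hc : Continuous fun θ : ℝ => ‖(S0 + circleMap 0 ρ θ • S1) ^ n‖ :=
      (cont_pow S0 S1 n).comp (continuous_circleMap 0 ρ)
    exact (isClosed_le hc continuous_const).measurableSet
  have hmono : Monotone F := by
    intro a b hab θ hθ
    exact ⟨hθ.1, fun n hn => hθ.2 n (hab.trans hn)⟩
  have hsub : B ⊆ ⋃ n0, F n0 := by
    intro θ hθ
    obtain ⟨n0, hn0⟩ := hθ.2 A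
    exact mem_iUnion.mpr ⟨n0, hθ.1, hn0⟩
  obtain ⟨n0, hn0⟩ : ∃ n0, ENNReal.ofReal (δ / 2) < volume (F n0) := by
    have h1 := tendsto_measure_iUnion_atTop (μ := volume) hmono
    have h2 : ENNReal.ofReal (δ / 2) < volume (⋃ n0, F n0) := by
      refine lt_of_lt_of_le ?_ (measure_mono hsub)
      rw [← ENNReal.ofReal_toReal hfin]
      exact (ENNReal.ofReal_lt_ofReal_iff hδ0).mpr (by linarith)
    obtain ⟨n0, h3⟩ := (h1.eventually (lt_mem_nhds h2)).exists
    exact ⟨n0, h3⟩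
  set n := n0 + 1 with hn
  have hFn : F n0 ⊆ F n := hmono (Nat.le_succ _)
  have hFsub : F n ⊆ Ioc 0 (2 * Real.pi) := fun θ h => h.1
  have hFfin : volume (F n) ≠ ⊤ := by
    refine ne_top_of_le_ne_top ?_ (measure_mono hFsub)
    rw [Real.volume_Ioc]; exact ENNReal.ofReal_ne_top
  have hFvol : δ / 2 ≤ (volume (F n)).toReal := by
    have h1 : ENNReal.ofReal (δ / 2) ≤ volume (F n) := hn0.le.trans (measure_mono hFn)
    rw [← ENNReal.ofReal_le_ofReal_iff ENNReal.toReal_nonneg, ENNReal.ofReal_toReal hFfin]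
    exact h1
  -- the scalar function
  set q : ℂ → ℂ := fun w => inner ℂ f (((S0 + w • S1) ^ n) f) with hq
  have hqd : Differentiable ℂ q := by
    have h1 : Differentiable ℂ fun w : ℂ => (S0 + w • S1) ^ n := by fun_prop
    have h2 : Differentiable ℂ fun w : ℂ => ((S0 + w • S1) ^ n) f :=
      h1.clm_apply (differentiable_const f)
    exact (innerSL ℂ f).differentiable.comp h2
  have hpow : ∀ k : ℕ, (S0 ^ k) f = lam ^ k • f := by
    intro k
    induction k with
    | zero => simp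
    | succ k ih =>
      rw [pow_succ']
      show S0 ((S0 ^ k) f) = _
      rw [ih, map_smul, he, smul_smul, pow_succ]
  have hq0 : q 0 = lam ^ n := by
    show inner ℂ f (((S0 + (0 : ℂ) • S1) ^ n) f) = _
    rw [zero_smul, add_zero, hpow, inner_smul_right, inner_self_eq_norm_sq_to_K, hf]
    simp
  have hq0' : q 0 ≠ 0 := by rw [hq0]; exact pow_ne_zero _ hl
  have hqle : ∀ w, ‖q w‖ ≤ ‖(S0 + w • S1) ^ n‖ := by
    intro w
    calc ‖q w‖ ≤ ‖f‖ * ‖((S0 + w • S1) ^ n) f‖ := norm_inner_le_norm _ _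
      _ ≤ ‖f‖ * (‖(S0 + w • S1) ^ n‖ * ‖f‖) :=
          mul_le_mul_of_nonneg_left (ContinuousLinearMap.le_opNorm _ _) (norm_nonneg _)
      _ = _ := by rw [hf]; ring
  have hj := jensen_ge hqd hq0' hρ
  rw [hq0, norm_pow, Real.log_pow] at hj
  have hci : CircleIntegrable (fun x => Real.log ‖q x‖) 0 ρ :=
    MeromorphicOn.circleIntegrable_log_norm (fun z _ => (hqd.analyticAt z).meromorphicAt)
  have hii : IntervalIntegrable (fun θ => Real.log ‖q (circleMap 0 ρ θ)‖) volume 0 (2 * Real.pi) := hci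
  rw [Real.circleAverage] at hj
  have hle2 : (0 : ℝ) ≤ 2 * Real.pi := by positivity
  -- upper bound
  have hnz := ae_ne_zero hqd hq0' hρ
  have hupper : ∫ θ in (0 : ℝ)..(2 * Real.pi), Real.log ‖q (circleMap 0 ρ θ)‖ ≤
      -(A * n) * (volume (F n)).toReal + 2 * Real.pi * (n * Real.log C) := by
    rw [intervalIntegral.integral_of_le hle2]
    have hI : IntegrableOn (fun θ => Real.log ‖q (circleMap 0 ρ θ)‖) (Ioc 0 (2 * Real.pi)) := hii.1
    have hlC : 0 ≤ (n : ℝ) * Real.log C := mul_nonneg (Nat.cast_nonneg _) (Real.log_nonneg hC1)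
    have hind : Integrable ((F n).indicator fun _ => (-(A * n) : ℝ)) (volume.restrict (Ioc 0 (2 * Real.pi))) :=
      (integrable_const _).indicator (hFm n)
    have hG : Integrable (fun θ => (F n).indicator (fun _ => (-(A * n) : ℝ)) θ + n * Real.log C)
        (volume.restrict (Ioc 0 (2 * Real.pi))) := hind.add (integrable_const _)
    have hmono2 : ∫ θ in Ioc 0 (2 * Real.pi), Real.log ‖q (circleMap 0 ρ θ)‖ ≤
        ∫ θ in Ioc 0 (2 * Real.pi), ((F n).indicator (fun _ => (-(A * n) : ℝ)) θ + n * Real.log C) := by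
      refine integral_mono_ae hI hG ?_
      filter_upwards [ae_restrict_of_ae hnz, ae_restrict_mem measurableSet_Ioc] with θ hθ hθm
      have hpos : 0 < ‖q (circleMap 0 ρ θ)‖ := norm_pos_iff.mpr hθ
      by_cases hθF : θ ∈ F n
      · rw [indicator_of_mem hθF]
        have h1 : ‖q (circleMap 0 ρ θ)‖ ≤ Real.exp (-(A * n)) := (hqle _).trans (hθF.2 n le_rfl)
        have h2 := Real.log_le_log hpos h1
        rw [Real.log_exp] at h2
        linarith
      · rw [indicator_of_notMem hθF, zero_add]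
        have h1 : ‖q (circleMap 0 ρ θ)‖ ≤ C ^ n := by
          refine (hqle _).trans ((norm_pow_le' _ (Nat.succ_pos _)).trans ?_)
          refine pow_le_pow_left₀ (norm_nonneg _) ?_ n
          refine (norm_add_le _ _).trans ?_
          rw [norm_smul, norm_circleMap_zero, abs_of_pos hρ]
          linarith
        have h2 := Real.log_le_log hpos h1
        rw [Real.log_pow] at h2
        exact h2
    refine hmono2.trans (le_of_eq ?_)
    rw [integral_add hind (integrable_const _), integral_indicator (hFm n),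
      Measure.restrict_restrict (hFm n), inter_eq_left.mpr hFsub, setIntegral_const, integral_const]
    simp only [Measure.real, Measure.restrict_apply_univ, Real.volume_Ioc, sub_zero,
      ENNReal.toReal_ofReal hle2, smul_eq_mul]
    ring
  have hn0' : (0 : ℝ) < n := by rw [hn]; positivity
  have h2pi : (0 : ℝ) < 2 * Real.pi := by positivity
  have h3 : 2 * Real.pi * (n * Real.log ‖lam‖) ≤ ∫ θ in (0 : ℝ)..(2 * Real.pi), Real.log ‖q (circleMap 0 ρ θ)‖ := by
    rw [smul_eq_mul, inv_mul_eq_div, le_div_iff₀ h2pi] at hj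
    linarith
  have h4 : (A : ℝ) * (n * (δ / 2)) ≤ 2 * Real.pi * (n * (Real.log C - Real.log ‖lam‖)) := by
    have h5 : (A * n : ℝ) * (δ / 2) ≤ (A * n) * (volume (F n)).toReal :=
      mul_le_mul_of_nonneg_left hFvol (by positivity)
    nlinarith
  have h6 : (A : ℝ) * (δ / 2) ≤ 2 * Real.pi * (Real.log C - Real.log ‖lam‖) := by
    have : (n : ℝ) * ((A : ℝ) * (δ / 2)) ≤ n * (2 * Real.pi * (Real.log C - Real.log ‖lam‖)) := by linarith
    exact le_of_mul_le_mul_left this hn0'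
  rw [div_lt_iff₀ hδ0] at hA
  linarith

theorem null_bad {S0 S1 : H →L[ℂ] H} {lam : ℂ} (hl : lam ≠ 0) {f : H} (hf : ‖f‖ = 1)
    (he : S0 f = lam • f) : volume (Bad S0 S1) = 0 := by
  have hm := Bad_meas S0 S1
  rw [← lintegral_indicator_one hm, ← Complex.lintegral_comp_polarCoord_symm]
  have hmeas : Measurable fun p : ℝ × ℝ =>
      ENNReal.ofReal p.1 • (Bad S0 S1).indicator (1 : ℂ → ENNReal) (Complex.polarCoord.symm p) := by
    have hc : Continuous fun p : ℝ × ℝ => Complex.polarCoord.symm p := by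
      have : (fun p : ℝ × ℝ => Complex.polarCoord.symm p) =
          fun p : ℝ × ℝ => (p.1 * (Real.cos p.2 + Real.sin p.2 * Complex.I) : ℂ) :=
        funext fun p => Complex.polarCoord_symm_apply p
      rw [this]; fun_prop
    exact (ENNReal.measurable_ofReal.comp measurable_fst).smul
      ((measurable_one.indicator hm).comp hc.measurable)
  have hpi := Real.pi_pos
  have key : ∀ r : ℝ, 0 < r → ∀ᵐ θ : ℝ ∂(volume.restrict (Ioo (-Real.pi) Real.pi)),
      circleMap 0 r θ ∉ Bad S0 S1 := by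
    intro r hr
    have h1 := null_circle (S1 := S1) hl hf he hr
    set N := {θ : ℝ | θ ∈ Ioc 0 (2 * Real.pi) ∧ circleMap 0 r θ ∈ Bad S0 S1} with hN
    have h2 : volume ((fun θ : ℝ => θ + 2 * Real.pi) ⁻¹' N) = 0 := by
      rw [measure_preimage_add_right]; exact h1
    rw [ae_restrict_iff' measurableSet_Ioo]
    have h3 : volume (N ∪ (fun θ : ℝ => θ + 2 * Real.pi) ⁻¹' N) = 0 := measure_union_null h1 h2
    filter_upwards [compl_mem_ae_iff.mpr h3] with θ hθ hθm hb
    apply hθ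
    by_cases h0 : 0 < θ
    · left
      exact ⟨⟨h0, by linarith [hθm.2]⟩, hb⟩
    · right
      refine ⟨⟨by linarith [hθm.1], by linarith⟩, ?_⟩
      have := periodic_circleMap 0 r θ
      rw [this]; exact hb
  rw [polarCoord_target, Measure.volume_eq_prod, ← Measure.prod_restrict,
    lintegral_prod _ hmeas.aemeasurable]
  refine lintegral_eq_zero_of_ae_eq_zero ?_
  rw [Filter.EventuallyEq, ae_restrict_iff' measurableSet_Ioi]
  refine Eventually.of_forall fun r hr => ?_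
  refine lintegral_eq_zero_of_ae_eq_zero ?_
  filter_upwards [key r hr] with θ hθ
  have e : Complex.polarCoord.symm (r, θ) = circleMap 0 r θ := by
    rw [Complex.polarCoord_symm_apply]
    unfold circleMap
    rw [Complex.exp_mul_I, zero_add]
    push_cast; ring
  rw [e, indicator_of_notMem hθ, smul_zero]
  rfl

/-- a compact operator without nonzero eigenvalue has super-exponentially decaying powers -/
theorem decay_of_no_eig {A : H →L[ℂ] H} (hA : IsCompactOperator A)
    (hno : ∀ lam : ℂ, lam ≠ 0 → ∀ f : H, A f = lam • f → f = 0) (a : ℕ) :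
    ∃ n0 : ℕ, ∀ n ≥ n0, ‖A ^ n‖ ≤ Real.exp (-(a * n)) := by
  have hr : spectralRadius ℂ A = 0 := by
    unfold spectralRadius
    refine le_antisymm (iSup₂_le fun k hk => ?_) bot_le
    by_cases hk0 : k = 0
    · rw [hk0]; simp
    · exfalso
      rcases hA.hasEigenvalue_or_mem_resolventSet hk0 with h | h
      · obtain ⟨f, hf⟩ := h.exists_hasEigenvector
        exact hf.2 (hno k hk0 f hf.apply_eq_smul)
      · exact hk h
  have h1 := spectrum.pow_nnnorm_pow_one_div_tendsto_nhds_spectralRadius A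
  rw [hr] at h1
  have h2 : (0 : ENNReal) < ENNReal.ofReal (Real.exp (-a)) := ENNReal.ofReal_pos.mpr (Real.exp_pos _)
  have h3 := h1.eventually (gt_mem_nhds h2)
  obtain ⟨n0, hn0⟩ := eventually_atTop.mp h3
  refine ⟨n0 + 1, fun n hn => ?_⟩
  have h4 := (hn0 n (by omega)).le
  have hn' : (0 : ℝ) < n := by
    have : 0 < n := by omega
    exact_mod_cast this
  have h5 : (‖A ^ n‖₊ : ENNReal) ≤ ENNReal.ofReal (Real.exp (-a)) ^ (n : ℝ) := by
    rw [one_div] at h4
    exact (ENNReal.rpow_inv_le_iff hn').mp h4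
  rw [ENNReal.ofReal_rpow_of_pos (Real.exp_pos _), ← Real.exp_mul] at h5
  have h6 : ‖A ^ n‖ₑ ≤ ENNReal.ofReal (Real.exp (-(a : ℝ) * n)) := h5
  rw [← ofReal_norm, ENNReal.ofReal_le_ofReal_iff (Real.exp_pos _).le] at h6
  rwa [neg_mul] at h6

/-- **Generic existence of eigenvalues in a pencil of compact operators.** -/
theorem generic {S0 S1 : H →L[ℂ] H} (hc0 : IsCompactOperator S0) (hc1 : IsCompactOperator S1)
    {lam : ℂ} (hl : lam ≠ 0) {f : H} (hf : f ≠ 0) (he : S0 f = lam • f) :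
    ∀ᵐ w : ℂ, ∃ nu : ℂ, nu ≠ 0 ∧ ∃ g : H, g ≠ 0 ∧ (S0 + w • S1) g = nu • g := by
  have hn : ‖f‖ ≠ 0 := norm_ne_zero_iff.mpr hf
  set f1 : H := ((‖f‖ : ℂ)⁻¹) • f with hf1
  have h1 : ‖f1‖ = 1 := by
    rw [hf1, norm_smul, norm_inv, Complex.norm_real, norm_norm, inv_mul_cancel₀ hn]
  have h2 : S0 f1 = lam • f1 := by rw [hf1, map_smul, he, smul_comm]
  have h3 := null_bad (S1 := S1) hl h1 h2
  filter_upwards [compl_mem_ae_iff.mpr h3] with w hw
  by_contra hcon
  push Not at hcon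
  apply hw
  intro a
  refine decay_of_no_eig (hc0.add (hc1.smul w)) ?_ a
  intro nu hnu g hg
  by_contra hg0
  exact hcon nu hnu g hg0 hg

end Pool.Agent.TH340.SH
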