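import Pool.Agent.TH340.SH.Fl
import Pool.Agent.TH340.SH.Ves

/-!
The Dirichlet solution operator `L² → H₀¹` and its compactness.
-/

set_option autoImplicit false

open MeasureTheory Set Filter Topology Metric

namespace Pool.Agent.TH340.SH

open Pool.Agent.Helper533.StarBox

theorem exists_sol {Ω : Set ℂ} {R : ℝ} (hR : 0 < R) (hΩ : Ω ⊆ ball 0 R) :
    ∃ L : L2 →L[ℝ] V Ω, (∀ (f : L2) (w : V Ω), inner ℝ (D Ω 1 (L f)) (D Ω 1 w) +
      inner ℝ (D Ω 2 (L f)) (D Ω 2 w) = inner ℝ f (D Ω 0 w)) ∧ IsCompactOperator L := by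
  set C : ℝ := 1 + 4 * R ^ 2 with hC
  have hC0 : 0 < C := by positivity
  set A : V Ω →L[ℝ] V Ω := C • ((ContinuousLinearMap.adjoint (D Ω 1)).comp (D Ω 1)
    + (ContinuousLinearMap.adjoint (D Ω 2)).comp (D Ω 2)) with hA
  have hs : ∀ (c : ℝ) (x y : V Ω), inner ℝ (c • x) y = c * inner ℝ x y :=
    fun c x y => real_inner_smul_left x y c
  have hAi : ∀ v w : V Ω, inner ℝ (A v) w =
      C * (inner ℝ (D Ω 1 v) (D Ω 1 w) + inner ℝ (D Ω 2 v) (D Ω 2 w)) := by
    intro v w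
    have e : A v = C • (ContinuousLinearMap.adjoint (D Ω 1) (D Ω 1 v)
      + ContinuousLinearMap.adjoint (D Ω 2) (D Ω 2 v)) := rfl
    rw [e, hs, inner_add_left, ContinuousLinearMap.adjoint_inner_left,
      ContinuousLinearMap.adjoint_inner_left]
  have hco : ∀ v : V Ω, ‖v‖ ^ 2 ≤ C * (‖D Ω 1 v‖ ^ 2 + ‖D Ω 2 v‖ ^ 2) := by
    intro v
    have h1 := poin hR hΩ v
    rw [norm_sq, hC]
    nlinarith
  obtain ⟨S', h1, h2, h3⟩ := exists_inv A (fun v => by
    rw [hAi, real_inner_self_eq_norm_sq, real_inner_self_eq_norm_sq]; exact hco v)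
  set L : L2 →L[ℝ] V Ω := C • S'.comp (ContinuousLinearMap.adjoint (D Ω 0)) with hL
  have hLs : ∀ (f : L2) (w : V Ω), inner ℝ (D Ω 1 (L f)) (D Ω 1 w) +
      inner ℝ (D Ω 2 (L f)) (D Ω 2 w) = inner ℝ f (D Ω 0 w) := by
    intro f w
    have e : A (L f) = C • ContinuousLinearMap.adjoint (D Ω 0) f := by
      have : L f = C • S' (ContinuousLinearMap.adjoint (D Ω 0) f) := rfl
      rw [this, map_smul, h1]
    have h4 := hAi (L f) w
    rw [e, hs, ContinuousLinearMap.adjoint_inner_left] at h4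
    exact (mul_left_cancel₀ hC0.ne' h4).symm
  refine ⟨L, hLs, ?_⟩
  have hcF : IsCompactOperator (fun f => D Ω 0 (L f)) := (D0_compact hR hΩ).comp_clm L
  have hest : ∀ f : L2, ‖L f‖ ^ 2 ≤ C * (‖f‖ * ‖D Ω 0 (L f)‖) := by
    intro f
    refine (hco _).trans (mul_le_mul_of_nonneg_left ?_ hC0.le)
    have := hLs f (L f)
    rw [real_inner_self_eq_norm_sq, real_inner_self_eq_norm_sq] at this
    rw [this]
    exact real_inner_le_norm _ _
  rw [isCompactOperator_iff_exists_mem_nhds_isCompact_closure_image]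
  refine ⟨ball 0 1, ball_mem_nhds _ zero_lt_one, ?_⟩
  refine TotallyBounded.isCompact_of_isClosed (TotallyBounded.closure ?_) isClosed_closure
  have htb : TotallyBounded ((fun f => D Ω 0 (L f)) '' ball (0 : L2) 1) := by
    have hc2 : IsCompact (closure ((fun f => D Ω 0 (L f)) '' ball (0 : L2) 1)) := by
      have : IsCompactOperator ((D Ω 0).comp L) := hcF
      exact this.isCompact_closure_image_ball 1
    exact hc2.totallyBounded.subset subset_closure
  rw [Metric.totallyBounded_iff]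
  intro ε hε
  set η := ε ^ 2 / (2 * C + 1) with hη
  have hη0 : 0 < η := by positivity
  have h4 := finite_approx_of_totallyBounded htb η hη0
  rw [exists_subset_image_finite_and] at h4
  obtain ⟨t, ht, htf, hcov⟩ := h4
  refine ⟨L '' t, htf.image _, ?_⟩
  rintro _ ⟨f, hf, rfl⟩
  have h5 := hcov (mem_image_of_mem _ hf)
  rw [mem_iUnion₂] at h5
  obtain ⟨_, ⟨f0, hf0, rfl⟩, h6⟩ := h5
  rw [mem_iUnion₂]
  refine ⟨L f0, mem_image_of_mem _ hf0, ?_⟩
  rw [mem_ball, dist_eq_norm] at h6 ⊢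
  have h7 := hest (f - f0)
  rw [map_sub, map_sub] at h7
  have h8 : ‖f - f0‖ ≤ 2 := by
    have a1 := mem_ball_zero_iff.mp hf
    have a2 := mem_ball_zero_iff.mp (ht hf0)
    linarith [norm_sub_le f f0]
  have h9 : C * (‖f - f0‖ * ‖D Ω 0 (L f) - D Ω 0 (L f0)‖) ≤ C * (2 * η) :=
    mul_le_mul_of_nonneg_left (mul_le_mul h8 h6.le (norm_nonneg _) zero_le_two) hC0.le
  have h10 : C * (2 * η) < ε ^ 2 := by
    have : η * (2 * C + 1) = ε ^ 2 := div_mul_cancel₀ _ (by positivity)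
    nlinarith
  exact lt_of_pow_lt_pow_left₀ 2 hε.le (by linarith)

end Pool.Agent.TH340.SH
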