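import Pool.Agent.TH340.SH.Ta

/-!
The canonical solution operator on `L²(ℂ; ℂ)`.
-/

set_option autoImplicit false

open MeasureTheory Set Filter Topology Metric

namespace Pool.Agent.TH340.SH

open Pool.Agent.Helper533.StarBox

noncomputable abbrev HC := Lp ℂ 2 (volume : Measure ℂ)

noncomputable def reL : HC →L[ℝ] L2 := Complex.reCLM.compLpL 2 (volume : Measure ℂ)
noncomputable def imL : HC →L[ℝ] L2 := Complex.imCLM.compLpL 2 (volume : Measure ℂ)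
noncomputable def ofL : L2 →L[ℝ] HC := Complex.ofRealCLM.compLpL 2 (volume : Measure ℂ)
noncomputable def iL : HC →L[ℝ] HC := (Complex.I • ContinuousLinearMap.id ℂ HC).restrictScalars ℝ

theorem iL_apply (f : HC) : iL f = Complex.I • f := rfl

theorem reL_coe (f : HC) : (reL f : ℂ → ℝ) =ᵐ[volume] fun z => ((f : ℂ → ℂ) z).re :=
  Complex.reCLM.coeFn_compLpL f

theorem imL_coe (f : HC) : (imL f : ℂ → ℝ) =ᵐ[volume] fun z => ((f : ℂ → ℂ) z).im :=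
  Complex.imCLM.coeFn_compLpL f

theorem ofL_coe (f : L2) : (ofL f : ℂ → ℂ) =ᵐ[volume] fun z => (((f : ℂ → ℝ) z : ℝ) : ℂ) :=
  Complex.ofRealCLM.coeFn_compLpL f

theorem reL_I (f : HC) : reL (Complex.I • f) = - imL f := by
  apply Lp.ext
  filter_upwards [reL_coe (Complex.I • f), imL_coe f, Lp.coeFn_neg (imL f), Lp.coeFn_smul Complex.I f]
    with z h1 h2 h3 h4
  rw [h1, h3, Pi.neg_apply, h2, h4, Pi.smul_apply, smul_eq_mul]
  simp

theorem imL_I (f : HC) : imL (Complex.I • f) = reL f := by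
  apply Lp.ext
  filter_upwards [imL_coe (Complex.I • f), reL_coe f, Lp.coeFn_smul Complex.I f]
    with z h1 h2 h4
  rw [h1, h2, h4, Pi.smul_apply, smul_eq_mul]
  simp

variable {Ω : Set ℂ}

/-- `v ↦ v_x - i v_y` -/
noncomputable def tC (Ω : Set ℂ) : V Ω →L[ℝ] HC := ofL.comp (D Ω 1) - iL.comp (ofL.comp (D Ω 2))

noncomputable def T0 (L : L2 →L[ℝ] V Ω) : HC →L[ℝ] HC :=
  (-2 : ℝ) • ((tC Ω).comp (L.comp reL) + iL.comp ((tC Ω).comp (L.comp imL)))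

theorem T0_apply (L : L2 →L[ℝ] V Ω) (f : HC) :
    T0 L f = (-2 : ℝ) • (tC Ω (L (reL f)) + Complex.I • tC Ω (L (imL f))) := rfl

theorem T0_I (L : L2 →L[ℝ] V Ω) (f : HC) : T0 L (Complex.I • f) = Complex.I • T0 L f := by
  rw [T0_apply, T0_apply, reL_I, imL_I, map_neg, map_neg, smul_comm Complex.I (-2 : ℝ)]
  congr 1
  rw [smul_add, smul_smul, Complex.I_mul_I, neg_one_smul, add_comm]

noncomputable def T1 (L : L2 →L[ℝ] V Ω) : HC →L[ℂ] HC where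
  toFun := T0 L
  map_add' := map_add _
  map_smul' := by
    intro c f
    have e : c • f = c.re • f + c.im • (Complex.I • f) := by
      conv_lhs => rw [← Complex.re_add_im c]
      rw [add_smul, mul_smul]
      rfl
    have e' : c • T0 L f = c.re • T0 L f + c.im • (Complex.I • T0 L f) := by
      conv_lhs => rw [← Complex.re_add_im c]
      rw [add_smul, mul_smul]
      rfl
    rw [RingHom.id_apply, e, e', map_add, map_smul, map_smul, T0_I]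
  cont := (T0 L).continuous

theorem T1_apply (L : L2 →L[ℝ] V Ω) (f : HC) :
    T1 L f = (-2 : ℝ) • (tC Ω (L (reL f)) + Complex.I • tC Ω (L (imL f))) := rfl

theorem T1_compact {L : L2 →L[ℝ] V Ω} (hL : IsCompactOperator L) : IsCompactOperator (T1 L) := by
  have h1 : IsCompactOperator ((tC Ω).comp (L.comp reL)) := (hL.comp_clm reL).clm_comp (tC Ω)
  have h2 : IsCompactOperator (iL.comp ((tC Ω).comp (L.comp imL))) :=
    (((hL.comp_clm imL).clm_comp (tC Ω))).clm_comp iL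
  have h3 : IsCompactOperator ((-2 : ℝ) • (⇑((tC Ω).comp (L.comp reL)) + ⇑(iL.comp ((tC Ω).comp (L.comp imL))))) :=
    (h1.add h2).smul (-2 : ℝ)
  exact h3

/-- bounded complex multiplier -/
structure BdC (m : ℂ → ℂ) (K : ℝ) : Prop where
  meas : Measurable m
  bd : ∀ z, ‖m z‖ ≤ K
  nn : 0 ≤ K

theorem BdC.memLp {m : ℂ → ℂ} {K : ℝ} (h : BdC m K) {f : ℂ → ℂ} (hf : MemLp f 2 (volume : Measure ℂ)) :
    MemLp (fun z => m z * f z) 2 (volume : Measure ℂ) := by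
  refine MemLp.of_le_mul (c := K) hf (h.meas.aestronglyMeasurable.mul hf.1) ?_
  refine Eventually.of_forall fun z => ?_
  rw [norm_mul]
  exact mul_le_mul_of_nonneg_right (h.bd z) (norm_nonneg _)

noncomputable def MulC {m : ℂ → ℂ} {K : ℝ} (h : BdC m K) : HC →L[ℂ] HC :=
  LinearMap.mkContinuous
    { toFun := fun f => (h.memLp (Lp.memLp f)).toLp _
      map_add' := by
        intro f g
        rw [← MemLp.toLp_add]
        apply MemLp.toLp_congr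
        filter_upwards [Lp.coeFn_add f g] with z hz
        rw [hz]; simp only [Pi.add_apply]; ring
      map_smul' := by
        intro c f
        rw [RingHom.id_apply, ← MemLp.toLp_const_smul]
        apply MemLp.toLp_congr
        filter_upwards [Lp.coeFn_smul c f] with z hz
        rw [hz]; simp only [Pi.smul_apply, smul_eq_mul]; ring } K (by
      intro f
      apply Lp.norm_le_mul_norm_of_ae_le_mul
      filter_upwards [(h.memLp (Lp.memLp f)).coeFn_toLp] with z hz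
      show ‖((h.memLp (Lp.memLp f)).toLp _ : ℂ → ℂ) z‖ ≤ _
      rw [hz, norm_mul]
      exact mul_le_mul_of_nonneg_right (h.bd z) (norm_nonneg _))

theorem MulC_coe {m : ℂ → ℂ} {K : ℝ} (h : BdC m K) (f : HC) :
    (MulC h f : ℂ → ℂ) =ᵐ[volume] fun z => m z * (f : ℂ → ℂ) z :=
  (h.memLp (Lp.memLp f)).coeFn_toLp

theorem curl_V (v w : V Ω) : inner ℝ (D Ω 1 v) (D Ω 2 w) = inner ℝ (D Ω 2 v) (D Ω 1 w) := by
  refine dense_ind (p := fun v : V Ω => inner ℝ (D Ω 1 v) (D Ω 2 w) = inner ℝ (D Ω 2 v) (D Ω 1 w)) ?_ ?_ v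
  · exact isClosed_eq (by fun_prop) (by fun_prop)
  intro φ hφ
  refine dense_ind (p := fun w : V Ω => inner ℝ (D Ω 1 (jv hφ)) (D Ω 2 w) = inner ℝ (D Ω 2 (jv hφ)) (D Ω 1 w)) ?_ ?_ w
  · exact isClosed_eq (by fun_prop) (by fun_prop)
  intro ψ hψ
  rw [(D_jv hφ).2.1, (D_jv hφ).2.2, (D_jv hψ).2.1, (D_jv hψ).2.2,
    inner_cls hφ.gx_tf.memLp hψ.gy_tf.memLp, inner_cls hφ.gy_tf.memLp hψ.gx_tf.memLp, curl_test hφ hψ]

theorem tC_coe (v : V Ω) : (tC Ω v : ℂ → ℂ) =ᵐ[volume] fun z =>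
    (((D Ω 1 v : ℂ → ℝ) z : ℝ) : ℂ) - Complex.I * (((D Ω 2 v : ℂ → ℝ) z : ℝ) : ℂ) := by
  have e : tC Ω v = ofL (D Ω 1 v) - Complex.I • ofL (D Ω 2 v) := rfl
  rw [e]
  filter_upwards [ofL_coe (D Ω 1 v), ofL_coe (D Ω 2 v),
    Lp.coeFn_sub (ofL (D Ω 1 v)) (Complex.I • ofL (D Ω 2 v)), Lp.coeFn_smul Complex.I (ofL (D Ω 2 v))]
    with z h1 h2 h3 h4
  rw [h3, Pi.sub_apply, h4, Pi.smul_apply, h1, h2, smul_eq_mul]

/-- `∫ (v_x - i v_y)(χ_x + i χ_y) = ∫ ∇v·∇χ` -/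
theorem pairing_V (v : V Ω) {χ : ℂ → ℂ} (hχ : CT Ω χ) :
    ∫ z, (tC Ω v : ℂ → ℂ) z * (fderiv ℝ χ z 1 + Complex.I * fderiv ℝ χ z Complex.I) =
      ((inner ℝ (D Ω 1 v) (D Ω 1 (jv hχ.re)) + inner ℝ (D Ω 2 v) (D Ω 2 (jv hχ.re)) : ℝ) : ℂ)
      + Complex.I * ((inner ℝ (D Ω 1 v) (D Ω 1 (jv hχ.im)) + inner ℝ (D Ω 2 v) (D Ω 2 (jv hχ.im)) : ℝ) : ℂ) := by
  set r := jv hχ.re with hr
  set i := jv hχ.im with hi
  set p := D Ω 1 v with hp
  set q := D Ω 2 v with hq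
  have I1 : ∀ f g : L2, Integrable (fun z => (f : ℂ → ℝ) z * (g : ℂ → ℝ) z) := fun f g =>
    int_mul (Lp.memLp f) (Lp.memLp g)
  have ci : inner ℝ p (D Ω 2 i) = inner ℝ q (D Ω 1 i) := curl_V v i
  have cr : inner ℝ p (D Ω 2 r) = inner ℝ q (D Ω 1 r) := curl_V v r
  set A : ℂ → ℝ := fun z => ((p : ℂ → ℝ) z * (D Ω 1 r : ℂ → ℝ) z + (q : ℂ → ℝ) z * (D Ω 2 r : ℂ → ℝ) z)
    - ((p : ℂ → ℝ) z * (D Ω 2 i : ℂ → ℝ) z - (q : ℂ → ℝ) z * (D Ω 1 i : ℂ → ℝ) z) with hA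
  set B : ℂ → ℝ := fun z => ((p : ℂ → ℝ) z * (D Ω 1 i : ℂ → ℝ) z + (q : ℂ → ℝ) z * (D Ω 2 i : ℂ → ℝ) z)
    + ((p : ℂ → ℝ) z * (D Ω 2 r : ℂ → ℝ) z - (q : ℂ → ℝ) z * (D Ω 1 r : ℂ → ℝ) z) with hB
  have iA : Integrable A := ((I1 _ _).add (I1 _ _)).sub ((I1 _ _).sub (I1 _ _))
  have iB : Integrable B := ((I1 _ _).add (I1 _ _)).add ((I1 _ _).sub (I1 _ _))
  have hA0 : ∫ z, A z = inner ℝ p (D Ω 1 r) + inner ℝ q (D Ω 2 r) := by
    have := int_comb1 (I1 p (D Ω 1 r)) (I1 q (D Ω 2 r)) (I1 p (D Ω 2 i)) (I1 q (D Ω 1 i))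
    rw [integral_const_mul] at this
    rw [← inner_int, ← inner_int, ← inner_int, ← inner_int, ci] at this
    rw [hA]
    linarith
  have hB0 : ∫ z, B z = inner ℝ p (D Ω 1 i) + inner ℝ q (D Ω 2 i) := by
    have := int_comb2 (I1 p (D Ω 1 i)) (I1 q (D Ω 2 i)) (I1 p (D Ω 2 r)) (I1 q (D Ω 1 r))
    rw [integral_const_mul] at this
    rw [← inner_int, ← inner_int, ← inner_int, ← inner_int, cr] at this
    rw [hB]
    linarith
  rw [cint iA iB ?_, hA0, hB0]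
  have e1 : D Ω 1 r = cls (gx fun z => (χ z).re) := (D_jv hχ.re).2.1
  have e2 : D Ω 2 r = cls (gy fun z => (χ z).re) := (D_jv hχ.re).2.2
  have e3 : D Ω 1 i = cls (gx fun z => (χ z).im) := (D_jv hχ.im).2.1
  have e4 : D Ω 2 i = cls (gy fun z => (χ z).im) := (D_jv hχ.im).2.2
  filter_upwards [tC_coe v, cls_coe hχ.re.gx_tf.memLp, cls_coe hχ.re.gy_tf.memLp,
    cls_coe hχ.im.gx_tf.memLp, cls_coe hχ.im.gy_tf.memLp] with z h1 h2 h3 h4 h5
  rw [h1, hA, hB]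
  simp only [e1, e2, e3, e4, h2, h3, h4, h5]
  have f1 : gx (fun z => (χ z).re) z = (fderiv ℝ χ z 1).re := fderiv_re' (hχ.diff z) 1
  have f2 : gx (fun z => (χ z).im) z = (fderiv ℝ χ z 1).im := fderiv_im' (hχ.diff z) 1
  have f3 : gy (fun z => (χ z).re) z = (fderiv ℝ χ z Complex.I).re := fderiv_re' (hχ.diff z) _
  have f4 : gy (fun z => (χ z).im) z = (fderiv ℝ χ z Complex.I).im := fderiv_im' (hχ.diff z) _
  rw [f1, f2, f3, f4]
  apply Complex.ext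
  · simp
    ring
  · simp
    ring

end Pool.Agent.TH340.SH
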