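import Pool.Agent.TH340.SH.Tb

/-!
Properties of the canonical solution operator: the weak equation, orthogonality, uniqueness.
-/

set_option autoImplicit false

open MeasureTheory Set Filter Topology Metric

namespace Pool.Agent.TH340.SH

open Pool.Agent.Helper533.StarBox

variable {Ω : Set ℂ}

/-- the defining property of the Dirichlet solution operator -/
def Sol (L : L2 →L[ℝ] V Ω) : Prop := ∀ (f : L2) (w : V Ω), inner ℝ (D Ω 1 (L f)) (D Ω 1 w) +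
      inner ℝ (D Ω 2 (L f)) (D Ω 2 w) = inner ℝ f (D Ω 0 w)

theorem T1_coe (L : L2 →L[ℝ] V Ω) (f : HC) : (T1 L f : ℂ → ℂ) =ᵐ[volume] fun z =>
    -2 * ((tC Ω (L (reL f)) : ℂ → ℂ) z + Complex.I * (tC Ω (L (imL f)) : ℂ → ℂ) z) := by
  rw [T1_apply]
  filter_upwards [Lp.coeFn_smul (-2 : ℝ) (tC Ω (L (reL f)) + Complex.I • tC Ω (L (imL f))),
    Lp.coeFn_add (tC Ω (L (reL f))) (Complex.I • tC Ω (L (imL f))),
    Lp.coeFn_smul Complex.I (tC Ω (L (imL f)))] with z h1 h2 h3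
  rw [h1, Pi.smul_apply, h2, Pi.add_apply, h3, Pi.smul_apply, smul_eq_mul, Complex.real_smul]
  push_cast; ring

theorem memLp_dbar {χ : ℂ → ℂ} (hχ : CT Ω χ) :
    MemLp (fun z => fderiv ℝ χ z 1 + Complex.I * fderiv ℝ χ z Complex.I) 2 (volume : Measure ℂ) :=
  ((hχ.fd 1).1.memLp_of_hasCompactSupport (hχ.fd 1).2.1).add
    (((hχ.fd Complex.I).1.memLp_of_hasCompactSupport (hχ.fd Complex.I).2.1).const_mul Complex.I)

theorem memLp_ct {χ : ℂ → ℂ} (hχ : CT Ω χ) : MemLp χ 2 (volume : Measure ℂ) :=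
  hχ.smooth.continuous.memLp_of_hasCompactSupport hχ.comp

/-- weak equation for `T1` -/
theorem T1_weak {L : L2 →L[ℝ] V Ω} (hL : Sol L) (f : HC) {χ : ℂ → ℂ} (hχ : CT Ω χ) :
    ∫ z, (T1 L f : ℂ → ℂ) z * (fderiv ℝ χ z 1 + Complex.I * fderiv ℝ χ z Complex.I) =
      -2 * ∫ z, (f : ℂ → ℂ) z * χ z := by
  have md := memLp_dbar hχ
  have i1 : Integrable (fun z => (tC Ω (L (reL f)) : ℂ → ℂ) z *
      (fderiv ℝ χ z 1 + Complex.I * fderiv ℝ χ z Complex.I)) := (Lp.memLp _).integrable_mul md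
  have i2 : Integrable (fun z => (tC Ω (L (imL f)) : ℂ → ℂ) z *
      (fderiv ℝ χ z 1 + Complex.I * fderiv ℝ χ z Complex.I)) := (Lp.memLp _).integrable_mul md
  have e : ∫ z, (T1 L f : ℂ → ℂ) z * (fderiv ℝ χ z 1 + Complex.I * fderiv ℝ χ z Complex.I) =
      ∫ z, -2 * ((tC Ω (L (reL f)) : ℂ → ℂ) z * (fderiv ℝ χ z 1 + Complex.I * fderiv ℝ χ z Complex.I)
        + Complex.I * ((tC Ω (L (imL f)) : ℂ → ℂ) z * (fderiv ℝ χ z 1 + Complex.I * fderiv ℝ χ z Complex.I))) := by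
    apply integral_congr_ae
    filter_upwards [T1_coe L f] with z hz
    rw [hz]; ring
  rw [e, integral_const_mul, integral_add i1 (i2.const_mul _), integral_const_mul,
    pairing_V _ hχ, pairing_V _ hχ, hL, hL, hL, hL]
  congr 1
  have I1 : ∀ (f : L2) {g : ℂ → ℝ} (hg : MemLp g 2 (volume : Measure ℂ)),
      Integrable (fun z => (f : ℂ → ℝ) z * g z) := fun f g hg => int_mul (Lp.memLp f) hg
  have mr := hχ.re.memLp
  have mi := hχ.im.memLp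
  have d1 : D Ω 0 (jv hχ.re) = cls fun z => (χ z).re := (D_jv hχ.re).1
  have d2 : D Ω 0 (jv hχ.im) = cls fun z => (χ z).im := (D_jv hχ.im).1
  rw [d1, d2, inner_int' _ mr, inner_int' _ mi, inner_int' _ mr, inner_int' _ mi]
  set A : ℂ → ℝ := fun z => (reL f : ℂ → ℝ) z * (χ z).re - (imL f : ℂ → ℝ) z * (χ z).im with hA
  set B : ℂ → ℝ := fun z => (reL f : ℂ → ℝ) z * (χ z).im + (imL f : ℂ → ℝ) z * (χ z).re with hB
  have iA : Integrable A := (I1 _ mr).sub (I1 _ mi)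
  have iB : Integrable B := (I1 _ mi).add (I1 _ mr)
  rw [cint (F := fun z => (f : ℂ → ℂ) z * χ z) iA iB ?_]
  · rw [hA, hB, integral_sub (I1 _ mr) (I1 _ mi), integral_add (I1 _ mi) (I1 _ mr)]
    push_cast
    linear_combination ((∫ z, (imL f : ℂ → ℝ) z * (χ z).im : ℝ) : ℂ) * Complex.I_mul_I
  · filter_upwards [reL_coe f, imL_coe f] with z h1 h2
    rw [hA, hB]
    simp only [h1, h2]
    apply Complex.ext
    · simp
    · simp

variable {h1 : ℂ → ℂ} {K : ℝ} {b : ℂ → ℝ}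

/-- orthogonality for `T1` -/
theorem T1_orth (hΩ : IsOpen Ω) (hd : DifferentiableOn ℂ h1 Ω) (hK0 : 0 ≤ K) (hK : ∀ z ∈ Ω, ‖h1 z‖ ≤ K)
    (hP : Prim Ω h1 b) (L : L2 →L[ℝ] V Ω) (f : HC) {G : ℂ → ℂ} (hG : DifferentiableOn ℂ G Ω)
    (hGm : MemLp G 2 (volume.restrict Ω)) :
    ∫ z in Ω, (T1 L f : ℂ → ℂ) z * (starRingEnd ℂ) (G z) = 0 := by
  have hu : ∀ v : V Ω, ∀ᵐ z ∂(volume.restrict Ω), (tC Ω v : ℂ → ℂ) z =
      2 * ue Ω b 0 (Pa Ω (dat hΩ hd hK0 hK) 0 v) (Pb Ω (dat hΩ hd hK0 hK) 0 v) z := by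
    intro v
    have e1 : Pa Ω (dat hΩ hd hK0 hK) 0 v = D Ω 1 v := by
      show D Ω 1 v - (0 : ℝ) • _ = _
      rw [zero_smul, sub_zero]
    have e2 : Pb Ω (dat hΩ hd hK0 hK) 0 v = D Ω 2 v := by
      show D Ω 2 v - (0 : ℝ) • _ = _
      rw [zero_smul, sub_zero]
    rw [e1, e2, ae_restrict_iff' hΩ.measurableSet]
    filter_upwards [tC_coe v] with z hz hzΩ
    rw [hz]
    unfold ue
    rw [indicator_of_mem hzΩ]
    unfold Ee
    simp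
  have hGc : MemLp (fun z => (starRingEnd ℂ) (G z)) 2 (volume.restrict Ω) := hGm.star
  have mu : ∀ v : V Ω, Integrable (fun z => (tC Ω v : ℂ → ℂ) z * (starRingEnd ℂ) (G z)) (volume.restrict Ω) :=
    fun v => ((Lp.memLp (tC Ω v)).restrict Ω).integrable_mul hGc
  have h0 : ∀ v : V Ω, ∫ z in Ω, (tC Ω v : ℂ → ℂ) z * (starRingEnd ℂ) (G z) = 0 := by
    intro v
    have e : ∫ z in Ω, (tC Ω v : ℂ → ℂ) z * (starRingEnd ℂ) (G z) = ∫ z in Ω, 2 *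
        (ue Ω b 0 (Pa Ω (dat hΩ hd hK0 hK) 0 v) (Pb Ω (dat hΩ hd hK0 hK) 0 v) z * (starRingEnd ℂ) (G z)) := by
      apply integral_congr_ae
      filter_upwards [hu v] with z hz
      rw [hz]; ring
    rw [e, integral_const_mul, orth hΩ hd hK0 hK hP 0 hG hGm v, mul_zero]
  have e : ∫ z in Ω, (T1 L f : ℂ → ℂ) z * (starRingEnd ℂ) (G z) =
      ∫ z in Ω, -2 * ((tC Ω (L (reL f)) : ℂ → ℂ) z * (starRingEnd ℂ) (G z)
        + Complex.I * ((tC Ω (L (imL f)) : ℂ → ℂ) z * (starRingEnd ℂ) (G z))) := by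
    apply integral_congr_ae
    filter_upwards [ae_restrict_of_ae (T1_coe L f)] with z hz
    rw [hz]; ring
  rw [e, integral_const_mul, integral_add (mu _) ((mu _).const_mul _), integral_const_mul, h0, h0]
  simp

theorem CT.conj {χ : ℂ → ℂ} (hχ : CT Ω χ) : CT Ω (fun z => (starRingEnd ℂ) (χ z)) := by
  have hs : tsupport (fun z => (starRingEnd ℂ) (χ z)) ⊆ tsupport χ := by
    refine closure_minimal ?_ (isClosed_tsupport _)
    intro z hz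
    by_contra hcon
    apply hz
    show (starRingEnd ℂ) (χ z) = 0
    rw [image_eq_zero_of_notMem_tsupport hcon, map_zero]
  exact ⟨Complex.conjCLE.contDiff.comp hχ.smooth, hχ.comp.of_isClosed_subset (isClosed_tsupport _) hs,
    hs.trans hχ.supp⟩

theorem fderiv_conj {χ : ℂ → ℂ} {z : ℂ} (hd : DifferentiableAt ℝ χ z) (v : ℂ) :
    fderiv ℝ (fun z => (starRingEnd ℂ) (χ z)) z v = (starRingEnd ℂ) (fderiv ℝ χ z v) := by
  have h := (Complex.conjCLE : ℂ →L[ℝ] ℂ).hasFDerivAt.comp z hd.hasFDerivAt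
  have h' : HasFDerivAt (fun z => (starRingEnd ℂ) (χ z)) ((Complex.conjCLE : ℂ →L[ℝ] ℂ).comp (fderiv ℝ χ z)) z := h
  rw [h'.fderiv]; rfl

theorem inner_C (f g : HC) : inner ℂ f g = ∫ z, (g : ℂ → ℂ) z * (starRingEnd ℂ) ((f : ℂ → ℂ) z) := by
  rw [L2.inner_def]
  rfl

/-- an element annihilating all `∂̄χ` is orthogonal to the gradients -/
theorem ortho_F (F : V Ω →L[ℝ] HC)
    (hF : ∀ φ (hφ : TF Ω φ), ∃ χ : ℂ → ℂ, CT Ω χ ∧ (F (jv hφ) : ℂ → ℂ) =ᵐ[volume]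
      fun z => fderiv ℝ χ z 1 - Complex.I * fderiv ℝ χ z Complex.I) {w : HC}
    (hw : ∀ χ : ℂ → ℂ, CT Ω χ → ∫ z, (w : ℂ → ℂ) z * (fderiv ℝ χ z 1 + Complex.I * fderiv ℝ χ z Complex.I) = 0)
    (v : V Ω) : inner ℂ (F v) w = 0 := by
  refine dense_ind (p := fun v : V Ω => inner ℂ (F v) w = 0) ?_ ?_ v
  · exact isClosed_eq (by fun_prop) (by fun_prop)
  intro φ hφ
  obtain ⟨χ, hχ, he⟩ := hF φ hφ
  rw [inner_C]
  rw [← hw _ hχ.conj]
  apply integral_congr_ae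
  filter_upwards [he] with z hz
  rw [hz, fderiv_conj (hχ.diff z), fderiv_conj (hχ.diff z)]
  simp

theorem tC_F (φ : ℂ → ℝ) (hφ : TF Ω φ) : ∃ χ : ℂ → ℂ, CT Ω χ ∧ (tC Ω (jv hφ) : ℂ → ℂ) =ᵐ[volume]
      fun z => fderiv ℝ χ z 1 - Complex.I * fderiv ℝ χ z Complex.I := by
  refine ⟨fun z => (φ z : ℂ), CT.of_real hφ, ?_⟩
  filter_upwards [tC_coe (jv hφ), cls_coe hφ.gx_tf.memLp, cls_coe hφ.gy_tf.memLp] with z h1 h2 h3
  rw [h1, (D_jv hφ).2.1, (D_jv hφ).2.2, h2, h3, fderiv_ofReal (hφ.diff z), fderiv_ofReal (hφ.diff z)]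
  rfl

theorem EI_bd (hP : Prim Ω h1 b) (hΩ : IsOpen Ω) (hd : DifferentiableOn ℂ h1 Ω) (μ : ℝ) :
    BdC (Ω.indicator (Ee (-μ) b)) 1 := by
  refine ⟨meas_ind_c hΩ fun z hz => (Ee_smooth hP hΩ hd (-μ) hz).continuousAt.continuousWithinAt,
    fun z => ?_, zero_le_one⟩
  by_cases hz : z ∈ Ω
  · rw [indicator_of_mem hz, Ee_norm]
  · rw [indicator_of_notMem hz, norm_zero]; exact zero_le_one

/-- the gauged gradient -/
noncomputable def uC (d : Dat) (μ : ℝ) {m : ℂ → ℂ} (hm : BdC m 1) : V Ω →L[ℝ] HC :=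
  ((MulC hm).restrictScalars ℝ).comp (ofL.comp (Pa Ω d μ) - iL.comp (ofL.comp (Pb Ω d μ)))

theorem uC_coe (d : Dat) (μ : ℝ) {m : ℂ → ℂ} (hm : BdC m 1) (v : V Ω) :
    (uC d μ hm v : ℂ → ℂ) =ᵐ[volume] fun z => m z * ((((Pa Ω d μ v : ℂ → ℝ) z : ℝ) : ℂ)
      - Complex.I * (((Pb Ω d μ v : ℂ → ℝ) z : ℝ) : ℂ)) := by
  have e : uC d μ hm v = MulC hm (ofL (Pa Ω d μ v) - Complex.I • ofL (Pb Ω d μ v)) := rfl
  rw [e]
  filter_upwards [MulC_coe hm (ofL (Pa Ω d μ v) - Complex.I • ofL (Pb Ω d μ v)),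
    ofL_coe (Pa Ω d μ v), ofL_coe (Pb Ω d μ v),
    Lp.coeFn_sub (ofL (Pa Ω d μ v)) (Complex.I • ofL (Pb Ω d μ v)),
    Lp.coeFn_smul Complex.I (ofL (Pb Ω d μ v))] with z h1 h2 h3 h4 h5
  rw [h1, h4, Pi.sub_apply, h5, Pi.smul_apply, h2, h3, smul_eq_mul]

theorem uC_F (hΩ : IsOpen Ω) (hd : DifferentiableOn ℂ h1 Ω) (hK0 : 0 ≤ K) (hK : ∀ z ∈ Ω, ‖h1 z‖ ≤ K)
    (hP : Prim Ω h1 b) (μ : ℝ) (φ : ℂ → ℝ) (hφ : TF Ω φ) :
    ∃ χ : ℂ → ℂ, CT Ω χ ∧ (uC (dat hΩ hd hK0 hK) μ (EI_bd hP hΩ hd μ) (jv hφ) : ℂ → ℂ) =ᵐ[volume]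
      fun z => fderiv ℝ χ z 1 - Complex.I * fderiv ℝ χ z Complex.I := by
  have hχ := (CT.of_real hφ).phase hP hΩ hd (-μ)
  refine ⟨_, hχ, ?_⟩
  filter_upwards [uC_coe (dat hΩ hd hK0 hK) μ (EI_bd hP hΩ hd μ) (jv hφ),
    Pa_coe (d := dat hΩ hd hK0 hK) (μ := μ) hφ, Pb_coe (d := dat hΩ hd hK0 hK) (μ := μ) hφ] with z e1 e2 e3
  rw [e1, e2, e3]
  by_cases hz : z ∈ Ω
  · have g1 := phase_fderiv (CT.of_real hφ) hP (-μ) hz 1
    have g2 := phase_fderiv (CT.of_real hφ) hP (-μ) hz Complex.I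
    rw [fderiv_ofReal (hφ.diff z)] at g1 g2
    rw [g1, g2, dat_ax hΩ hd hK0 hK hz, dat_ay hΩ hd hK0 hK hz, indicator_of_mem hz]
    have c2 : (h1 z * Complex.I).im = (h1 z).re := by simp
    have c3 : (h1 z * 1).im = (h1 z).im := by simp
    rw [c2, c3]
    have c4 : fderiv ℝ φ z 1 = gx φ z := rfl
    have c5 : fderiv ℝ φ z Complex.I = gy φ z := rfl
    rw [c4, c5]
    push_cast
    linear_combination (-(Ee (-μ) b z * μ * (h1 z).re * (φ z : ℂ))) * Complex.I_mul_I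
  · have hz' : z ∉ tsupport (fun z => Ee (-μ) b z * (φ z : ℂ)) := fun h => hz (hχ.supp h)
    have k1 : fderiv ℝ (fun z => Ee (-μ) b z * (φ z : ℂ)) z = 0 := by
      have : z ∉ tsupport (fderiv ℝ (fun z => Ee (-μ) b z * (φ z : ℂ))) :=
        fun h => hz' (tsupport_fderiv_subset ℝ h)
      exact image_eq_zero_of_notMem_tsupport this
    rw [indicator_of_notMem hz, k1]
    simp

end Pool.Agent.TH340.SH
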