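import Pool.Agent.TH340.SH.Tc

/-!
Generic existence of eigenvalues for the pencil `h₀ + ζ h₁`.
-/

set_option autoImplicit false

open MeasureTheory Set Filter Topology Metric

namespace Pool.Agent.TH340.SH

open Pool.Agent.Helper533.StarBox

variable {Ω : Set ℂ} {h1 : ℂ → ℂ} {K : ℝ} {b : ℂ → ℝ}

/-- uniqueness of the canonical solution in the gauged class -/
theorem T1_eq (hΩ : IsOpen Ω) (hd : DifferentiableOn ℂ h1 Ω) (hK0 : 0 ≤ K) (hK : ∀ z ∈ Ω, ‖h1 z‖ ≤ K)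
    (hP : Prim Ω h1 b) {L : L2 →L[ℝ] V Ω} (hL : Sol L) (μ : ℝ) (g : V Ω) {f u : HC}
    (hu : (u : ℂ → ℂ) =ᵐ[volume] ue Ω b μ (Pa Ω (dat hΩ hd hK0 hK) μ g) (Pb Ω (dat hΩ hd hK0 hK) μ g))
    (hw : ∀ χ : ℂ → ℂ, CT Ω χ → ∫ z, (u : ℂ → ℂ) z * (fderiv ℝ χ z 1 + Complex.I * fderiv ℝ χ z Complex.I) =
      -2 * ∫ z, (f : ℂ → ℂ) z * χ z) : T1 L f = u := by
  set w : HC := u - T1 L f with hwd
  have hw0 : ∀ χ : ℂ → ℂ, CT Ω χ →
      ∫ z, (w : ℂ → ℂ) z * (fderiv ℝ χ z 1 + Complex.I * fderiv ℝ χ z Complex.I) = 0 := by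
    intro χ hχ
    have md := memLp_dbar hχ
    have i1 : Integrable (fun z => (u : ℂ → ℂ) z * (fderiv ℝ χ z 1 + Complex.I * fderiv ℝ χ z Complex.I)) :=
      (Lp.memLp u).integrable_mul md
    have i2 : Integrable (fun z => (T1 L f : ℂ → ℂ) z * (fderiv ℝ χ z 1 + Complex.I * fderiv ℝ χ z Complex.I)) :=
      (Lp.memLp (T1 L f)).integrable_mul md
    have e : ∫ z, (w : ℂ → ℂ) z * (fderiv ℝ χ z 1 + Complex.I * fderiv ℝ χ z Complex.I) =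
        ∫ z, ((u : ℂ → ℂ) z * (fderiv ℝ χ z 1 + Complex.I * fderiv ℝ χ z Complex.I)
          - (T1 L f : ℂ → ℂ) z * (fderiv ℝ χ z 1 + Complex.I * fderiv ℝ χ z Complex.I)) := by
      apply integral_congr_ae
      filter_upwards [Lp.coeFn_sub u (T1 L f)] with z hz
      rw [hwd, hz, Pi.sub_apply]; ring
    rw [e, integral_sub i1 i2, hw χ hχ, T1_weak hL f hχ, sub_self]
  have a1 := ortho_F (uC (dat hΩ hd hK0 hK) μ (EI_bd hP hΩ hd μ)) (uC_F hΩ hd hK0 hK hP μ) hw0 g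
  have a2 := ortho_F (tC Ω) tC_F hw0 (L (reL f))
  have a3 := ortho_F (tC Ω) tC_F hw0 (L (imL f))
  have e1 : u = (1 / 2 : ℂ) • uC (dat hΩ hd hK0 hK) μ (EI_bd hP hΩ hd μ) g := by
    apply Lp.ext
    filter_upwards [hu, uC_coe (dat hΩ hd hK0 hK) μ (EI_bd hP hΩ hd μ) g,
      Lp.coeFn_smul (1 / 2 : ℂ) (uC (dat hΩ hd hK0 hK) μ (EI_bd hP hΩ hd μ) g)] with z k1 k2 k3
    rw [k1, k3, Pi.smul_apply, k2, smul_eq_mul]
    rfl
  have b1 : inner ℂ u w = 0 := by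
    rw [e1, inner_smul_left, a1, mul_zero]
  have b2 : inner ℂ (T1 L f) w = 0 := by
    have e2 : T1 L f = (-2 : ℂ) • (tC Ω (L (reL f)) + Complex.I • tC Ω (L (imL f))) := by
      rw [T1_apply]
      have : ∀ x : HC, (-2 : ℝ) • x = (-2 : ℂ) • x := by
        intro x
        have h2 : (-2 : ℂ) = ((-2 : ℝ) : ℂ) := by push_cast; rfl
        rw [h2]; rfl
      rw [this]
    rw [e2, inner_smul_left, inner_add_left, inner_smul_left, a2, a3]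
    simp
  have b3 : inner ℂ w w = 0 := by
    conv_lhs => rw [show inner ℂ w w = inner ℂ (u - T1 L f) w from rfl]
    rw [inner_sub_left, b1, b2, sub_zero]
  have b4 : w = 0 := inner_self_eq_zero.mp b3
  exact (sub_eq_zero.mp b4).symm

/-- the multiplier `h̄` -/
theorem hbar_bd (hΩ : IsOpen Ω) (hd : DifferentiableOn ℂ h1 Ω) (hK0 : 0 ≤ K) (hK : ∀ z ∈ Ω, ‖h1 z‖ ≤ K) :
    BdC (Ω.indicator fun z => (starRingEnd ℂ) (h1 z)) K := by
  refine ⟨meas_ind_c hΩ (Complex.continuous_conj.comp_continuousOn hd.continuousOn), fun z => ?_, hK0⟩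
  by_cases hz : z ∈ Ω
  · rw [indicator_of_mem hz, Complex.norm_conj]; exact hK z hz
  · rw [indicator_of_notMem hz, norm_zero]; exact hK0

/-- `S_h` -/
noncomputable def SH (L : L2 →L[ℝ] V Ω) (hΩ : IsOpen Ω) (hd : DifferentiableOn ℂ h1 Ω) (hK0 : 0 ≤ K)
    (hK : ∀ z ∈ Ω, ‖h1 z‖ ≤ K) : HC →L[ℂ] HC := (MulC (hbar_bd hΩ hd hK0 hK)).comp (T1 L)

theorem SH_compact {L : L2 →L[ℝ] V Ω} (hL : IsCompactOperator L) (hΩ : IsOpen Ω) (hd : DifferentiableOn ℂ h1 Ω)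
    (hK0 : 0 ≤ K) (hK : ∀ z ∈ Ω, ‖h1 z‖ ≤ K) : IsCompactOperator (SH L hΩ hd hK0 hK) :=
  (T1_compact hL).clm_comp (MulC (hbar_bd hΩ hd hK0 hK))

theorem SH_coe (L : L2 →L[ℝ] V Ω) (hΩ : IsOpen Ω) (hd : DifferentiableOn ℂ h1 Ω) (hK0 : 0 ≤ K)
    (hK : ∀ z ∈ Ω, ‖h1 z‖ ≤ K) (f : HC) : (SH L hΩ hd hK0 hK f : ℂ → ℂ) =ᵐ[volume]
      fun z => Ω.indicator (fun z => (starRingEnd ℂ) (h1 z)) z * (T1 L f : ℂ → ℂ) z :=
  MulC_coe (hbar_bd hΩ hd hK0 hK) (T1 L f)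

/-- the operator has an eigenvalue when the periods are real -/
theorem SH_eig (hΩ : IsOpen Ω) (hd : DifferentiableOn ℂ h1 Ω) (hK0 : 0 ≤ K) (hK : ∀ z ∈ Ω, ‖h1 z‖ ≤ K)
    {L : L2 →L[ℝ] V Ω} (hL : Sol L)
    {R : ℝ} (hR : 0 < R) (hΩR : Ω ⊆ ball 0 R) (hP : Prim Ω h1 b)
    {γ γ' : ℝ → ℂ} (hγ : ∀ t ∈ Icc (0 : ℝ) 1, HasDerivAt γ (γ' t) t)
    (hγ' : ContinuousOn γ' (Icc 0 1)) (hγΩ : ∀ t ∈ Icc (0 : ℝ) 1, γ t ∈ Ω) (hcl : γ 0 = γ 1)
    (hp : (∫ t in (0 : ℝ)..1, h1 (γ t) * γ' t) ≠ 0) :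
    ∃ lam : ℂ, lam ≠ 0 ∧ ∃ f : HC, f ≠ 0 ∧ SH L hΩ hd hK0 hK f = lam • f := by
  obtain ⟨μ, hμ, u, f, g, hug, hum, hfm, hf0, hweak, -, hfu⟩ :=
    eigG hΩ hd hK0 hK hR hΩR hP hγ hγ' hγΩ hcl hp
  have hu0 : ∀ z, z ∉ Ω → u z = 0 := by
    intro z hz
    rw [hug]; unfold ue
    rw [indicator_of_notMem hz]; simp
  have hf00 : ∀ z, z ∉ Ω → f z = 0 := by
    intro z hz
    rw [hfu, hu0 z hz, mul_zero]
  have hui : Ω.indicator u = u := by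
    funext z
    by_cases hz : z ∈ Ω
    · rw [indicator_of_mem hz]
    · rw [indicator_of_notMem hz, hu0 z hz]
  have hfi : Ω.indicator f = f := by
    funext z
    by_cases hz : z ∈ Ω
    · rw [indicator_of_mem hz]
    · rw [indicator_of_notMem hz, hf00 z hz]
  have hum' : MemLp u 2 (volume : Measure ℂ) := by
    rw [← hui, memLp_indicator_iff_restrict hΩ.measurableSet]; exact hum
  have hfm' : MemLp f 2 (volume : Measure ℂ) := by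
    rw [← hfi, memLp_indicator_iff_restrict hΩ.measurableSet]; exact hfm
  have hT : T1 L (hfm'.toLp f) = hum'.toLp u := by
    refine T1_eq hΩ hd hK0 hK hP hL μ g ?_ ?_
    · rw [← hug]; exact hum'.coeFn_toLp
    · intro χ hχ
      have h := hweak χ hχ.smooth hχ.comp hχ.supp
      rw [setIntegral_eq_integral_of_forall_compl_eq_zero (fun z hz => by rw [hu0 z hz, zero_mul]),
        setIntegral_eq_integral_of_forall_compl_eq_zero (fun z hz => by rw [hf00 z hz, zero_mul])] at h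
      have e1 : ∫ z, (hum'.toLp u : ℂ → ℂ) z * (fderiv ℝ χ z 1 + Complex.I * fderiv ℝ χ z Complex.I) =
          ∫ z, 2 * (u z * ((fderiv ℝ χ z 1 + Complex.I * fderiv ℝ χ z Complex.I) / 2)) := by
        apply integral_congr_ae
        filter_upwards [hum'.coeFn_toLp] with z hz
        rw [hz]; ring
      have e2 : ∫ z, (hfm'.toLp f : ℂ → ℂ) z * χ z = ∫ z, f z * χ z := by
        apply integral_congr_ae
        filter_upwards [hfm'.coeFn_toLp] with z hz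
        rw [hz]
      rw [e1, e2, integral_const_mul, h]; ring
  have hμ' : (μ : ℂ) ≠ 0 := Complex.ofReal_ne_zero.mpr hμ.ne'
  refine ⟨(μ : ℂ)⁻¹, inv_ne_zero hμ', hfm'.toLp f, ?_, ?_⟩
  · intro h0
    apply hf0
    have h1' : (hfm'.toLp f : ℂ → ℂ) =ᵐ[volume] 0 := by rw [h0]; exact Lp.coeFn_zero _ _ _
    have h2' : f =ᵐ[volume] 0 := hfm'.coeFn_toLp.symm.trans h1'
    exact ae_restrict_of_ae h2'
  · apply Lp.ext
    filter_upwards [SH_coe L hΩ hd hK0 hK (hfm'.toLp f), hum'.coeFn_toLp, hfm'.coeFn_toLp,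
      Lp.coeFn_smul ((μ : ℂ)⁻¹) (hfm'.toLp f)] with z k1 k2 k3 k4
    rw [k1, k4, Pi.smul_apply, hT, k2, k3, hfu, smul_eq_mul]
    by_cases hz : z ∈ Ω
    · rw [indicator_of_mem hz]
      field_simp
    · rw [indicator_of_notMem hz, hu0 z hz]; simp

end Pool.Agent.TH340.SH
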