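import Pool.Agent.TH340.SH.Td

/-!
The inverted pencil, measurability, several parameters.
-/

set_option autoImplicit false

open MeasureTheory Set Filter Topology Metric

namespace Pool.Agent.TH340.SH

section
variable {H : Type*} [NormedAddCommGroup H] [InnerProductSpace ℂ H] [CompleteSpace H]

theorem null_bad_inv {S0 S1 : H →L[ℂ] H} {lam : ℂ} (hl : lam ≠ 0) {f : H} (hf : ‖f‖ = 1)
    (he : S0 f = lam • f) : volume (Bad S1 S0) = 0 := by
  have h0 : volume (Bad S0 S1) = 0 := null_bad hl hf he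
  have hsub : Bad S1 S0 ⊆ {0} ∪ (fun w : ℂ => w⁻¹) '' (Bad S0 S1 \ {0}) := by
    intro w hw
    by_cases hw0 : w = 0
    · left; exact hw0
    · right
      refine ⟨w⁻¹, ⟨?_, inv_ne_zero hw0⟩, inv_inv w⟩
      intro A
      obtain ⟨A', hA'⟩ := exists_nat_ge ((A : ℝ) - Real.log ‖w‖)
      obtain ⟨n0, hn0⟩ := hw A'
      refine ⟨n0, fun n hn => ?_⟩
      have e : S0 + w⁻¹ • S1 = w⁻¹ • (S1 + w • S0) := by
        rw [smul_add, smul_smul, inv_mul_cancel₀ hw0, one_smul, add_comm]
      have hwp : 0 < ‖w‖ := norm_pos_iff.mpr hw0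
      rw [e, smul_pow, norm_smul, norm_pow, norm_inv]
      calc ‖w‖⁻¹ ^ n * ‖(S1 + w • S0) ^ n‖ ≤ ‖w‖⁻¹ ^ n * Real.exp (-(A' * n)) :=
            mul_le_mul_of_nonneg_left (hn0 n hn) (by positivity)
        _ = Real.exp (-((Real.log ‖w‖ + A') * n)) := by
            have e2 : ‖w‖⁻¹ ^ n = Real.exp (-(Real.log ‖w‖ * n)) := by
              rw [← Real.exp_log (inv_pos.mpr hwp), Real.log_inv, ← Real.exp_nat_mul]
              congr 1; ring
            rw [e2, ← Real.exp_add]; congr 1; ring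
        _ ≤ Real.exp (-(A * n)) := by
            apply Real.exp_le_exp.mpr
            have : (A : ℝ) * n ≤ (Real.log ‖w‖ + A') * n :=
              mul_le_mul_of_nonneg_right (by linarith) (Nat.cast_nonneg n)
            linarith
  refine measure_mono_null hsub (measure_union_null (by simp) ?_)
  refine addHaar_image_eq_zero_of_differentiableOn_of_addHaar_eq_zero (volume : Measure ℂ) ?_
    (measure_mono_null sdiff_subset h0)
  intro w hw
  have h1 : DifferentiableAt ℂ (fun w : ℂ => w⁻¹) w := differentiableAt_inv hw.2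
  exact (h1.restrictScalars ℝ).differentiableWithinAt

/-- several parameters -/
theorem generic_prod {E : Type*} [TopologicalSpace E] [MeasurableSpace E] [BorelSpace E]
    [SecondCountableTopology E] {ν : Measure E} [SFinite ν]
    (X : E → H →L[ℂ] H) (hX : Continuous X) {S0 : H →L[ℂ] H}
    {lam : ℂ} (hl : lam ≠ 0) {f : H} (hf : f ≠ 0) (he : S0 f = lam • f)
    (hc : ∀ p : E × ℂ, IsCompactOperator (X p.1 + (starRingEnd ℂ) p.2 • S0)) :
    ∀ᵐ p : E × ℂ ∂(ν.prod volume), ∃ nu : ℂ, nu ≠ 0 ∧ ∃ g : H, g ≠ 0 ∧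
      (X p.1 + (starRingEnd ℂ) p.2 • S0) g = nu • g := by
  have hn : ‖f‖ ≠ 0 := norm_ne_zero_iff.mpr hf
  set f1 : H := ((‖f‖ : ℂ)⁻¹) • f with hf1
  have h1 : ‖f1‖ = 1 := by
    rw [hf1, norm_smul, norm_inv, Complex.norm_real, norm_norm, inv_mul_cancel₀ hn]
  have h2 : S0 f1 = lam • f1 := by rw [hf1, map_smul, he, smul_comm]
  set Y : E × ℂ → H →L[ℂ] H := fun p => X p.1 + (starRingEnd ℂ) p.2 • S0 with hY
  have hYc : Continuous Y := by
    have c1 : Continuous fun p : E × ℂ => (starRingEnd ℂ) p.2 := Complex.continuous_conj.comp continuous_snd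
    exact (hX.comp continuous_fst).add (c1.smul continuous_const)
  set B : Set (E × ℂ) := {p | ∀ A : ℕ, ∃ n0 : ℕ, ∀ n ≥ n0, ‖(Y p) ^ n‖ ≤ Real.exp (-(A * n))} with hB
  have hBm : MeasurableSet B := by
    have : B = ⋂ A : ℕ, ⋃ n0 : ℕ, ⋂ n ∈ Ici n0, {p | ‖(Y p) ^ n‖ ≤ Real.exp (-(A * n))} := by
      ext w; simp [hB]
    rw [this]
    refine MeasurableSet.iInter fun A => MeasurableSet.iUnion fun n0 => ?_
    refine MeasurableSet.biInter (to_countable _) fun n _ => ?_
    exact (isClosed_le (hYc.pow n).norm continuous_const).measurableSet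
  have hB0 : (ν.prod volume) B = 0 := by
    rw [Measure.measure_prod_null hBm]
    refine Eventually.of_forall fun x => ?_
    show volume (Prod.mk x ⁻¹' B) = 0
    have hmp : MeasurePreserving (Complex.conjLIE : ℂ → ℂ) volume volume :=
      Complex.conjLIE.measurePreserving
    have e : Prod.mk x ⁻¹' B = (Complex.conjLIE : ℂ → ℂ) ⁻¹' (Bad (X x) S0) := by
      ext w; rfl
    rw [e, hmp.measure_preimage (Bad_meas _ _).nullMeasurableSet]
    exact null_bad_inv hl h1 h2
  filter_upwards [compl_mem_ae_iff.mpr hB0] with p hp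
  by_contra hcon
  push Not at hcon
  apply hp
  intro a
  refine decay_of_no_eig (hc p) ?_ a
  intro nu hnu g hg
  by_contra hg0
  exact hcon nu hnu g hg0 hg

end

end Pool.Agent.TH340.SH
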