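import Pool.Agent.TH340.SH.Te

/-!
Generic existence of eigenvalues, function form.
-/

set_option autoImplicit false

open MeasureTheory Set Filter Topology Metric

namespace Pool.Agent.TH340.SH

open Pool.Agent.Helper533.StarBox

theorem lp_sum {ι : Type*} (s : Finset ι) (c : ι → ℂ) (F : ι → HC) :
    ((∑ j ∈ s, c j • F j : HC) : ℂ → ℂ) =ᵐ[volume] fun z => ∑ j ∈ s, c j * (F j : ℂ → ℂ) z := by
  classical
  induction s using Finset.induction_on with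
  | empty =>
    simp only [Finset.sum_empty]
    exact Lp.coeFn_zero _ _ _
  | insert a s ha ih =>
    rw [Finset.sum_insert ha]
    filter_upwards [ih, Lp.coeFn_add (c a • F a) (∑ j ∈ s, c j • F j), Lp.coeFn_smul (c a) (F a)]
      with z h1 h2 h3
    rw [h2, Pi.add_apply, h1, h3, Pi.smul_apply, smul_eq_mul, Finset.sum_insert ha]

theorem compact_sum {ι : Type*} (s : Finset ι) (c : ι → ℂ) (F : ι → HC →L[ℂ] HC)
    (hF : ∀ i, IsCompactOperator (F i)) : IsCompactOperator (∑ j ∈ s, c j • F j : HC →L[ℂ] HC) := by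
  classical
  induction s using Finset.induction_on with
  | empty =>
    simp only [Finset.sum_empty]
    exact isCompactOperator_zero
  | insert a s ha ih =>
    rw [Finset.sum_insert ha]
    exact ((hF a).smul (c a)).add ih

variable {Ω : Set ℂ} {b : ℂ → ℝ}

theorem generic_fun (hΩ : IsOpen Ω) {R : ℝ} (hR : 0 < R) (hΩR : Ω ⊆ ball 0 R)
    {h : ℂ → ℂ} (hh : DifferentiableOn ℂ h Ω) {Kh : ℝ} (hKh0 : 0 ≤ Kh) (hKh : ∀ z ∈ Ω, ‖h z‖ ≤ Kh)
    {c : ℂ} (hc : c ≠ 0) (hP : Prim Ω (fun z => h z / c) b)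
    {γ γ' : ℝ → ℂ} (hγ : ∀ t ∈ Icc (0 : ℝ) 1, HasDerivAt γ (γ' t) t)
    (hγ' : ContinuousOn γ' (Icc 0 1)) (hγΩ : ∀ t ∈ Icc (0 : ℝ) 1, γ t ∈ Ω) (hcl : γ 0 = γ 1)
    (hp : (∫ t in (0 : ℝ)..1, h (γ t) / c * γ' t) ≠ 0)
    {k : ℂ → ℂ} (hk : DifferentiableOn ℂ k Ω) {Kk : ℝ} (hKk0 : 0 ≤ Kk) (hKk : ∀ z ∈ Ω, ‖k z‖ ≤ Kk)
    {m : ℕ} {κ : Fin m → ℂ → ℂ} (hκ : ∀ j, DifferentiableOn ℂ (κ j) Ω) {Kj : Fin m → ℝ} (hKj0 : ∀ j, 0 ≤ Kj j)
    (hKj : ∀ j, ∀ z ∈ Ω, ‖κ j z‖ ≤ Kj j) :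
    ∀ᵐ p : (Fin m → ℂ) × ℂ, ∃ nu : ℂ, nu ≠ 0 ∧ ∃ f u : ℂ → ℂ, MemLp f 2 (volume.restrict Ω) ∧
      (¬ f =ᵐ[volume.restrict Ω] 0) ∧ MemLp u 2 (volume.restrict Ω) ∧
      (∀ χ : ℂ → ℂ, ContDiff ℝ (⊤ : ℕ∞) χ → HasCompactSupport χ → tsupport χ ⊆ Ω →
        ∫ z in Ω, u z * ((fderiv ℝ χ z 1 + Complex.I * fderiv ℝ χ z Complex.I) / 2) = - ∫ z in Ω, f z * χ z) ∧
      (∀ G : ℂ → ℂ, DifferentiableOn ℂ G Ω → MemLp G 2 (volume.restrict Ω) →
        ∫ z in Ω, u z * (starRingEnd ℂ) (G z) = 0) ∧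
      (fun z => (starRingEnd ℂ) (k z + p.2 * h z + ∑ j, p.1 j * κ j z) * u z) =ᵐ[volume.restrict Ω]
        fun z => nu * f z := by
  obtain ⟨L, hL, hLc⟩ := exists_sol hR hΩR
  have hd1 : DifferentiableOn ℂ (fun z => h z / c) Ω := hh.div_const c
  have hK10 : 0 ≤ Kh / ‖c‖ := by positivity
  have hK1 : ∀ z ∈ Ω, ‖(fun z => h z / c) z‖ ≤ Kh / ‖c‖ := fun z hz => by
    show ‖h z / c‖ ≤ _
    rw [norm_div]
    exact div_le_div_of_nonneg_right (hKh z hz) (norm_nonneg c)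
  obtain ⟨lam, hlam, f0, hf0, he⟩ := SH_eig hΩ hd1 hK10 hK1 hL hR hΩR hP hγ hγ' hγΩ hcl hp
  have hc' : (starRingEnd ℂ) c ≠ 0 := (map_ne_zero _).mpr hc
  have he' : SH L hΩ hh hKh0 hKh f0 = ((starRingEnd ℂ) c * lam) • f0 := by
    rw [mul_smul, ← he]
    apply Lp.ext
    filter_upwards [SH_coe L hΩ hh hKh0 hKh f0, SH_coe L hΩ hd1 hK10 hK1 f0,
      Lp.coeFn_smul ((starRingEnd ℂ) c) (SH L hΩ hd1 hK10 hK1 f0)] with z k1 k2 k3
    rw [k1, k3, Pi.smul_apply, k2, smul_eq_mul]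
    by_cases hz : z ∈ Ω
    · rw [indicator_of_mem hz, indicator_of_mem hz, map_div₀]
      field_simp
    · rw [indicator_of_notMem hz, indicator_of_notMem hz]; simp
  set X : (Fin m → ℂ) → HC →L[ℂ] HC := fun η => SH L hΩ hk hKk0 hKk +
    ∑ j, (starRingEnd ℂ) (η j) • SH L hΩ (hκ j) (hKj0 j) (hKj j) with hX
  have hXc : Continuous X := by
    refine continuous_const.add (continuous_finsetSum _ fun j _ => ?_)
    exact (Complex.continuous_conj.comp (continuous_apply j)).smul continuous_const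
  have hcomp : ∀ p : (Fin m → ℂ) × ℂ,
      IsCompactOperator (X p.1 + (starRingEnd ℂ) p.2 • SH L hΩ hh hKh0 hKh) := by
    intro p
    refine ((SH_compact hLc hΩ hk hKk0 hKk).add (compact_sum _ _ _ fun j => ?_)).add
      ((SH_compact hLc hΩ hh hKh0 hKh).smul _)
    exact SH_compact hLc hΩ (hκ j) (hKj0 j) (hKj j)
  have hgen := generic_prod (ν := (volume : Measure (Fin m → ℂ))) X hXc
    (S0 := SH L hΩ hh hKh0 hKh) (mul_ne_zero hc' hlam) hf0 he' hcomp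
  have hgen' : ∀ᵐ p : (Fin m → ℂ) × ℂ, ∃ nu : ℂ, nu ≠ 0 ∧ ∃ g : HC, g ≠ 0 ∧
      (X p.1 + (starRingEnd ℂ) p.2 • SH L hΩ hh hKh0 hKh) g = nu • g := hgen
  filter_upwards [hgen'] with p hpp
  obtain ⟨nu, hnu, g, hg0, hg⟩ := hpp
  -- pointwise identity
  have hae : ∀ᵐ z : ℂ, Ω.indicator (fun z => (starRingEnd ℂ) (k z + p.2 * h z + ∑ j, p.1 j * κ j z)) z *
      (T1 L g : ℂ → ℂ) z = nu * (g : ℂ → ℂ) z := by
    have e : (X p.1 + (starRingEnd ℂ) p.2 • SH L hΩ hh hKh0 hKh) g = (SH L hΩ hk hKk0 hKk g +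
        ∑ j, (starRingEnd ℂ) (p.1 j) • SH L hΩ (hκ j) (hKj0 j) (hKj j) g)
        + (starRingEnd ℂ) p.2 • SH L hΩ hh hKh0 hKh g := by
      rw [hX]
      simp only [ContinuousLinearMap.add_apply, ContinuousLinearMap.smul_apply,
        ContinuousLinearMap.sum_apply]
    rw [e] at hg
    have hj : ∀ᵐ z : ℂ, ∀ j, (SH L hΩ (hκ j) (hKj0 j) (hKj j) g : ℂ → ℂ) z =
        Ω.indicator (fun z => (starRingEnd ℂ) (κ j z)) z * (T1 L g : ℂ → ℂ) z :=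
      ae_all_iff.mpr fun j => SH_coe L hΩ (hκ j) (hKj0 j) (hKj j) g
    set W1 := ∑ j, (starRingEnd ℂ) (p.1 j) • SH L hΩ (hκ j) (hKj0 j) (hKj j) g with hW1
    have hsum := lp_sum Finset.univ (fun j => (starRingEnd ℂ) (p.1 j))
      (fun j => SH L hΩ (hκ j) (hKj0 j) (hKj j) g)
    have hg' : (((SH L hΩ hk hKk0 hKk g + W1) + (starRingEnd ℂ) p.2 • SH L hΩ hh hKh0 hKh g : HC) : ℂ → ℂ)
        =ᵐ[volume] ((nu • g : HC) : ℂ → ℂ) := by rw [hg]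
    filter_upwards [hg', hj, hsum, SH_coe L hΩ hk hKk0 hKk g, SH_coe L hΩ hh hKh0 hKh g,
      Lp.coeFn_add (SH L hΩ hk hKk0 hKk g + W1) ((starRingEnd ℂ) p.2 • SH L hΩ hh hKh0 hKh g),
      Lp.coeFn_add (SH L hΩ hk hKk0 hKk g) W1,
      Lp.coeFn_smul ((starRingEnd ℂ) p.2) (SH L hΩ hh hKh0 hKh g), Lp.coeFn_smul nu g]
      with z k1 k2 k3 k4 k5 k6 k7 k8 k9
    rw [k6, Pi.add_apply, k7, Pi.add_apply, k8, Pi.smul_apply, k9, Pi.smul_apply, k4, k5, k3,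
      smul_eq_mul, smul_eq_mul] at k1
    simp only [k2] at k1
    rw [← k1]
    by_cases hz : z ∈ Ω
    · simp only [indicator_of_mem hz]
      rw [map_add, map_add, map_mul, map_sum]
      simp only [map_mul]
      rw [add_mul, add_mul, Finset.sum_mul]
      have : ∀ j, (starRingEnd ℂ) (p.1 j) * ((starRingEnd ℂ) (κ j z) * (T1 L g : ℂ → ℂ) z) =
          (starRingEnd ℂ) (p.1 j) * (starRingEnd ℂ) (κ j z) * (T1 L g : ℂ → ℂ) z := fun j => by ring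
      simp only [this]
      ring
    · simp only [indicator_of_notMem hz]
      simp
  refine ⟨nu, hnu, g, T1 L g, (Lp.memLp g).restrict Ω, ?_, (Lp.memLp (T1 L g)).restrict Ω, ?_, ?_, ?_⟩
  · intro h0
    apply hg0
    apply Lp.ext
    have h0' := (ae_restrict_iff' hΩ.measurableSet).mp h0
    filter_upwards [hae, h0', Lp.coeFn_zero ℂ 2 (volume : Measure ℂ)] with z h3 h4 h5
    rw [h5]
    by_cases hz : z ∈ Ω
    · exact h4 hz
    · rw [indicator_of_notMem hz, zero_mul] at h3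
      exact (mul_eq_zero.mp h3.symm).resolve_left hnu
  · intro χ hχ1 hχ2 hχ3
    have hχ : CT Ω χ := ⟨hχ1, hχ2, hχ3⟩
    have hw := T1_weak hL g hχ
    have z1 : ∀ z, z ∉ Ω → χ z = 0 := fun z hz => image_eq_zero_of_notMem_tsupport fun h => hz (hχ3 h)
    have z2 : ∀ z, z ∉ Ω → fderiv ℝ χ z = 0 := fun z hz =>
      image_eq_zero_of_notMem_tsupport fun h => hz (hχ3 (tsupport_fderiv_subset ℝ h))
    rw [setIntegral_eq_integral_of_forall_compl_eq_zero (fun z hz => by rw [z2 z hz]; simp),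
      setIntegral_eq_integral_of_forall_compl_eq_zero (fun z hz => by rw [z1 z hz]; simp)]
    have e1 : ∫ z, (T1 L g : ℂ → ℂ) z * ((fderiv ℝ χ z 1 + Complex.I * fderiv ℝ χ z Complex.I) / 2) =
        ∫ z, 1 / 2 * ((T1 L g : ℂ → ℂ) z * (fderiv ℝ χ z 1 + Complex.I * fderiv ℝ χ z Complex.I)) := by
      congr 1; funext z; ring
    rw [e1, integral_const_mul, hw]; ring
  · intro G hG hGm
    exact T1_orth hΩ hd1 hK10 hK1 hP L g hG hGm
  · rw [Filter.EventuallyEq, ae_restrict_iff' hΩ.measurableSet]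
    filter_upwards [hae] with z hz hzΩ
    rw [indicator_of_mem hzΩ] at hz
    exact hz

end Pool.Agent.TH340.SH
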