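import Pool.Agent.TH340.SH.Tf

/-!
Closed curves with real periods: the imaginary part of a primitive is single valued.
-/

set_option autoImplicit false

open MeasureTheory Set Filter Topology Metric

namespace Pool.Agent.TH340.SH

/-- `C¹` curve in `Ω` -/
structure IsCurve (Ω : Set ℂ) (γ γ' : ℝ → ℂ) : Prop where
  deriv : ∀ t ∈ Icc (0 : ℝ) 1, HasDerivAt γ (γ' t) t
  cont : ContinuousOn γ' (Icc 0 1)
  mem : ∀ t ∈ Icc (0 : ℝ) 1, γ t ∈ Ω

/-- values of the integral of `h` along curves from `z` to `w` -/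
def J (Ω : Set ℂ) (h : ℂ → ℂ) (z w : ℂ) : Set ℂ :=
  {a | ∃ γ γ' : ℝ → ℂ, IsCurve Ω γ γ' ∧ γ 0 = z ∧ γ 1 = w ∧ a = ∫ t in (0 : ℝ)..1, h (γ t) * γ' t}

variable {Ω : Set ℂ} {h : ℂ → ℂ}

theorem J_neg {z w a : ℂ} (ha : a ∈ J Ω h z w) : -a ∈ J Ω h w z := by
  obtain ⟨γ, γ', hc, h0, h1, rfl⟩ := ha
  have hm : ∀ t ∈ Icc (0 : ℝ) 1, 1 - t ∈ Icc (0 : ℝ) 1 := fun t ht => ⟨by linarith [ht.2], by linarith [ht.1]⟩
  refine ⟨fun t => γ (1 - t), fun t => -γ' (1 - t), ⟨?_, ?_, ?_⟩, ?_, ?_, ?_⟩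
  · intro t ht
    have h2 : HasDerivAt (fun t : ℝ => 1 - t) (-1) t := by
      simpa using (hasDerivAt_id t).const_sub 1
    have h3 := (hc.deriv (1 - t) (hm t ht)).scomp t h2
    rw [neg_one_smul] at h3
    exact h3
  · refine (hc.cont.comp (by fun_prop) hm).neg
  · intro t ht; exact hc.mem _ (hm t ht)
  · show γ (1 - 0) = w
    rw [sub_zero, h1]
  · show γ (1 - 1) = z
    rw [sub_self, h0]
  · have e2 := intervalIntegral.integral_comp_sub_left (a := (0 : ℝ)) (b := 1)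
      (fun t => h (γ t) * γ' t) 1
    rw [sub_self, sub_zero] at e2
    rw [← e2, ← intervalIntegral.integral_neg]
    congr 1
    funext t; ring

/-- change of variables -/
theorem J_sub {γ γ' : ℝ → ℂ} (hc : IsCurve Ω γ γ') (hh : ContinuousOn h Ω) {f f' : ℝ → ℝ}
    (hf : ∀ t, HasDerivAt f (f' t) t) (hf' : Continuous f') (hfI : ∀ t, f t ∈ Icc (0 : ℝ) 1)
    (h0 : f 0 = 0) (h1 : f 1 = 1) :
    ∫ t in (0 : ℝ)..1, f' t • (h (γ (f t)) * γ' (f t)) = ∫ t in (0 : ℝ)..1, h (γ t) * γ' t := by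
  have hγc : ContinuousOn γ (Icc 0 1) := fun t ht => (hc.deriv t ht).continuousAt.continuousWithinAt
  have hg : ContinuousOn (fun t => h (γ t) * γ' t) (Icc 0 1) := (hh.comp hγc hc.mem).mul hc.cont
  have := intervalIntegral.integral_deriv_smul_comp' (a := (0 : ℝ)) (b := 1) (f := f) (f' := f')
    (g := fun t => h (γ t) * γ' t) (fun x _ => hf x) hf'.continuousOn
    (hg.mono (by rintro _ ⟨t, _, rfl⟩; exact hfI t))
  rw [h0, h1] at this
  exact this

theorem J_add (hh : ContinuousOn h Ω) {z w v a b : ℂ} (ha : a ∈ J Ω h z w) (hb : b ∈ J Ω h w v) :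
    a + b ∈ J Ω h z v := by
  obtain ⟨γ1, γ1', hc1, s1, e1, rfl⟩ := ha
  obtain ⟨γ2, γ2', hc2, s2, e2, rfl⟩ := hb
  set S : ℝ → ℝ := Real.smoothTransition with hS
  have hSd : ContDiff ℝ (1 : ℕ∞) S := Real.smoothTransition.contDiff
  have hSI : ∀ x, S x ∈ Icc (0 : ℝ) 1 := fun x =>
    ⟨Real.smoothTransition.nonneg x, Real.smoothTransition.le_one x⟩
  have hS' : ∀ x, HasDerivAt S (_root_.deriv S x) x := fun x =>
    ((hSd.differentiable (by norm_num)) x).hasDerivAt
  have hSc : Continuous (_root_.deriv S) := hSd.continuous_deriv (by norm_num)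
  have hS0 : ∀ x, x < 0 → _root_.deriv S x = 0 := by
    intro x hx
    have : S =ᶠ[𝓝 x] fun _ => 0 := by
      filter_upwards [Iio_mem_nhds hx] with y hy
      exact Real.smoothTransition.zero_of_nonpos (le_of_lt hy)
    rw [this.deriv_eq]; simp
  have hS1 : ∀ x, 1 < x → _root_.deriv S x = 0 := by
    intro x hx
    have : S =ᶠ[𝓝 x] fun _ => 1 := by
      filter_upwards [Ioi_mem_nhds hx] with y hy
      exact Real.smoothTransition.one_of_one_le (le_of_lt hy)
    rw [this.deriv_eq]; simp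
  set f1 : ℝ → ℝ := fun t => S (2 * t) with hf1
  set f2 : ℝ → ℝ := fun t => S (2 * t - 1) with hf2
  set g1 : ℝ → ℝ := fun t => _root_.deriv S (2 * t) * 2 with hg1
  set g2 : ℝ → ℝ := fun t => _root_.deriv S (2 * t - 1) * 2 with hg2
  have d1 : ∀ t, HasDerivAt f1 (g1 t) t := by
    intro t
    have h2 : HasDerivAt (fun t : ℝ => 2 * t) 2 t := by simpa using (hasDerivAt_id t).const_mul 2
    exact (hS' (2 * t)).comp t h2
  have d2 : ∀ t, HasDerivAt f2 (g2 t) t := by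
    intro t
    have h2 : HasDerivAt (fun t : ℝ => 2 * t - 1) 2 t := by
      simpa using ((hasDerivAt_id t).const_mul 2).sub_const 1
    exact (hS' (2 * t - 1)).comp t h2
  have k1 : Continuous g1 := (hSc.comp (by fun_prop)).mul continuous_const
  have k2 : Continuous g2 := (hSc.comp (by fun_prop)).mul continuous_const
  have c1 : Continuous f1 := hSd.continuous.comp (by fun_prop)
  have c2 : Continuous f2 := hSd.continuous.comp (by fun_prop)
  have f10 : f1 0 = 0 := by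
    show S (2 * 0) = 0
    exact Real.smoothTransition.zero_of_nonpos (by norm_num)
  have f11 : f1 1 = 1 := by
    show S (2 * 1) = 1
    exact Real.smoothTransition.one_of_one_le (by norm_num)
  have f20 : f2 0 = 0 := by
    show S (2 * 0 - 1) = 0
    exact Real.smoothTransition.zero_of_nonpos (by norm_num)
  have f21 : f2 1 = 1 := by
    show S (2 * 1 - 1) = 1
    exact Real.smoothTransition.one_of_one_le (by norm_num)
  have hL : ∀ t, t ≤ 1 / 2 → f2 t = 0 := fun t ht =>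
    Real.smoothTransition.zero_of_nonpos (by linarith)
  have hR : ∀ t, 1 / 2 ≤ t → f1 t = 1 := fun t ht =>
    Real.smoothTransition.one_of_one_le (by linarith)
  have valL : ∀ t, t ≤ 1 / 2 → γ1 (f1 t) + γ2 (f2 t) - w = γ1 (f1 t) := by
    intro t ht; rw [hL t ht, s2]; ring
  have valR : ∀ t, 1 / 2 ≤ t → γ1 (f1 t) + γ2 (f2 t) - w = γ2 (f2 t) := by
    intro t ht; rw [hR t ht, e1]; ring
  refine ⟨fun t => γ1 (f1 t) + γ2 (f2 t) - w, fun t => g1 t • γ1' (f1 t) + g2 t • γ2' (f2 t),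
    ⟨?_, ?_, ?_⟩, ?_, ?_, ?_⟩
  · intro t _
    exact (((hc1.deriv (f1 t) (hSI _)).scomp t (d1 t)).add
      ((hc2.deriv (f2 t) (hSI _)).scomp t (d2 t))).sub_const w
  · refine ContinuousOn.add ?_ ?_
    · exact k1.continuousOn.smul (hc1.cont.comp c1.continuousOn fun t _ => hSI _)
    · exact k2.continuousOn.smul (hc2.cont.comp c2.continuousOn fun t _ => hSI _)
  · intro t _
    rcases le_total t (1 / 2) with ht | ht
    · show γ1 (f1 t) + γ2 (f2 t) - w ∈ Ω
      rw [valL t ht]; exact hc1.mem _ (hSI _)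
    · show γ1 (f1 t) + γ2 (f2 t) - w ∈ Ω
      rw [valR t ht]; exact hc2.mem _ (hSI _)
  · show γ1 (f1 0) + γ2 (f2 0) - w = z
    rw [valL 0 (by norm_num), f10, s1]
  · show γ1 (f1 1) + γ2 (f2 1) - w = v
    rw [valR 1 (by norm_num), f21, e2]
  · have hγ1c : ContinuousOn γ1 (Icc 0 1) := fun t ht => (hc1.deriv t ht).continuousAt.continuousWithinAt
    have hγ2c : ContinuousOn γ2 (Icc 0 1) := fun t ht => (hc2.deriv t ht).continuousAt.continuousWithinAt
    have i1 : IntervalIntegrable (fun t => g1 t • (h (γ1 (f1 t)) * γ1' (f1 t))) volume 0 1 := by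
      apply ContinuousOn.intervalIntegrable
      refine k1.continuousOn.smul (ContinuousOn.mul ?_ ?_)
      · exact hh.comp (hγ1c.comp c1.continuousOn fun t _ => hSI _) fun t _ => hc1.mem _ (hSI _)
      · exact hc1.cont.comp c1.continuousOn fun t _ => hSI _
    have i2 : IntervalIntegrable (fun t => g2 t • (h (γ2 (f2 t)) * γ2' (f2 t))) volume 0 1 := by
      apply ContinuousOn.intervalIntegrable
      refine k2.continuousOn.smul (ContinuousOn.mul ?_ ?_)
      · exact hh.comp (hγ2c.comp c2.continuousOn fun t _ => hSI _) fun t _ => hc2.mem _ (hSI _)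
      · exact hc2.cont.comp c2.continuousOn fun t _ => hSI _
    rw [← J_sub hc1 hh d1 k1 (fun t => hSI _) f10 f11, ← J_sub hc2 hh d2 k2 (fun t => hSI _) f20 f21,
      ← intervalIntegral.integral_add i1 i2]
    congr 1
    funext t
    show g1 t • (h (γ1 (f1 t)) * γ1' (f1 t)) + g2 t • (h (γ2 (f2 t)) * γ2' (f2 t)) =
      h (γ1 (f1 t) + γ2 (f2 t) - w) * (g1 t • γ1' (f1 t) + g2 t • γ2' (f2 t))
    rcases lt_trichotomy t (1 / 2) with ht | ht | ht
    · have z2 : g2 t = 0 := by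
        show _root_.deriv S (2 * t - 1) * 2 = 0
        rw [hS0 _ (by linarith), zero_mul]
      rw [valL t ht.le, z2, zero_smul, zero_smul, add_zero, add_zero, mul_smul_comm]
    · have v1 := valL t ht.le
      have v2 := valR t ht.ge
      rw [v1] at v2
      rw [v1, mul_add, mul_smul_comm, mul_smul_comm, ← v2]
    · have z1 : g1 t = 0 := by
        show _root_.deriv S (2 * t) * 2 = 0
        rw [hS1 _ (by linarith), zero_mul]
      rw [valR t ht.le, z1, zero_smul, zero_smul, zero_add, zero_add, mul_smul_comm]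

/-- segments -/
theorem J_seg {z0 : ℂ} {r : ℝ} (hb : ball z0 r ⊆ Ω) (hh : ContinuousOn h Ω) {H : ℂ → ℂ}
    (hH : ∀ z ∈ ball z0 r, HasDerivAt H (h z) z) {z w : ℂ} (hz : z ∈ ball z0 r) (hw : w ∈ ball z0 r) :
    H w - H z ∈ J Ω h z w := by
  have hmem : ∀ t ∈ Icc (0 : ℝ) 1, z + t * (w - z) ∈ ball z0 r := by
    intro t ht
    have := (convex_ball z0 r) hz hw (by linarith [ht.2] : (0 : ℝ) ≤ 1 - t) ht.1 (by ring)
    have e : (1 - t) • z + t • w = z + t * (w - z) := by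
      rw [Complex.real_smul, Complex.real_smul]; push_cast; ring
    rwa [e] at this
  have hd : ∀ t : ℝ, HasDerivAt (fun t : ℝ => z + (t : ℂ) * (w - z)) (w - z) t := by
    intro t
    have h1 : HasDerivAt (fun t : ℝ => (t : ℂ)) 1 t := Complex.ofRealCLM.hasDerivAt
    simpa using (h1.mul_const (w - z)).const_add z
  refine ⟨fun t => z + t * (w - z), fun _ => w - z, ⟨fun t _ => hd t, continuousOn_const,
    fun t ht => hb (hmem t ht)⟩, by simp, by simp, ?_⟩
  have e := intervalIntegral.integral_eq_sub_of_hasDerivAt (a := (0 : ℝ)) (b := 1)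
    (f := fun t : ℝ => H (z + t * (w - z))) (f' := fun t : ℝ => h (z + t * (w - z)) * (w - z)) ?_ ?_
  · rw [e]; simp
  · intro t ht
    rw [uIcc_of_le zero_le_one] at ht
    exact (hH _ (hmem t ht)).comp t (hd t)
  · apply ContinuousOn.intervalIntegrable
    rw [uIcc_of_le zero_le_one]
    refine ContinuousOn.mul ?_ continuousOn_const
    exact hh.comp (by fun_prop) fun t ht => hb (hmem t ht)

theorem exists_prim (hΩ : IsOpen Ω) (hd : DifferentiableOn ℂ h Ω)
    (hper : ∀ z, ∀ a ∈ J Ω h z z, a.im = 0) : ∃ b : ℂ → ℝ, Prim Ω h b := by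
  have hh := hd.continuousOn
  have hball : ∀ z0 ∈ Ω, ∃ r > 0, ball z0 r ⊆ Ω ∧ ∃ H : ℂ → ℂ, ∀ z ∈ ball z0 r, HasDerivAt H (h z) z := by
    intro z0 hz0
    obtain ⟨r, hr, hb⟩ := Metric.isOpen_iff.mp hΩ z0 hz0
    obtain ⟨H, hH⟩ := (hd.mono hb).isExactOn_ball
    exact ⟨r, hr, hb, H, hH⟩
  have hrefl : ∀ z ∈ Ω, (J Ω h z z).Nonempty := by
    intro z hz
    obtain ⟨r, hr, hb, H, hH⟩ := hball z hz
    exact ⟨_, J_seg hb hh hH (mem_ball_self hr) (mem_ball_self hr)⟩
  let s : Setoid Ω := ⟨fun z w => (J Ω h z w).Nonempty,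
    ⟨fun z => hrefl z z.2, fun ⟨a, ha⟩ => ⟨_, J_neg ha⟩, fun ⟨a, ha⟩ ⟨b, hb⟩ => ⟨_, J_add hh ha hb⟩⟩⟩
  let rep : Ω → Ω := fun z => (Quotient.mk s z).out
  have hrep : ∀ z : Ω, (J Ω h (rep z) z).Nonempty := fun z => Quotient.mk_out (s := s) z
  have hrep2 : ∀ z w : Ω, (J Ω h z w).Nonempty → rep z = rep w := by
    intro z w hzw
    show (Quotient.mk s z).out = (Quotient.mk s w).out
    rw [Quotient.sound (s := s) hzw]
  classical
  refine ⟨fun z => if hz : z ∈ Ω then (hrep ⟨z, hz⟩).some.im else 0, ?_⟩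
  intro z0 hz0
  obtain ⟨r, hr, hb, H, hH⟩ := hball z0 hz0
  have key : ∀ w ∈ ball z0 r, (if hz : w ∈ Ω then (hrep ⟨w, hz⟩).some.im else 0) =
      ((hrep ⟨z0, hz0⟩).some - H z0 + H w).im := by
    intro w hw
    rw [dif_pos (hb hw)]
    have a1 := (hrep ⟨z0, hz0⟩).some_mem
    have a2 := (hrep ⟨w, hb hw⟩).some_mem
    have a3 := J_seg hb hh hH (mem_ball_self hr) hw
    have e : rep ⟨z0, hz0⟩ = rep ⟨w, hb hw⟩ := hrep2 _ _ ⟨_, a3⟩
    set x := (hrep ⟨z0, hz0⟩).some
    set y := (hrep ⟨w, hb hw⟩).some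
    have a4 : x + (H w - H z0) ∈ J Ω h (rep ⟨z0, hz0⟩) w := J_add hh a1 a3
    rw [e] at a4
    have a5 := J_add hh a4 (J_neg a2)
    have a6 := hper _ _ a5
    simp only [Complex.add_im, Complex.sub_im, Complex.neg_im] at a6 ⊢
    linarith
  have hD : HasFDerivAt (fun w => ((hrep ⟨z0, hz0⟩).some - H z0 + H w).im)
      (Complex.imCLM.comp ((ContinuousLinearMap.toSpanSingleton ℂ (h z0) : ℂ →L[ℂ] ℂ).restrictScalars ℝ)) z0 := by
    have h1 := ((hH z0 (mem_ball_self hr)).const_add ((hrep ⟨z0, hz0⟩).some - H z0)).hasFDerivAt.restrictScalars ℝ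
    exact Complex.imCLM.hasFDerivAt.comp z0 h1
  have hev : (fun w => if hz : w ∈ Ω then (hrep ⟨w, hz⟩).some.im else 0) =ᶠ[𝓝 z0]
      fun w => ((hrep ⟨z0, hz0⟩).some - H z0 + H w).im := by
    filter_upwards [isOpen_ball.mem_nhds (mem_ball_self hr)] with w hw
    exact key w hw
  have hD' := hD.congr_of_eventuallyEq hev
  refine ⟨hD'.differentiableAt, fun v => ?_⟩
  rw [hD'.fderiv]
  simp
  ring

end Pool.Agent.TH340.SH
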